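import Pool.Agent.CITLines.Lift

set_option autoImplicit false

/-!
Transcendence degrees of sets of elements in towers of fields.
-/

namespace Pool.Agent.CITLines

open MvPolynomial Module

section Towers

variable {k K L : Type} [Field k] [Field K] [Field L] [Algebra k K] [Algebra k L]

theorem rk_image_le (f : K →ₐ[k] L) (s : Set K) : rk k (f '' s) ≤ rk k s := by
  obtain ⟨B, hB⟩ := (AlgebraicIndependent.matroid k L).exists_isBasis (f '' s)
  have h1 : AlgebraicIndependent k ((↑) : B → L) := hB.indep
  have hsec : ∀ b : B, ∃ a ∈ s, f a = b := fun b => hB.subset b.2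
  choose g hg hg' using hsec
  have hinj : Function.Injective g := by
    intro a b hab
    apply Subtype.ext
    rw [← hg' a, ← hg' b, hab]
  have h2 : AlgebraicIndependent k g := by
    refine AlgebraicIndependent.of_comp f ?_
    have : f ∘ g = ((↑) : B → L) := by
      funext b
      exact hg' b
    rw [this]
    exact h1
  have h3 : (AlgebraicIndependent.matroid k K).Indep (Set.range g) := by
    rw [AlgebraicIndependent.matroid_indep_iff]
    exact h2.coe_range
  have h4 : (Set.range g).encard = B.encard := by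
    rw [← Set.image_univ, hinj.encard_image, Set.encard_univ]
    rfl
  unfold rk
  rw [← hB.encard_eq_eRk, ← h4]
  refine h3.encard_le_eRk_of_subset ?_
  rintro _ ⟨b, rfl⟩
  exact hg b

/-- Independent elements over the bigger field add to the rank. -/
theorem rk_union_ge [Algebra K L] [IsScalarTower k K L] (s : Set K) (hs : s.Finite) {σ : Type}
    [Fintype σ] (x : σ → L) (hx : AlgebraicIndependent K x) :
    rk k s + Fintype.card σ ≤ rk k (algebraMap K L '' s ∪ Set.range x) := by
  obtain ⟨B, hB⟩ := (AlgebraicIndependent.matroid k K).exists_isBasis s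
  have hBfin : B.Finite := hs.subset hB.subset
  have hft : Fintype B := hBfin.fintype
  have h1 : AlgebraicIndependent k ((↑) : B → K) := hB.indep
  have h2 := h1.sumElim_comp hx
  have h3 := rk_range_of_indep _ h2
  have h4 : rk k s = Fintype.card B := by
    unfold rk
    rw [← hB.encard_eq_eRk, Set.encard_eq_coe_toFinset_card, Set.toFinset_card]
  rw [h4, ← Nat.cast_add, add_comm, ← Fintype.card_sum, ← h3]
  refine rk_mono ?_
  rintro _ ⟨i | b, rfl⟩
  · exact Or.inr ⟨i, rfl⟩
  · exact Or.inl ⟨b, hB.subset b.2, rfl⟩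

/-- Change of base field, upper bound. -/
theorem rk_union_le_of_algebraic [Algebra K L] [IsScalarTower k K L] (c : Set L)
    (hc : ∀ z : K, IsAlgebraic (Algebra.adjoin k c) (algebraMap K L z)) (s : Set L) :
    rk k (c ∪ s) ≤ rk k c + rk K s := by
  obtain ⟨B, hB⟩ := (AlgebraicIndependent.matroid K L).exists_isBasis s
  have h1 : rk K s = B.encard := hB.encard_eq_eRk.symm
  have h2 : rk k (c ∪ s) ≤ rk k (c ∪ B) := by
    refine rk_le_of_algebraic ?_
    rintro a (ha | ha)
    · exact isAlgebraic_algebraMap
        (⟨a, Algebra.subset_adjoin (Or.inl ha)⟩ : Algebra.adjoin k (c ∪ B))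
    · have h3 : IsAlgebraic (Algebra.adjoin K B) a :=
        (AlgebraicIndependent.matroid_isBasis_iff.mp hB).2.2 a ha
      -- algebraic over the algebra generated over `k` by `K` and `B`
      have h4 : IsAlgebraic (Algebra.adjoin k (Set.range (algebraMap K L) ∪ B)) a := by
        have hle : ∀ x ∈ Algebra.adjoin K B,
            x ∈ Algebra.adjoin k (Set.range (algebraMap K L) ∪ B) := by
          intro x hx
          refine Algebra.adjoin_induction
            (p := fun x _ => x ∈ Algebra.adjoin k (Set.range (algebraMap K L) ∪ B))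
            (fun x hx => Algebra.subset_adjoin (Or.inr hx))
            (fun r => Algebra.subset_adjoin (Or.inl ⟨r, rfl⟩))
            (fun _ _ _ _ h h' => add_mem h h') (fun _ _ _ _ h h' => mul_mem h h') hx
        let f : Algebra.adjoin K B →+* Algebra.adjoin k (Set.range (algebraMap K L) ∪ B) :=
          { toFun := fun x => ⟨x.1, hle _ x.2⟩
            map_one' := rfl
            map_mul' := fun _ _ => rfl
            map_zero' := rfl
            map_add' := fun _ _ => rfl }
        refine h3.ringHom_of_comp_eq f (RingHom.id L) ?_ ?_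
        · intro x y hxy
          have h6 : (f x : L) = (f y : L) := congrArg Subtype.val hxy
          exact Subtype.ext h6
        · rfl
      refine h4.adjoin_of_forall_isAlgebraic ?_
      rintro x ⟨hx | hx, _⟩
      · obtain ⟨z, rfl⟩ := hx
        exact (hc z).adjoin_of_forall_isAlgebraic fun x hx =>
          absurd (Or.inl hx.1) hx.2
      · exact isAlgebraic_algebraMap
          (⟨x, Algebra.subset_adjoin (Or.inr hx)⟩ : Algebra.adjoin k (c ∪ B))
  refine h2.trans ((rk_union _ _).trans ?_)
  rw [h1]
  exact add_le_add le_rfl (rk_le_encard _)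

end Towers

section Functional

variable {k0 : Type} [Field k0] [Algebra k0 ℂ]

/-- Apply a linear functional to the coefficients. -/
noncomputable def coefMap {κ : Type} (φ : ℂ →ₗ[k0] k0) (F : MvPolynomial κ ℂ) :
    MvPolynomial κ k0 := ∑ m ∈ F.support, monomial m (φ (coeff m F))

theorem coeff_coefMap {κ : Type} (φ : ℂ →ₗ[k0] k0) (F : MvPolynomial κ ℂ) (m : κ →₀ ℕ) :
    coeff m (coefMap φ F) = φ (coeff m F) := by
  classical
  unfold coefMap
  rw [coeff_sum]
  simp only [coeff_monomial]
  rw [Finset.sum_ite_eq' F.support m]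
  split_ifs with h
  · rfl
  · rw [notMem_support_iff.mp h, map_zero]

theorem coefMap_add {κ : Type} (φ : ℂ →ₗ[k0] k0) (F G : MvPolynomial κ ℂ) :
    coefMap φ (F + G) = coefMap φ F + coefMap φ G := by
  ext m
  simp only [coeff_coefMap, coeff_add, map_add]

theorem coefMap_monomial {κ : Type} (φ : ℂ →ₗ[k0] k0) (m : κ →₀ ℕ) (a : ℂ) :
    coefMap φ (monomial m a) = monomial m (φ a) := by
  classical
  ext m'
  rw [coeff_coefMap, coeff_monomial, coeff_monomial]
  split_ifs
  · rfl
  · exact map_zero _

theorem coefMap_mul {κ : Type} (φ : ℂ →ₗ[k0] k0) (h : MvPolynomial κ ℂ)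
    (f : MvPolynomial κ k0) :
    coefMap φ (h * MvPolynomial.map (algebraMap k0 ℂ) f) = coefMap φ h * f := by
  induction h using MvPolynomial.induction_on' with
  | monomial m a =>
    induction f using MvPolynomial.induction_on' with
    | monomial n b =>
      rw [map_monomial, monomial_mul, coefMap_monomial, coefMap_monomial, monomial_mul]
      congr 1
      rw [mul_comm a, ← Algebra.smul_def, map_smul, smul_eq_mul, mul_comm]
    | add f g hf hg => rw [map_add, mul_add, coefMap_add, hf, hg, mul_add]
  | add p q hp hq => rw [add_mul, coefMap_add, hp, hq, coefMap_add, add_mul]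

theorem coefMap_rename {κ κ' : Type} (φ : ℂ →ₗ[k0] k0) (f : κ → κ') (F : MvPolynomial κ ℂ) :
    coefMap φ (rename f F) = rename f (coefMap φ F) := by
  induction F using MvPolynomial.induction_on' with
  | monomial n b => rw [rename_monomial, coefMap_monomial, coefMap_monomial, rename_monomial]
  | add f g hf hg => rw [map_add, coefMap_add, hf, hg, coefMap_add, map_add]

theorem coefMap_mem {κ : Type} (φ : ℂ →ₗ[k0] k0) (p : Ideal (MvPolynomial κ ℂ))
    (S : Set (MvPolynomial κ k0)) (hp : p = Ideal.span (MvPolynomial.map (algebraMap k0 ℂ) '' S))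
    (F : MvPolynomial κ ℂ) (hF : F ∈ p) :
    MvPolynomial.map (algebraMap k0 ℂ) (coefMap φ F) ∈ p := by
  have key : ∀ F ∈ p, ∀ h : MvPolynomial κ ℂ,
      MvPolynomial.map (algebraMap k0 ℂ) (coefMap φ (h * F)) ∈ p := by
    intro F hF
    rw [hp] at hF
    refine Submodule.span_induction (p := fun F _ => ∀ h : MvPolynomial κ ℂ,
      MvPolynomial.map (algebraMap k0 ℂ) (coefMap φ (h * F)) ∈ p) ?_ ?_ ?_ ?_ hF
    · rintro _ ⟨f, hf, rfl⟩ h
      rw [coefMap_mul, map_mul]
      refine Ideal.mul_mem_left _ _ ?_
      rw [hp]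
      exact Ideal.subset_span ⟨f, hf, rfl⟩
    · intro h
      have : coefMap φ (h * 0) = 0 := by
        ext m
        rw [coeff_coefMap, mul_zero, coeff_zero, coeff_zero, map_zero]
      rw [this, map_zero]
      exact p.zero_mem
    · intro x y _ _ hx hy h
      rw [mul_add, coefMap_add, map_add]
      exact p.add_mem (hx h) (hy h)
    · intro a x _ hx h
      rw [smul_eq_mul, ← mul_assoc]
      exact hx _
  have := key F hF 1
  rwa [one_mul] at this

/-- If `p` is defined over `k0`, independence over `k0` implies independence over `ℂ`. -/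
theorem indep_of_defined {ι : Type} (p : Ideal (MvPolynomial ι ℂ)) [p.IsPrime]
    (S : Set (MvPolynomial ι k0)) (hp : p = Ideal.span (MvPolynomial.map (algebraMap k0 ℂ) '' S))
    {B : Type} (f : B → ι)
    (h : AlgebraicIndependent k0 (fun b => gen p (f b))) :
    AlgebraicIndependent ℂ (fun b => gen p (f b)) := by
  rw [algebraicIndependent_iff]
  intro F hF
  by_contra hF0
  obtain ⟨m, hm⟩ := MvPolynomial.ne_zero_iff.mp hF0
  obtain ⟨φ, hφ⟩ : ∃ φ : ℂ →ₗ[k0] k0, φ (coeff m F) ≠ 0 := by
    by_contra hcon
    push Not at hcon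
    exact hm ((Module.forall_dual_apply_eq_zero_iff k0 (coeff m F)).mp hcon)
  have h1 : rename f F ∈ p := by
    rw [← kr_gen p, mem_kr, aeval_rename]
    exact hF
  have h2 := coefMap_mem φ p S hp _ h1
  have h3 := coefMap_rename φ f F
  have h4 : aeval (fun b => gen p (f b)) (coefMap φ F) = 0 := by
    rw [h3, ← kr_gen p, mem_kr, MvPolynomial.aeval_map_algebraMap, aeval_rename] at h2
    exact h2
  have h5 := (algebraicIndependent_iff.mp h) _ h4
  apply hφ
  rw [← coeff_coefMap, h5, coeff_zero]

/-- If `p` is defined over `k0`, its generic point has the same rank over `k0` and `ℂ`. -/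
theorem rk_gen_le_of_defined {ι : Type} [Fintype ι] (p : Ideal (MvPolynomial ι ℂ)) [p.IsPrime]
    (S : Set (MvPolynomial ι k0)) (hp : p = Ideal.span (MvPolynomial.map (algebraMap k0 ℂ) '' S)) :
    rk k0 (Set.range (gen p)) ≤ dm p := by
  obtain ⟨B, hB⟩ := (AlgebraicIndependent.matroid k0 (Kf p)).exists_isBasis (Set.range (gen p))
  have h1 : AlgebraicIndependent k0 ((↑) : B → Kf p) := hB.indep
  have hsec : ∀ b : B, ∃ i, gen p i = b := fun b => hB.subset b.2
  choose f hf using hsec
  have h2 : (fun b : B => gen p (f b)) = ((↑) : B → Kf p) := funext hf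
  have h3 := indep_of_defined p S hp f (by rw [h2]; exact h1)
  rw [h2] at h3
  have h4 : (AlgebraicIndependent.matroid ℂ (Kf p)).Indep B := h3
  rw [dm_eq_rk]
  unfold rk
  rw [← hB.encard_eq_eRk]
  exact h4.encard_le_eRk_of_subset hB.subset

end Functional

/-- Complex numbers `c` over which `p` is defined. -/
def DefinedOver {ι κ : Type} (p : Ideal (MvPolynomial ι ℂ)) (c : κ → ℂ) : Prop :=
  ∃ S : Set (MvPolynomial ι (IntermediateField.adjoin ℚ (Set.range c))),
    p = Ideal.span (MvPolynomial.map (algebraMap (IntermediateField.adjoin ℚ (Set.range c)) ℂ) '' S)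

open IntermediateField.algebraAdjoinAdjoin in
theorem rk_union_gen_le {ι κ : Type} [Fintype ι] (p : Ideal (MvPolynomial ι ℂ)) [p.IsPrime]
    (c : κ → ℂ) (hc : DefinedOver p c) :
    rk ℚ (algebraMap ℂ (Kf p) '' Set.range c ∪ Set.range (gen p)) ≤
      rk ℚ (Set.range c) + dm p := by
  obtain ⟨S, hS⟩ := hc
  refine (rk_union_le_of_algebraic (K := IntermediateField.adjoin ℚ (Set.range c)) _ ?_ _).trans ?_
  · intro z
    have h1 : IsAlgebraic (Algebra.adjoin ℚ (Set.range c)) z := Algebra.IsAlgebraic.isAlgebraic z
    have hle : ∀ x ∈ Algebra.adjoin ℚ (Set.range c), algebraMap ℂ (Kf p) x ∈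
        Algebra.adjoin ℚ (algebraMap ℂ (Kf p) '' Set.range c) := by
      intro x hx
      refine Algebra.adjoin_induction
        (p := fun x _ => algebraMap ℂ (Kf p) x ∈
          Algebra.adjoin ℚ (algebraMap ℂ (Kf p) '' Set.range c))
        (fun x hx => Algebra.subset_adjoin ⟨x, hx, rfl⟩)
        (fun r => ?_)
        (fun _ _ _ _ h h' => by rw [map_add]; exact add_mem h h')
        (fun _ _ _ _ h h' => by rw [map_mul]; exact mul_mem h h') hx
      rw [← IsScalarTower.algebraMap_apply]
      exact Subalgebra.algebraMap_mem _ r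
    let f : Algebra.adjoin ℚ (Set.range c) →+*
        Algebra.adjoin ℚ (algebraMap ℂ (Kf p) '' Set.range c) :=
      { toFun := fun x => ⟨algebraMap ℂ (Kf p) x.1, hle _ x.2⟩
        map_one' := Subtype.ext (by simp)
        map_mul' := fun _ _ => Subtype.ext (by simp)
        map_zero' := Subtype.ext (by simp)
        map_add' := fun _ _ => Subtype.ext (by simp) }
    refine h1.ringHom_of_comp_eq f
      (algebraMap (IntermediateField.adjoin ℚ (Set.range c)) (Kf p)) ?_ ?_
    · intro x y hxy
      apply Subtype.ext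
      have h6 : (f x : Kf p) = (f y : Kf p) := congrArg Subtype.val hxy
      exact (algebraMap ℂ (Kf p)).injective h6
    · rfl
  · refine add_le_add ?_ (rk_gen_le_of_defined p S hS)
    exact rk_image_le (IsScalarTower.toAlgHom ℚ ℂ (Kf p)) (Set.range c)

end Pool.Agent.CITLines
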