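import Pool.Agent.CITLines.DimFormula

set_option autoImplicit false

/-!
Generic points, and spreading out over the rational numbers.
-/

namespace Pool.Agent.CITLines

open MvPolynomial

section Generic

variable {ι : Type} {k : Type} [Field k] (p : Ideal (MvPolynomial ι k)) [hp : p.IsPrime]

/-- The function field. -/
abbrev Kf : Type := FractionRing (MvPolynomial ι k ⧸ p)

/-- The generic point. -/
noncomputable def gen (i : ι) : Kf p :=
  algebraMap (MvPolynomial ι k ⧸ p) (Kf p) (Ideal.Quotient.mkₐ k p (X i))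

omit hp in
theorem aeval_gen (F : MvPolynomial ι k) :
    aeval (gen p) F = algebraMap (MvPolynomial ι k ⧸ p) (Kf p) (Ideal.Quotient.mkₐ k p F) := by
  have : (aeval (gen p) : MvPolynomial ι k →ₐ[k] Kf p) =
      (IsScalarTower.toAlgHom k (MvPolynomial ι k ⧸ p) (Kf p)).comp
        (Ideal.Quotient.mkₐ k p) := by
    ext i
    simp [gen]
  rw [this]
  rfl

theorem kr_gen : kr k (gen p) = p := by
  ext F
  rw [mem_kr, aeval_gen, FaithfulSMul.algebraMap_eq_zero_iff]
  exact Ideal.Quotient.eq_zero_iff_mem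

theorem gen_ne_zero {i : ι} (h : X i ∉ p) : gen p i ≠ 0 := by
  intro h0
  apply h
  rw [← kr_gen p, mem_kr, aeval_X, h0]

theorem dm_eq_rk [Fintype ι] : (dm p : ℕ∞) = rk k (Set.range (gen p)) := by
  have h := dm_kr (k := k) (gen p)
  rw [← h]
  congr 2
  exact (kr_gen p).symm

end Generic

section Restrict

variable {k k' K : Type} [Field k] [Field k'] [Field K] [Algebra k k'] [Algebra k' K] [Algebra k K]
  [IsScalarTower k k' K]

theorem rk_restrict (s : Set K) : rk k' s ≤ rk k s := by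
  obtain ⟨B, hB⟩ := (AlgebraicIndependent.matroid k' K).exists_isBasis s
  unfold rk
  rw [← hB.encard_eq_eRk]
  have h1 : AlgebraicIndependent k' ((↑) : B → K) := hB.indep
  have h2 : AlgebraicIndependent k ((↑) : B → K) := by
    exact h1.restrictScalars (FaithfulSMul.algebraMap_injective k k')
  have h3 : (AlgebraicIndependent.matroid k K).Indep B := h2
  exact h3.encard_le_eRk_of_subset hB.subset

end Restrict

section Spread

variable {ι : Type} [Fintype ι]

/-- The rational polynomials in an ideal. -/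
noncomputable def IQ (p : Ideal (MvPolynomial ι ℂ)) : Ideal (MvPolynomial ι ℚ) :=
  p.comap (MvPolynomial.map (algebraMap ℚ ℂ))

theorem mem_IQ {p : Ideal (MvPolynomial ι ℂ)} {f : MvPolynomial ι ℚ} :
    f ∈ IQ p ↔ MvPolynomial.map (algebraMap ℚ ℂ) f ∈ p := Iff.rfl

instance (p : Ideal (MvPolynomial ι ℂ)) [p.IsPrime] : (IQ p).IsPrime := by
  unfold IQ
  infer_instance

theorem IQ_mono {p q : Ideal (MvPolynomial ι ℂ)} (h : p ≤ q) : IQ p ≤ IQ q := Ideal.comap_mono h

theorem IQ_eq_kr {K : Type} [Field K] [Algebra ℂ K] [Algebra ℚ K] [IsScalarTower ℚ ℂ K]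
    (w : ι → K) : IQ (kr ℂ w) = kr ℚ w := by
  ext f
  rw [mem_IQ, mem_kr, mem_kr, MvPolynomial.aeval_map_algebraMap]

theorem dm_le_dm_IQ (p : Ideal (MvPolynomial ι ℂ)) [p.IsPrime] : dm p ≤ dm (IQ p) := by
  have h1 := dm_eq_rk p
  have h2 : IQ p = kr ℚ (gen p) := by
    rw [← IQ_eq_kr, kr_gen]
  have h3 := dm_kr (k := ℚ) (gen p)
  have h4 := rk_restrict (k := ℚ) (k' := ℂ) (Set.range (gen p))
  have h5 : dm (IQ p) = dm (kr ℚ (gen p)) := by rw [h2]
  rw [← h1, ← h3, ← h5] at h4
  exact_mod_cast h4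

/-- Spreading out: a prime `q` contained in `p`, with the same rational polynomials, and of
dimension the dimension over the rational numbers. -/
theorem exists_spread (p : Ideal (MvPolynomial ι ℂ)) [p.IsPrime] :
    (∃ q : Ideal (MvPolynomial ι ℂ), q.IsPrime ∧ q ≤ p ∧ IQ q = IQ p ∧ dm (IQ p) ≤ dm q) ∧
    ∃ s : Finset (MvPolynomial ι ℚ), IQ p ∈ (Ideal.span (s : Set _)).minimalPrimes ∧
      dm (IQ p) + s.card = Fintype.card ι := by
  classical
  obtain ⟨s, hs, hcard⟩ := (IQ p).exists_finset_card_eq_height_of_isNoetherianRing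
  set J : Ideal (MvPolynomial ι ℂ) := (IQ p).map (MvPolynomial.map (algebraMap ℚ ℂ)) with hJ
  have hJp : J ≤ p := Ideal.map_comap_le
  obtain ⟨q, hq, hqp⟩ := Ideal.exists_minimalPrimes_le hJp
  have hqpr : q.IsPrime := hq.isPrime
  have hIq : IQ q = IQ p := by
    refine le_antisymm (IQ_mono hqp) ?_
    exact Ideal.map_le_iff_le_comap.mp hq.le
  have hqmin : q ∈ (Ideal.span ((s.image (MvPolynomial.map (algebraMap ℚ ℂ)) :
      Finset (MvPolynomial ι ℂ)) : Set (MvPolynomial ι ℂ))).minimalPrimes := by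
    rw [Finset.coe_image, ← Ideal.map_span]
    refine ⟨⟨hqpr, (Ideal.map_mono hs.le).trans hq.le⟩, ?_⟩
    rintro P ⟨hP, hsP⟩ hPq
    have h1 : IQ P ≤ IQ p := hIq ▸ IQ_mono hPq
    have h2 : Ideal.span (s : Set (MvPolynomial ι ℚ)) ≤ IQ P := Ideal.map_le_iff_le_comap.mp hsP
    have h3 : (IQ P).IsPrime := inferInstance
    have h4 : IQ p ≤ IQ P := hs.2 ⟨h3, h2⟩ h1
    have h5 : J ≤ P := Ideal.map_le_iff_le_comap.mpr h4
    exact hq.2 ⟨hP, h5⟩ hPq
  have h1 := card_le_dm_add_card _ hqmin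
  have h2 : (s.image (MvPolynomial.map (algebraMap ℚ ℂ))).card ≤ s.card := Finset.card_image_le
  have h3 := dm_add_height_le (IQ p) s.card hcard
  have h4 := dm_le_dm_IQ q
  rw [hIq] at h4
  refine ⟨⟨q, hqpr, hqp, hIq, by omega⟩, s, hs, by omega⟩

end Spread

end Pool.Agent.CITLines
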