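import Pool.Agent.CITTrans.SysDefs

set_option autoImplicit false

/-!
Definitions for the statement: Zilber's conjecture on intersections with tori (the frozen
statement `S18257`), maximal atypical subvarieties, powers of the line `x + y = 1`.
-/

namespace Pool.Agent.CITLines

open Pool.Agent.CITTrans

/-- `V` is a closed subset of the `n`-torus, irreducible. -/
def IsVariety {n : ℕ} (V : Set (Fin n → ℂ)) : Prop :=
  (∃ S : Set (MvPolynomial (Fin n) ℂ),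
    V = {x : Fin n → ℂ | (∀ i, x i ≠ 0) ∧ ∀ p ∈ S, MvPolynomial.eval x p = 0}) ∧
  (⨅ x ∈ V, RingHom.ker (MvPolynomial.eval x : MvPolynomial (Fin n) ℂ →+* ℂ)).IsPrime

/-- `T` is a coset of a subtorus of the `n`-torus by a torsion point. -/
def IsTorsionCoset {n : ℕ} (T : Set (Fin n → ℂ)) : Prop :=
  ∃ (M : Submodule ℤ (Fin n → ℤ)) (η : Fin n → ℂ),
    (∀ a : Fin n → ℤ, ∀ m : ℤ, m ≠ 0 → m • a ∈ M → a ∈ M) ∧
    (∃ m : ℕ, 0 < m ∧ ∀ i, η i ^ m = 1) ∧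
    T = {y : Fin n → ℂ | (∀ i, y i ≠ 0) ∧ ∀ a ∈ M, ∏ i, y i ^ a i = ∏ i, η i ^ a i}

/-- `X` is an atypical subvariety of `V`: an irreducible component of the intersection of `V` with
a torsion coset `T`, with `dim X > dim V + dim T - n`. -/
def IsAtypical {n : ℕ} (V X : Set (Fin n → ℂ)) : Prop :=
  ∃ T : Set (Fin n → ℂ), IsTorsionCoset T ∧ IsComponent (V ∩ T) X ∧
    ringKrullDim (MvPolynomial (Fin n) ℂ ⧸
        (⨅ x ∈ V, RingHom.ker (MvPolynomial.eval x : MvPolynomial (Fin n) ℂ →+* ℂ)))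
      + ringKrullDim (MvPolynomial (Fin n) ℂ ⧸
        (⨅ x ∈ T, RingHom.ker (MvPolynomial.eval x : MvPolynomial (Fin n) ℂ →+* ℂ)))
      < ringKrullDim (MvPolynomial (Fin n) ℂ ⧸
        (⨅ x ∈ X, RingHom.ker (MvPolynomial.eval x : MvPolynomial (Fin n) ℂ →+* ℂ)))
        + (n : WithBot ℕ∞)

/-- `X` is a maximal atypical subvariety of `V`. -/
def IsMaxAtypical {n : ℕ} (V X : Set (Fin n → ℂ)) : Prop :=
  IsAtypical V X ∧ ∀ Y, IsAtypical V Y → X ⊆ Y → Y = X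

/-- The `r`-th power of the line `x + y = 1` in the `2r`-torus. -/
def linePower (r : ℕ) : Set (Fin (r + r) → ℂ) :=
  {y | (∀ i, y i ≠ 0) ∧ ∀ j : Fin r, y (Fin.castAdd r j) + y (Fin.natAdd r j) = 1}

/-- Zilber's conjecture on intersections with tori, as in the frozen statement `S18257`. -/
def ZilberCIT : Prop :=
    ∀ (n : ℕ) (S : Set (MvPolynomial (Fin n) ℂ)) (V : Set (Fin n → ℂ)),
      V = {x : Fin n → ℂ | (∀ i, x i ≠ 0) ∧ ∀ p ∈ S, MvPolynomial.eval x p = 0} →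
      (⨅ x ∈ V, RingHom.ker (MvPolynomial.eval x : MvPolynomial (Fin n) ℂ →+* ℂ)).IsPrime →
      ∃ (k : ℕ) (L : Fin k → Submodule ℤ (Fin n → ℤ)) (ζ : Fin k → Fin n → ℂ),
        (∀ j, L j ≠ ⊥ ∧
          (∀ a : Fin n → ℤ, ∀ m : ℤ, m ≠ 0 → m • a ∈ L j → a ∈ L j) ∧
          ∃ m : ℕ, 0 < m ∧ ∀ i, ζ j i ^ m = 1) ∧
        ∀ (M : Submodule ℤ (Fin n → ℤ)) (η : Fin n → ℂ) (T : Set (Fin n → ℂ)),
          (∀ a : Fin n → ℤ, ∀ m : ℤ, m ≠ 0 → m • a ∈ M → a ∈ M) →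
          (∃ m : ℕ, 0 < m ∧ ∀ i, η i ^ m = 1) →
          T = {y : Fin n → ℂ | (∀ i, y i ≠ 0) ∧
                ∀ a ∈ M, ∏ i, y i ^ a i = ∏ i, η i ^ a i} →
          ∀ X : Set (Fin n → ℂ), X ⊆ V → X ⊆ T →
            (⨅ x ∈ X, RingHom.ker (MvPolynomial.eval x : MvPolynomial (Fin n) ℂ →+* ℂ)).IsPrime →
            ringKrullDim (MvPolynomial (Fin n) ℂ ⧸
                (⨅ x ∈ V, RingHom.ker (MvPolynomial.eval x : MvPolynomial (Fin n) ℂ →+* ℂ)))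
              + ringKrullDim (MvPolynomial (Fin n) ℂ ⧸
                (⨅ x ∈ T, RingHom.ker (MvPolynomial.eval x : MvPolynomial (Fin n) ℂ →+* ℂ)))
              < ringKrullDim (MvPolynomial (Fin n) ℂ ⧸
                (⨅ x ∈ X, RingHom.ker (MvPolynomial.eval x : MvPolynomial (Fin n) ℂ →+* ℂ)))
                + (n : WithBot ℕ∞) →
            ∃ j, X ⊆ {y : Fin n → ℂ | (∀ i, y i ≠ 0) ∧
                ∀ a ∈ L j, ∏ i, y i ^ a i = ∏ i, ζ j i ^ a i}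

end Pool.Agent.CITLines
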