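import Pool.Agent.CITLines.Ind
import Pool.Agent.CITTrans.Torus
import Pool.Agent.CITLines.Defs

set_option autoImplicit false

/-!
Zero sets in the torus, torsion cosets and their dimensions.
-/

namespace Pool.Agent.CITLines

open MvPolynomial Module Pool.Agent.CITTrans

section Dim

variable {ι : Type} [Fintype ι]

/-- The dimension of a quotient is bounded by those of the minimal primes. -/
theorem ringKrullDim_quotient_le (I : Ideal (MvPolynomial ι ℂ)) (d : ℕ)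
    (h : ∀ P ∈ I.minimalPrimes, dm P ≤ d) : ringKrullDim (MvPolynomial ι ℂ ⧸ I) ≤ d := by
  unfold ringKrullDim Order.krullDim
  refine iSup_le fun l => ?_
  let e1 := I.primeSpectrumQuotientOrderIsoZeroLocus
  have h0 : I ≤ (e1 l.head).1.asIdeal :=
    (PrimeSpectrum.mem_zeroLocus _ _).mp (e1 l.head).2
  have hp0 : (e1 l.head).1.asIdeal.IsPrime := (e1 l.head).1.isPrime
  obtain ⟨P, hP, hPle⟩ := Ideal.exists_minimalPrimes_le h0
  have hPp : P.IsPrime := hP.isPrime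
  let e2 := P.primeSpectrumQuotientOrderIsoZeroLocus
  have hmem : ∀ i, (e1 (l i)).1 ∈ PrimeSpectrum.zeroLocus (P : Set (MvPolynomial ι ℂ)) := by
    intro i
    rw [PrimeSpectrum.mem_zeroLocus]
    have h1 : l.head ≤ l i := LTSeries.head_le l i
    have h2 : e1 l.head ≤ e1 (l i) := e1.monotone h1
    have h3 : (e1 l.head).1 ≤ (e1 (l i)).1 := h2
    exact hPle.trans h3
  let l' : LTSeries (PrimeSpectrum (MvPolynomial ι ℂ ⧸ P)) := LTSeries.mk l.length
    (fun i => e2.symm ⟨(e1 (l i)).1, hmem i⟩) (by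
      intro i j hij
      apply e2.symm.strictMono
      have h6 : e1 (l i) < e1 (l j) := e1.strictMono (l.strictMono hij)
      exact h6)
  have h1 : ((l'.length : ℕ∞) : WithBot ℕ∞) ≤ Order.krullDim (PrimeSpectrum (MvPolynomial ι ℂ ⧸ P)) :=
    Order.LTSeries.length_le_krullDim l'
  have h2 : Order.krullDim (PrimeSpectrum (MvPolynomial ι ℂ ⧸ P)) = (dm P : WithBot ℕ∞) :=
    ringKrullDim_eq_dm P
  rw [h2] at h1
  have h3 : l.length ≤ dm P := by exact_mod_cast h1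
  have h4 : l.length ≤ d := h3.trans (h P hP)
  exact_mod_cast h4

end Dim

section Zero

variable {n : ℕ}

/-- The zero set in the torus. -/
def Zt (p : Ideal (MvPolynomial (Fin n) ℂ)) : Set (Fin n → ℂ) :=
  {y | (∀ i, y i ≠ 0) ∧ ∀ f ∈ p, MvPolynomial.eval y f = 0}

theorem Zt_anti {p q : Ideal (MvPolynomial (Fin n) ℂ)} (h : p ≤ q) : Zt q ⊆ Zt p :=
  fun _ hy => ⟨hy.1, fun f hf => hy.2 f (h hf)⟩

theorem vanI_anti {X Y : Set (Fin n → ℂ)} (h : X ⊆ Y) : vanI Y ≤ vanI X := by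
  intro f hf
  rw [mem_vanI] at *
  exact fun x hx => hf x (h hx)

/-- Nullstellensatz in the torus. -/
theorem vanI_Zt {p : Ideal (MvPolynomial (Fin n) ℂ)} (hp : TP p) : vanI (Zt p) = p := by
  have hpp := hp.prime
  refine le_antisymm ?_ ?_
  · intro f hf
    rw [mem_vanI] at hf
    have h1 : f * ∏ i, X i ∈ p.radical := by
      rw [← MvPolynomial.vanishingIdeal_zeroLocus_eq_radical (K := ℂ),
        MvPolynomial.mem_vanishingIdeal_iff]
      intro y hy
      by_cases h : ∀ i, y i ≠ 0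
      · have h2 : MvPolynomial.eval y f = 0 := hf y ⟨h, fun g hg => hy g hg⟩
        change MvPolynomial.eval y _ = 0
        rw [map_mul, h2, zero_mul]
      · push Not at h
        obtain ⟨i, hi⟩ := h
        change MvPolynomial.eval y _ = 0
        rw [map_mul, map_prod, Finset.prod_eq_zero (Finset.mem_univ i), mul_zero]
        rw [eval_X, hi]
    rw [hpp.radical] at h1
    rcases hpp.mem_or_mem h1 with h2 | h2
    · exact h2
    · obtain ⟨i, _, hi⟩ := hpp.prod_mem_iff.mp h2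
      exact absurd hi (hp.coord i)
  · intro f hf
    rw [mem_vanI]
    exact fun y hy => hy.2 f hf

theorem subset_Zt_vanI {X : Set (Fin n → ℂ)} (h0 : ∀ x ∈ X, ∀ i, x i ≠ 0) : X ⊆ Zt (vanI X) :=
  fun x hx => ⟨h0 x hx, fun _ hf => mem_vanI.mp hf x hx⟩

theorem TP_vanI {X : Set (Fin n → ℂ)} (h0 : ∀ x ∈ X, ∀ i, x i ≠ 0) (hX : (vanI X).IsPrime) :
    TP (vanI X) := by
  refine ⟨hX, fun i hi => ?_⟩
  have hne : X.Nonempty := by
    rw [Set.nonempty_iff_ne_empty]
    rintro rfl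
    apply hX.ne_top
    rw [Ideal.eq_top_iff_one, mem_vanI]
    intro x hx
    exact absurd hx (Set.notMem_empty x)
  obtain ⟨x, hx⟩ := hne
  have := mem_vanI.mp hi x hx
  rw [eval_X] at this
  exact h0 x hx i this

/-- Relatively closed subsets of the torus. -/
def Cl (Z : Set (Fin n → ℂ)) : Prop := (∀ x ∈ Z, ∀ i, x i ≠ 0) ∧ Zt (vanI Z) ⊆ Z

theorem Cl.Zt_vanI {Z : Set (Fin n → ℂ)} (h : Cl Z) : Zt (vanI Z) = Z :=
  le_antisymm h.2 (subset_Zt_vanI h.1)

theorem Cl_Zt (p : Ideal (MvPolynomial (Fin n) ℂ)) : Cl (Zt p) := by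
  refine ⟨fun x hx => hx.1, ?_⟩
  refine Zt_anti ?_
  intro f hf
  rw [mem_vanI]
  exact fun y hy => hy.2 f hf

theorem Cl.inter {Z W : Set (Fin n → ℂ)} (h : Cl Z) (h' : Cl W) : Cl (Z ∩ W) := by
  refine ⟨fun x hx => h.1 x hx.1, ?_⟩
  intro x hx
  exact ⟨h.2 (Zt_anti (vanI_anti Set.inter_subset_left) hx),
    h'.2 (Zt_anti (vanI_anti Set.inter_subset_right) hx)⟩

/-- Existence of components. -/
theorem exists_component {Z : Set (Fin n → ℂ)} (hZ : Cl Z) {q : Ideal (MvPolynomial (Fin n) ℂ)}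
    (hq : TP q) (h : Zt q ⊆ Z) : ∃ X, IsComponent Z X ∧ Zt q ⊆ X ∧ vanI X ≤ q := by
  have h1 : vanI Z ≤ q := by
    rw [← vanI_Zt hq]
    exact vanI_anti h
  have hqp := hq.prime
  obtain ⟨P, hP, hPq⟩ := Ideal.exists_minimalPrimes_le h1
  have hPT : TP P := hq.mono hP.isPrime hPq
  have hXZ : Zt P ⊆ Z := by
    rw [← hZ.Zt_vanI]
    exact Zt_anti hP.le
  refine ⟨Zt P, ⟨hXZ, ?_, ?_⟩, Zt_anti hPq, ?_⟩
  · change (vanI (Zt P)).IsPrime
    rw [vanI_Zt hPT]
    exact hPT.prime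
  · intro W hXW hWZ hW
    have h2 : vanI W ≤ P := by
      have := vanI_anti hXW
      rwa [vanI_Zt hPT] at this
    have h3 : P ≤ vanI W := hP.2 ⟨hW, vanI_anti hWZ⟩ h2
    refine le_antisymm ?_ hXW
    intro x hx
    exact ⟨hZ.1 x (hWZ hx), fun f hf => mem_vanI.mp (h3 hf) x hx⟩
  · rw [vanI_Zt hPT]
    exact hPq

/-- Components are closed. -/
theorem component_closed {Z X : Set (Fin n → ℂ)} (hZ : Cl Z) (hX : IsComponent Z X) :
    Zt (vanI X) = X ∧ TP (vanI X) := by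
  have h0 : ∀ x ∈ X, ∀ i, x i ≠ 0 := fun x hx => hZ.1 x (hX.1 hx)
  have hT : TP (vanI X) := TP_vanI h0 hX.2.1
  refine ⟨?_, hT⟩
  refine hX.2.2 _ (subset_Zt_vanI h0) ?_ ?_
  · exact (Zt_anti (vanI_anti hX.1)).trans hZ.2
  · change (vanI (Zt (vanI X))).IsPrime
    rw [vanI_Zt hT]
    exact hT.prime

end Zero

section Cosets

variable {n : ℕ}

theorem QQ_eq (M : Submodule ℤ (Fin n → ℤ)) : QQ M = QS M := rfl

/-- The coset with exponents `M` through `η`. -/
def cos (M : Submodule ℤ (Fin n → ℤ)) (η : Fin n → ℂ) : Set (Fin n → ℂ) :=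
  {y : Fin n → ℂ | (∀ i, y i ≠ 0) ∧ ∀ a ∈ M, ∏ i, y i ^ a i = ∏ i, η i ^ a i}

theorem tors_ne_zero {η : Fin n → ℂ} (hη : ∃ m : ℕ, 0 < m ∧ ∀ i, η i ^ m = 1) (i : Fin n) :
    η i ≠ 0 := by
  obtain ⟨m, hm, h⟩ := hη
  intro hi
  have := h i
  rw [hi, zero_pow hm.ne'] at this
  exact zero_ne_one this

theorem RU_mon {η : Fin n → ℂ} (hη : ∃ m : ℕ, 0 < m ∧ ∀ i, η i ^ m = 1) (a : Fin n → ℤ) :
    RU (mon η a) := by
  obtain ⟨m, hm, h⟩ := hη
  refine ⟨m, hm, ?_⟩
  unfold mon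
  rw [← Finset.prod_pow]
  refine Finset.prod_eq_one fun i _ => ?_
  rw [← zpow_natCast, ← zpow_mul, mul_comm, zpow_mul, zpow_natCast, h, one_zpow]

/-- Evaluation of binomials. -/
theorem eval_binom {y : Fin n → ℂ} (hy : ∀ i, y i ≠ 0) (a : Fin n → ℤ) (c : ℂ) :
    MvPolynomial.eval y (binom ℂ a c) = 0 ↔ mon y a = c := by
  have h := binom_mem_kr (k := ℂ) (K := ℂ) hy a c
  rw [mem_kr] at h
  exact h

theorem binom_mem_vanI {X : Set (Fin n → ℂ)} (h0 : ∀ x ∈ X, ∀ i, x i ≠ 0) (a : Fin n → ℤ)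
    (c : ℂ) : binom ℂ a c ∈ vanI X ↔ ∀ x ∈ X, mon x a = c := by
  rw [mem_vanI]
  exact forall₂_congr fun x hx => eval_binom (h0 x hx) a c

theorem Cl_cos (M : Submodule ℤ (Fin n → ℤ)) (η : Fin n → ℂ) : Cl (cos M η) := by
  refine ⟨fun x hx => hx.1, ?_⟩
  intro x hx
  refine ⟨hx.1, fun a ha => ?_⟩
  have h1 : binom ℂ a (mon η a) ∈ vanI (cos M η) := by
    rw [binom_mem_vanI (fun x hx => hx.1)]
    intro y hy
    exact hy.2 a ha
  exact (eval_binom hx.1 a _).mp (hx.2 _ h1)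

/-- Relations of a subvariety of a coset. -/
theorem QS_le_of_subset_cos {M : Submodule ℤ (Fin n → ℤ)} {η : Fin n → ℂ}
    (hη : ∃ m : ℕ, 0 < m ∧ ∀ i, η i ^ m = 1) {p : Ideal (MvPolynomial (Fin n) ℂ)} (hp : TP p)
    (h : vanI (cos M η) ≤ p) : QS M ≤ QP p := by
  unfold QS
  rw [Submodule.span_le]
  rintro _ ⟨a, ha, rfl⟩
  rw [SetLike.mem_coe, hp.cst_mem_QP]
  refine ⟨mon η a, RU_mon hη a, h ?_⟩
  rw [binom_mem_vanI (fun x hx => hx.1)]
  intro y hy
  exact hy.2 a ha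

/-- Dimension of a torsion coset. -/
theorem dim_cos (M : Submodule ℤ (Fin n → ℤ)) (η : Fin n → ℂ)
    (hη : ∃ m : ℕ, 0 < m ∧ ∀ i, η i ^ m = 1) :
    ∃ k : ℕ, k + finrank ℚ (QS M) = n ∧
      ringKrullDim (MvPolynomial (Fin n) ℂ ⧸ vanI (cos M η)) = k := by
  obtain ⟨k, hk, hle⟩ := torus_dim M η hη (cos M η) rfl
  rw [QQ_eq] at hk
  refine ⟨k, hk, le_antisymm ?_ hle⟩
  apply ringKrullDim_quotient_le
  intro P hP
  have hPp : P.IsPrime := hP.isPrime
  have hPT : TP P := by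
    refine ⟨hPp, fun i hi => ?_⟩
    -- minimal primes do not contain coordinates
    have h1 : ∀ f, f * X i ∈ vanI (cos M η) → f ∈ vanI (cos M η) := by
      intro f hf
      rw [mem_vanI] at *
      intro y hy
      have h2 := hf y hy
      rw [map_mul, eval_X] at h2
      exact (mul_eq_zero.mp h2).resolve_right (hy.1 i)
    -- use that elements of minimal primes are zero divisors modulo the ideal
    have h3 : Ideal.Quotient.mk (vanI (cos M η)) (X i) ∈
        P.map (Ideal.Quotient.mk (vanI (cos M η))) := Ideal.mem_map_of_mem _ hi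
    have h4 : P.map (Ideal.Quotient.mk (vanI (cos M η))) ∈
        minimalPrimes (MvPolynomial (Fin n) ℂ ⧸ vanI (cos M η)) := by
      have h5 : (P.map (Ideal.Quotient.mk (vanI (cos M η)))).comap
          (Ideal.Quotient.mk (vanI (cos M η))) = P := by
        rw [Ideal.comap_map_of_surjective _ Ideal.Quotient.mk_surjective]
        rw [← RingHom.ker_eq_comap_bot, Ideal.mk_ker]
        exact sup_eq_left.mpr hP.le
      refine ⟨⟨Ideal.isPrime_map_quotientMk_of_isPrime hP.le, bot_le⟩, ?_⟩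
      rintro Q ⟨hQ, _⟩ hQP
      have h6 : vanI (cos M η) ≤ Q.comap (Ideal.Quotient.mk (vanI (cos M η))) := by
        intro f hf
        rw [Ideal.mem_comap, Ideal.Quotient.eq_zero_iff_mem.mpr hf]
        exact Q.zero_mem
      have h7 := hP.2 ⟨hQ.comap _, h6⟩ (by
        rw [← h5]
        exact Ideal.comap_mono hQP)
      exact Ideal.map_le_iff_le_comap.mpr h7
    have h5 := Set.disjoint_left.mp (Ideal.disjoint_nonZeroDivisors_of_mem_minimalPrimes h4) h3
    apply h5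
    change _ ∈ nonZeroDivisors _
    rw [mem_nonZeroDivisors_iff_right]
    intro z hz
    obtain ⟨f, rfl⟩ := Ideal.Quotient.mk_surjective z
    rw [← map_mul] at hz
    exact Ideal.Quotient.eq_zero_iff_mem.mpr (h1 f (Ideal.Quotient.eq_zero_iff_mem.mp hz))
  have h1 := dm_add_rhoP_le hPT
  have h2 : finrank ℚ (QS M) ≤ rhoP P :=
    Submodule.finrank_mono (QS_le_of_subset_cos hη hPT hP.le)
  rw [Fintype.card_fin] at h1
  omega

end Cosets

end Pool.Agent.CITLines
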