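import Pool.Agent.CITTrans.Dim

set_option autoImplicit false

/-!
Dimension of prime ideals of polynomial rings over a field, as a natural number, and the rank
function of algebraic independence.
-/

namespace Pool.Agent.CITLines

open MvPolynomial

section Basic

variable {ι : Type} [Fintype ι] {k : Type} [Field k]

theorem exists_dm (p : Ideal (MvPolynomial ι k)) [p.IsPrime] :
    ∃ d : ℕ, ringKrullDim (MvPolynomial ι k ⧸ p) = d := by
  obtain ⟨s, hs, _⟩ := Pool.Agent.CITTrans.ringKrullDim_eq_trdeg k (MvPolynomial ι k ⧸ p)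
  exact ⟨s, hs⟩

/-- The dimension of the zero set of a prime ideal, as a natural number. -/
noncomputable def dm (p : Ideal (MvPolynomial ι k)) : ℕ :=
  ((ringKrullDim (MvPolynomial ι k ⧸ p)).unbotD 0).toNat

theorem ringKrullDim_eq_dm (p : Ideal (MvPolynomial ι k)) [p.IsPrime] :
    ringKrullDim (MvPolynomial ι k ⧸ p) = (dm p : WithBot ℕ∞) := by
  obtain ⟨d, hd⟩ := exists_dm p
  have : dm p = d := by
    unfold dm
    rw [hd]
    rfl
  rw [hd, this]

theorem dm_eq_of {p : Ideal (MvPolynomial ι k)} [p.IsPrime] {d : ℕ}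
    (h : ringKrullDim (MvPolynomial ι k ⧸ p) = d) : dm p = d := by
  rw [ringKrullDim_eq_dm] at h
  exact_mod_cast h

/-- Coordinates of a maximal algebraically independent set. -/
theorem exists_indep_finset (p : Ideal (MvPolynomial ι k)) [p.IsPrime] :
    ∃ I : Finset ι, dm p = I.card ∧
      AlgebraicIndependent k (fun i : I => Ideal.Quotient.mkₐ k p (X i.1)) := by
  classical
  let A := MvPolynomial ι k ⧸ p
  let y : ι → A := fun i => Ideal.Quotient.mkₐ k p (X i)
  have hadj : Algebra.adjoin k (Set.range y) = ⊤ := by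
    rw [Algebra.adjoin_range_eq_range_aeval]
    have : (aeval y : MvPolynomial ι k →ₐ[k] A) = Ideal.Quotient.mkₐ k p := by
      ext i
      rw [aeval_X]
    rw [this, AlgHom.range_eq_top]
    exact Ideal.Quotient.mkₐ_surjective k p
  have halg : Algebra.IsAlgebraic (Algebra.adjoin k (Set.range y)) A := by
    refine ⟨fun a => ?_⟩
    have ha : a ∈ Algebra.adjoin k (Set.range y) := by
      rw [hadj]
      exact Algebra.mem_top
    exact isAlgebraic_algebraMap (⟨a, ha⟩ : Algebra.adjoin k (Set.range y))
  obtain ⟨t, hts, htb⟩ := exists_isTranscendenceBasis_subset (R := k) (Set.range y)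
  have hsec : ∀ a : t, ∃ i, y i = a := fun a => hts a.2
  choose f hf using hsec
  have hfinj : Function.Injective f := by
    intro a b hab
    apply Subtype.ext
    rw [← hf a, ← hf b, hab]
  have hfin : Finite t := Finite.of_injective f hfinj
  have hft' : Fintype t := Fintype.ofFinite t
  refine ⟨Finset.univ.image f, ?_, ?_⟩
  · obtain ⟨s, hs, ht⟩ := Pool.Agent.CITTrans.ringKrullDim_eq_trdeg k A
    have h1 := htb.lift_cardinalMk_eq_trdeg
    rw [ht] at h1
    have h2 : Fintype.card t = s := by simpa using h1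
    rw [dm_eq_of hs, Finset.card_image_of_injective _ hfinj, Finset.card_univ, h2]
  · let e : t ≃ (Finset.univ.image f : Finset ι) :=
      Equiv.ofBijective (fun a => ⟨f a, Finset.mem_image_of_mem _ (Finset.mem_univ a)⟩) (by
        constructor
        · intro a b hab
          exact hfinj (congrArg Subtype.val hab)
        · rintro ⟨i, hi⟩
          obtain ⟨a, _, ha⟩ := Finset.mem_image.mp hi
          exact ⟨a, Subtype.ext ha⟩)
    rw [← algebraicIndependent_equiv e]
    have : (fun i : (Finset.univ.image f : Finset ι) =>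
        Ideal.Quotient.mkₐ k p (X i.1)) ∘ e = ((↑) : t → A) := by
      funext a
      exact hf a
    rw [this]
    exact htb.1

theorem card_le_dm (p : Ideal (MvPolynomial ι k)) [p.IsPrime] {κ : Type} [Fintype κ]
    (x : κ → MvPolynomial ι k ⧸ p) (hx : AlgebraicIndependent k x) : Fintype.card κ ≤ dm p := by
  have h := Pool.Agent.CITTrans.card_le_ringKrullDim k _ x hx
  rw [ringKrullDim_eq_dm] at h
  exact_mod_cast h

theorem dm_anti {p q : Ideal (MvPolynomial ι k)} [p.IsPrime] [q.IsPrime] (h : p ≤ q) :
    dm q ≤ dm p := by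
  have h1 := ringKrullDim_le_of_surjective (Ideal.Quotient.factor h)
    (Ideal.Quotient.factor_surjective h)
  rw [ringKrullDim_eq_dm, ringKrullDim_eq_dm] at h1
  exact_mod_cast h1

theorem dm_strictAnti {p q : Ideal (MvPolynomial ι k)} [p.IsPrime] [q.IsPrime] (h : p < q) :
    dm q < dm p := by
  have hne : ∃ f ∈ q, f ∉ p := by
    by_contra hcon
    push Not at hcon
    exact absurd (le_antisymm h.le hcon) h.ne
  obtain ⟨f, hfq, hfp⟩ := hne
  have h0 : Ideal.Quotient.mk p f ∈ nonZeroDivisors (MvPolynomial ι k ⧸ p) := by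
    rw [mem_nonZeroDivisors_iff_ne_zero]
    intro h0
    exact hfp (Ideal.Quotient.eq_zero_iff_mem.mp h0)
  have h1 := ringKrullDim_succ_le_of_surjective (Ideal.Quotient.factor h.le)
    (Ideal.Quotient.factor_surjective h.le) h0
    (by rw [Ideal.Quotient.factor_mk, Ideal.Quotient.eq_zero_iff_mem.mpr hfq])
  rw [ringKrullDim_eq_dm, ringKrullDim_eq_dm] at h1
  have h4 : ((dm q : WithBot ℕ∞)) + 1 ≤ dm p := h1
  have h5 : ((dm q + 1 : ℕ) : WithBot ℕ∞) ≤ (dm p : WithBot ℕ∞) := by
    push_cast
    exact h4
  have h6 : dm q + 1 ≤ dm p := by exact_mod_cast h5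
  omega

theorem dm_le_card (p : Ideal (MvPolynomial ι k)) [p.IsPrime] : dm p ≤ Fintype.card ι := by
  obtain ⟨I, hI, _⟩ := exists_indep_finset p
  rw [hI]
  exact Finset.card_le_univ I

end Basic

section Rank

variable {k K : Type} [Field k] [Field K] [Algebra k K]

/-- The transcendence degree of a set of elements of a field. -/
noncomputable def rk (k : Type) {K : Type} [Field k] [Field K] [Algebra k K] (s : Set K) : ℕ∞ :=
  (AlgebraicIndependent.matroid k K).eRk s

theorem rk_mono {s t : Set K} (h : s ⊆ t) : rk k s ≤ rk k t :=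
  Matroid.eRk_mono _ h

theorem rk_union (s t : Set K) : rk k (s ∪ t) ≤ rk k s + rk k t :=
  Matroid.eRk_union_le_eRk_add_eRk _ s t

theorem rk_le_encard (s : Set K) : rk k s ≤ s.encard := Matroid.eRk_le_encard _ s

theorem rk_le_of_algebraic {s t : Set K}
    (h : ∀ a ∈ t, IsAlgebraic (Algebra.adjoin k s) a) : rk k t ≤ rk k s := by
  unfold rk
  rw [← Matroid.eRk_closure_eq _ s]
  refine Matroid.eRk_mono _ ?_
  intro a ha
  rw [AlgebraicIndependent.matroid_closure_eq]
  exact h a ha

theorem rk_range_of_indep {κ : Type} [Fintype κ] (x : κ → K) (hx : AlgebraicIndependent k x) :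
    rk k (Set.range x) = Fintype.card κ := by
  have hinj : Function.Injective x := hx.injective
  have h1 : (AlgebraicIndependent.matroid k K).Indep (Set.range x) := by
    rw [AlgebraicIndependent.matroid_indep_iff]
    exact hx.coe_range
  unfold rk
  rw [h1.eRk_eq_encard, ← Set.image_univ, hinj.encard_image, Set.encard_univ]
  simp

/-- The kernel of evaluation at a tuple of elements of a field. -/
noncomputable abbrev kr {κ : Type} (k : Type) {K : Type} [Field k] [Field K] [Algebra k K]
    (w : κ → K) : Ideal (MvPolynomial κ k) :=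
  RingHom.ker (aeval w : MvPolynomial κ k →ₐ[k] K)

instance {κ : Type} (w : κ → K) : (kr k w).IsPrime := RingHom.ker_isPrime _

theorem mem_kr {κ : Type} {w : κ → K} {f : MvPolynomial κ k} : f ∈ kr k w ↔ aeval w f = 0 :=
  RingHom.mem_ker

/-- The dimension at a tuple is its transcendence degree. -/
theorem dm_kr {κ : Type} [Fintype κ] (w : κ → K) : (dm (kr k w) : ℕ∞) = rk k (Set.range w) := by
  classical
  let φ : (MvPolynomial κ k ⧸ kr k w) →ₐ[k] K :=
    Ideal.Quotient.liftₐ (kr k w) (aeval w) (fun a ha => ha)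
  have hφ : Function.Injective φ := by
    rw [injective_iff_map_eq_zero]
    intro a ha
    obtain ⟨b, rfl⟩ := Ideal.Quotient.mk_surjective a
    exact Ideal.Quotient.eq_zero_iff_mem.mpr ha
  have hφX : ∀ i, φ (Ideal.Quotient.mkₐ k (kr k w) (X i)) = w i := by
    intro i
    change (aeval w : MvPolynomial κ k →ₐ[k] K) (X i) = w i
    simp
  refine le_antisymm ?_ ?_
  · obtain ⟨I, hI, hind⟩ := exists_indep_finset (kr k w)
    have h1 := hind.map' (f := φ) hφ
    have h2 := rk_range_of_indep _ h1
    rw [hI, ← Fintype.card_coe, ← h2]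
    refine rk_mono ?_
    rintro _ ⟨i, rfl⟩
    exact ⟨i.1, (hφX i.1).symm⟩
  · obtain ⟨B, hB⟩ := (AlgebraicIndependent.matroid k K).exists_isBasis (Set.range w)
    unfold rk
    rw [← hB.encard_eq_eRk]
    have hBfin : B.Finite := (Set.finite_range w).subset hB.subset
    have hft : Fintype B := hBfin.fintype
    have hind : AlgebraicIndependent k ((↑) : B → K) := hB.indep
    have hsec : ∀ b : B, ∃ i, w i = b := fun b => hB.subset b.2
    choose f hf using hsec
    have h1 : AlgebraicIndependent k
        (fun b : B => Ideal.Quotient.mkₐ k (kr k w) (X (f b))) := by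
      refine AlgebraicIndependent.of_comp φ ?_
      have : (φ ∘ fun b : B => Ideal.Quotient.mkₐ k (kr k w) (X (f b))) = ((↑) : B → K) := by
        funext b
        rw [Function.comp_apply, hφX, hf]
      rw [this]
      exact hind
    have h2 := card_le_dm (kr k w) _ h1
    rw [Set.encard_eq_coe_toFinset_card, Set.toFinset_card]
    exact_mod_cast h2

end Rank

end Pool.Agent.CITLines
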