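import Pool.Agent.CITLines.Lift1

set_option autoImplicit false

/-!
Chains: cyclic sequences of signed monomials, and linearised systems.
-/

namespace Pool.Agent.CITLines

open MvPolynomial Module

/-- The three auxiliary coordinates of a link. -/
inductive Sel
  | a
  | b
  | c
deriving DecidableEq

instance : Fintype Sel := ⟨{Sel.a, Sel.b, Sel.c}, fun x => by cases x <;> simp⟩

section Chain

variable {ι J : Type} (len : J → ℕ)

/-- The links of the chains. -/
abbrev Lk : Type := (j : J) × Fin (len j + 3)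

variable {len}

/-- The next link. -/
def nx (l : Lk len) : Lk len := ⟨l.1, l.2 + 1⟩

theorem nx_fst (l : Lk len) : (nx l).1 = l.1 := rfl

theorem nx_ne (l : Lk len) : nx l ≠ l := by
  obtain ⟨j, x⟩ := l
  intro h
  unfold nx at h
  simp only [Sigma.mk.injEq, heq_eq_eq, true_and] at h
  rw [add_eq_left] at h
  have := congrArg Fin.val h
  simp at this

theorem nx_nx_ne (l : Lk len) : nx (nx l) ≠ l := by
  obtain ⟨j, x⟩ := l
  intro h
  unfold nx at h
  simp only [Sigma.mk.injEq, heq_eq_eq, true_and] at h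
  rw [add_assoc, add_eq_left] at h
  have := congrArg Fin.val h
  rw [Fin.val_add] at this
  simp only [Fin.val_one, Fin.val_zero] at this
  rw [Nat.mod_eq_of_lt (by omega)] at this
  omega

theorem nx_injective : Function.Injective (nx : Lk len → Lk len) := by
  rintro ⟨j, x⟩ ⟨j', x'⟩ h
  unfold nx at h
  simp only [Sigma.mk.injEq] at h
  obtain ⟨rfl, h⟩ := h
  rw [heq_eq_eq] at h
  rw [add_right_cancel h]

/-- Induction along a chain. -/
theorem chain_induction (P : Lk len → Prop) (j : J) (x0 : Fin (len j + 3)) (h0 : P ⟨j, x0⟩)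
    (h : ∀ l, P l → P (nx l)) (x : Fin (len j + 3)) : P ⟨j, x⟩ := by
  have key : ∀ y : Fin (len j + 3), P ⟨j, x0 + y⟩ := by
    intro y
    induction y using Fin.induction with
    | zero => simpa using h0
    | succ y ih =>
      have := h _ ih
      unfold nx at this
      rw [← Fin.coeSucc_eq_succ, ← add_assoc]
      exact this
  have h1 := key (x - x0)
  have h2 : x0 + (x - x0) = x := by abel
  rwa [h2] at h1

variable [Fintype ι] (sgn : Lk len → Bool) (ex : Lk len → ι → ℕ)

variable {A : Type} [CommRing A]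

/-- The signed monomial of a link. -/
def tm (w : ι → A) (l : Lk len) : A := (if sgn l then 1 else -1) * ∏ i, w i ^ ex l i

/-- The partial sums. -/
def Ps (w : ι → A) (l : Lk len) : A :=
  ∑ x ∈ Finset.univ.filter (· < l.2), tm sgn ex w ⟨l.1, x⟩

/-- The sum of a chain. -/
def Tot (w : ι → A) (j : J) : A := ∑ x : Fin (len j + 3), tm sgn ex w ⟨j, x⟩

theorem map_tm {B : Type} [CommRing B] (f : A →+* B) (w : ι → A) (l : Lk len) :
    f (tm sgn ex w l) = tm sgn ex (fun i => f (w i)) l := by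
  unfold tm
  rw [map_mul, map_prod]
  simp only [map_pow]
  congr 1
  split_ifs
  · exact map_one f
  · rw [map_neg, map_one]

theorem map_Ps {B : Type} [CommRing B] (f : A →+* B) (w : ι → A) (l : Lk len) :
    f (Ps sgn ex w l) = Ps sgn ex (fun i => f (w i)) l := by
  unfold Ps
  rw [map_sum]
  exact Finset.sum_congr rfl fun x _ => map_tm sgn ex f w _

theorem map_Tot {B : Type} [CommRing B] (f : A →+* B) (w : ι → A) (j : J) :
    f (Tot sgn ex w j) = Tot sgn ex (fun i => f (w i)) j := by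
  unfold Tot
  rw [map_sum]
  exact Finset.sum_congr rfl fun x _ => map_tm sgn ex f w _

theorem tm_ne_zero {K : Type} [Field K] {w : ι → K} (hw : ∀ i, w i ≠ 0) (l : Lk len) :
    tm sgn ex w l ≠ 0 := by
  unfold tm
  refine mul_ne_zero ?_ (Finset.prod_ne_zero_iff.mpr fun i _ => pow_ne_zero _ (hw i))
  split_ifs
  · exact one_ne_zero
  · exact neg_ne_zero.mpr one_ne_zero

theorem Ps_zero (w : ι → A) (j : J) : Ps sgn ex w ⟨j, 0⟩ = 0 := by
  unfold Ps
  rw [Finset.sum_eq_zero]
  intro x hx
  exact absurd (Finset.mem_filter.mp hx).2 (Fin.not_lt_zero x)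

theorem Ps_nx (w : ι → A) (l : Lk len) (h : Tot sgn ex w l.1 = 0) :
    Ps sgn ex w (nx l) = Ps sgn ex w l + tm sgn ex w l := by
  obtain ⟨j, x⟩ := l
  by_cases hx : x = Fin.last _
  · subst hx
    have h1 : nx (⟨j, Fin.last _⟩ : Lk len) = ⟨j, 0⟩ := by
      unfold nx
      simp
    rw [h1, Ps_zero, ← h]
    unfold Ps Tot
    rw [← Finset.sum_filter_add_sum_filter_not Finset.univ (· < Fin.last (len j + 2))]
    congr 1
    have h2 : Finset.univ.filter (fun x : Fin (len j + 3) => ¬ x < Fin.last (len j + 2)) =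
        {Fin.last (len j + 2)} := by
      ext y
      simp only [Finset.mem_filter, Finset.mem_univ, true_and, Finset.mem_singleton, not_lt]
      exact ⟨fun hy => le_antisymm (Fin.le_last y) hy, fun hy => hy ▸ le_rfl⟩
    rw [h2, Finset.sum_singleton]
  · unfold Ps nx
    have h2 : Finset.univ.filter (fun y : Fin (len j + 3) => y < x + 1) =
        insert x (Finset.univ.filter (fun y : Fin (len j + 3) => y < x)) := by
      ext y
      simp only [Finset.mem_filter, Finset.mem_univ, true_and, Finset.mem_insert]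
      have h3 : ((x + 1 : Fin (len j + 3)) : ℕ) = x + 1 := by
        rw [Fin.val_add_one, if_neg hx]
      rw [Fin.lt_def, Fin.lt_def, Fin.ext_iff, h3]
      omega
    simp only
    rw [h2, Finset.sum_insert (by simp), add_comm]

/-- The coordinates of the linearised system. -/
abbrev Co (ι : Type) (len : J → ℕ) : Type := ι ⊕ (Lk len ⊕ (Lk len × Sel))

/-- The first kind of auxiliary coordinate. -/
abbrev cT (l : Lk len) : Co ι len := Sum.inr (Sum.inl l)

/-- The second kind of auxiliary coordinate. -/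
abbrev cU (l : Lk len) (s : Sel) : Co ι len := Sum.inr (Sum.inr (l, s))

/-- The linearised system. -/
def Sat (w : Co ι len → A) : Prop :=
  ∀ l : Lk len, w (cU l Sel.b) = w (cU l Sel.a) + tm sgn ex (fun i => w (Sum.inl i)) l ∧
    w (cU l Sel.c) = w (cU l Sel.b) + w (cT (nx l)) ∧
    w (cU l Sel.c) = w (cU (nx l) Sel.a) + w (cT l)

theorem Sat.tot {w : Co ι len → A} (h : Sat sgn ex w) (j : J) :
    Tot sgn ex (fun i => w (Sum.inl i)) j = 0 := by
  have h1 : ∀ x : Fin (len j + 3), tm sgn ex (fun i => w (Sum.inl i)) ⟨j, x⟩ =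
      (w (cU ⟨j, x + 1⟩ Sel.a) - w (cU ⟨j, x⟩ Sel.a)) -
        (w (cT ⟨j, x + 1⟩) - w (cT ⟨j, x⟩)) := by
    intro x
    obtain ⟨h2, h3, h4⟩ := h ⟨j, x⟩
    rw [h3, h2] at h4
    have h5 : (nx ⟨j, x⟩ : Lk len) = ⟨j, x + 1⟩ := rfl
    rw [h5] at h4
    linear_combination h4
  unfold Tot
  rw [Finset.sum_congr rfl fun x _ => h1 x]
  rw [Finset.sum_sub_distrib, Finset.sum_sub_distrib, Finset.sum_sub_distrib]
  have h2 : ∀ g : Fin (len j + 3) → A, ∑ x, g (x + 1) = ∑ x, g x := fun g =>
    Equiv.sum_comp (Equiv.addRight (1 : Fin (len j + 3))) g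
  rw [h2 (fun x => w (cU ⟨j, x⟩ Sel.a)), h2 (fun x => w (cT ⟨j, x⟩))]
  ring

/-- All coordinates of a solution are polynomials in some of them. -/
theorem Sat.mem {w : Co ι len → A} (h : Sat sgn ex w) {k : Type} [CommRing k] [Algebra k A]
    (s : Subalgebra k A) (hx : ∀ i, w (Sum.inl i) ∈ s) (hT : ∀ l, w (cT l) ∈ s)
    (hu : ∀ j, w (cU ⟨j, 0⟩ Sel.a) ∈ s) (i : Co ι len) : w i ∈ s := by
  have htm : ∀ l, tm sgn ex (fun i => w (Sum.inl i)) l ∈ s := by
    intro l
    unfold tm
    refine s.mul_mem ?_ (s.prod_mem fun i _ => s.pow_mem (hx i) _)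
    split_ifs
    · exact s.one_mem
    · exact s.neg_mem s.one_mem
  have ha : ∀ l : Lk len, w (cU l Sel.a) ∈ s := by
    rintro ⟨j, x⟩
    refine chain_induction (fun l => w (cU l Sel.a) ∈ s) j 0 (hu j) ?_ x
    intro l hl
    obtain ⟨h2, h3, h4⟩ := h l
    have h5 : w (cU (nx l) Sel.a) = w (cU l Sel.a) + tm sgn ex (fun i => w (Sum.inl i)) l +
        w (cT (nx l)) - w (cT l) := by
      rw [← h2, ← h3, h4]
      ring
    rw [h5]
    exact s.sub_mem (s.add_mem (s.add_mem hl (htm l)) (hT _)) (hT _)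
  rcases i with i | l | ⟨l, _ | _ | _⟩
  · exact hx i
  · exact hT l
  · exact ha l
  · rw [(h l).1]
    exact s.add_mem (ha l) (htm l)
  · rw [(h l).2.1, (h l).1]
    exact s.add_mem (s.add_mem (ha l) (htm l)) (hT _)

end Chain

end Pool.Agent.CITLines
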