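import Pool.Agent.CITLines.Rank

set_option autoImplicit false

/-!
First lift: the coefficients `c j` enter through the coordinates `τ j` and `c j + τ j`.
-/

namespace Pool.Agent.CITLines

open MvPolynomial Module

section Extend

variable {ι1 ι2 σ : Type} [Fintype ι1] [Fintype ι2]

theorem mon_extend [DecidableEq ι2] {K : Type} [Field K] (w : ι2 → K) (e : ι1 → ι2)
    (he : Function.Injective e) (a : ι1 → ℤ) :
    mon w (Function.extend e a 0) = mon (fun i => w (e i)) a := by
  unfold mon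
  symm
  refine Fintype.prod_of_injective e he _ _ ?_ ?_
  · intro i hi
    rw [Function.extend_apply' _ _ _ (fun h => hi h)]
    simp
  · intro i
    rw [he.extend_apply]

theorem mon_map {K L : Type} [Field K] [Field L] (φ : K →+* L) (w : ι1 → K) (a : ι1 → ℤ) :
    mon (fun i => φ (w i)) a = φ (mon w a) := by
  unfold mon
  rw [map_prod]
  exact Finset.prod_congr rfl fun i _ => (map_zpow₀ φ _ _).symm

theorem cst_extend (e : ι1 → ι2) (he : Function.Injective e) (a : ι1 → ℤ) :
    cst (Function.extend e a 0) = Function.ExtendByZero.linearMap ℚ e (cst a) := by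
  funext i
  rw [cst_apply, Function.ExtendByZero.linearMap_apply]
  by_cases h : ∃ j, e j = i
  · obtain ⟨j, rfl⟩ := h
    rw [he.extend_apply, he.extend_apply, cst_apply]
  · rw [Function.extend_apply' _ _ _ h, Function.extend_apply' _ _ _ h]
    simp

/-- Embedded coordinates: the relations of `q` are relations of the lift. -/
theorem rhoP_le_rhoP_lift (W : ι2 → MvPolynomial σ (MvPolynomial ι1 ℂ))
    (e : ι1 → ι2) (he : Function.Injective e) (hW : ∀ i, W (e i) = C (X i))
    (q : Ideal (MvPolynomial ι1 ℂ)) (hq : TP q) (hq' : TP (lift W q)) :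
    rhoP q ≤ rhoP (lift W q) := by
  classical
  have := hq.prime
  have hwe : ∀ i, wl W q (e i) = algebraMap (MvPolynomial σ (Kf q)) (Kl σ q) (C (gen q i)) := by
    intro i
    unfold wl wp
    rw [hW, red_C, aeval_X]
  have hle : (QP q).map (Function.ExtendByZero.linearMap ℚ e) ≤ QP (lift W q) := by
    unfold QP
    rw [Submodule.map_span, Submodule.span_le]
    rintro _ ⟨_, ⟨a, ⟨m, hm, ha⟩, rfl⟩, rfl⟩
    rw [← cst_extend e he]
    refine Submodule.subset_span ⟨_, ⟨m, hm, ?_⟩, rfl⟩
    rw [hq.binom_mem, mon_smul, zpow_natCast] at ha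
    have hw : ∀ i, wl W q i ≠ 0 := by
      intro i h0
      apply hq'.coord i
      rw [lift_eq_kr, mem_kr, aeval_X, h0]
    rw [lift_eq_kr, binom_mem_kr hw, mon_smul, zpow_natCast, mon_extend _ e he]
    have h1 : mon (fun i => wl W q (e i)) a =
        algebraMap (MvPolynomial σ (Kf q)) (Kl σ q) (C (mon (gen q) a)) := by
      simp only [hwe]
      exact mon_map ((algebraMap (MvPolynomial σ (Kf q)) (Kl σ q)).comp C) (gen q) a
    rw [h1, ← map_pow, ← map_pow, ha]
    simp
  have hinj : Function.Injective (Function.ExtendByZero.linearMap ℚ e) := by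
    intro v v' h
    funext i
    have := congrFun h (e i)
    rwa [Function.ExtendByZero.linearMap_apply, Function.ExtendByZero.linearMap_apply,
      he.extend_apply, he.extend_apply] at this
  unfold rhoP
  rw [LinearEquiv.finrank_eq (Submodule.equivMapOfInjective _ hinj (QP q))]
  exact Submodule.finrank_mono hle

theorem free_of (W : ι2 → MvPolynomial σ (MvPolynomial ι1 ℂ))
    (e : ι1 → ι2) (he : Function.Injective e) (hW : ∀ i, W (e i) = C (X i))
    (q : Ideal (MvPolynomial ι1 ℂ)) [q.IsPrime] (hq : TP q) (hne : ∀ i, wl W q i ≠ 0)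
    (hfree : QP q = ⊥)
    (h : ∀ a ∈ relZ (wl W q), ∀ j, (∀ i, e i ≠ j) → a j = 0) : QP (lift W q) = ⊥ := by
  classical
  rw [lift_eq_kr, QP_kr hne, QS, Submodule.span_eq_bot]
  rintro _ ⟨a, ha, rfl⟩
  rw [cst_eq_zero]
  have h1 : a = Function.extend e (fun i => a (e i)) 0 := by
    funext j
    by_cases hj : ∃ i, e i = j
    · obtain ⟨i, rfl⟩ := hj
      rw [he.extend_apply]
    · rw [Function.extend_apply' _ _ _ hj]
      push Not at hj
      exact h a ha j hj
  have hwe : ∀ i, wl W q (e i) = algebraMap (MvPolynomial σ (Kf q)) (Kl σ q) (C (gen q i)) := by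
    intro i
    unfold wl wp
    rw [hW, red_C, aeval_X]
  have h2 : mon (wl W q) a = algebraMap (MvPolynomial σ (Kf q)) (Kl σ q)
      (C (mon (gen q) (fun i => a (e i)))) := by
    conv_lhs => rw [h1]
    rw [mon_extend _ e he]
    simp only [hwe]
    exact mon_map ((algebraMap (MvPolynomial σ (Kf q)) (Kl σ q)).comp C) (gen q) _
  have h3 : (fun i => a (e i)) ∈ relZ (gen q) := by
    obtain ⟨m, hm, h4⟩ := mem_relZ.mp ha
    refine ⟨m, hm, ?_⟩
    rw [h2, ← map_pow, ← map_pow] at h4
    have h5 : Function.Injective ((algebraMap (MvPolynomial σ (Kf q)) (Kl σ q)).comp C) :=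
      RingHom.injective _
    apply h5
    rw [map_one]
    exact h4
  have h4 : cst (fun i => a (e i)) ∈ QP q := by
    rw [hq.QP_eq]
    exact cst_mem_QS h3
  rw [hfree, Submodule.mem_bot, cst_eq_zero] at h4
  rw [h1, h4]
  funext j
  by_cases hj : ∃ i, e i = j
  · obtain ⟨i, rfl⟩ := hj
    rw [he.extend_apply]
    rfl
  · rw [Function.extend_apply' _ _ _ hj]

end Extend

section NonZero

variable {σ K : Type} [Field K]

/-- `X s + f` is nonzero when `f` does not involve `X s`. -/
theorem X_add_ne_zero [DecidableEq σ] (s : σ) (f : MvPolynomial σ K)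
    (hf : aeval (fun s' => if s' = s then X s + 1 else X s' : σ → MvPolynomial σ K) f = f) :
    X s + f ≠ 0 := by
  intro h
  have h1 := congrArg
    (aeval (fun s' => if s' = s then X s + 1 else X s' : σ → MvPolynomial σ K)) h
  rw [map_add, aeval_X, hf, if_pos rfl, map_zero] at h1
  have h2 : (X s + f : MvPolynomial σ K) + 1 = 0 := by
    rw [← h1]
    ring
  rw [h, zero_add] at h2
  exact one_ne_zero h2

theorem algebraicIndependent_X_fraction :
    AlgebraicIndependent K
      (fun s : σ => algebraMap (MvPolynomial σ K) (FractionRing (MvPolynomial σ K)) (X s)) := by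
  have h := (MvPolynomial.algebraicIndependent_X σ K).map'
    (f := IsScalarTower.toAlgHom K (MvPolynomial σ K) (FractionRing (MvPolynomial σ K)))
    (FaithfulSMul.algebraMap_injective _ _)
  exact h

end NonZero

section L1

variable {ι κ : Type} (c : κ → ℂ)

/-- The first lift. -/
noncomputable def W1 : ι ⊕ (κ ⊕ κ) → MvPolynomial κ (MvPolynomial ι ℂ)
  | Sum.inl i => C (X i)
  | Sum.inr (Sum.inl j) => X j
  | Sum.inr (Sum.inr j) => X j + C (C (c j))

variable (q : Ideal (MvPolynomial ι ℂ)) [q.IsPrime]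

theorem wp_W1_x (i : ι) : wp (W1 c) q (Sum.inl i) = C (gen q i) := by
  unfold wp W1
  rw [red_C, aeval_X]

theorem wp_W1_t (j : κ) : wp (W1 c) q (Sum.inr (Sum.inl j)) = X j := by
  unfold wp W1
  exact red_X q j

theorem wp_W1_z (j : κ) :
    wp (W1 c) q (Sum.inr (Sum.inr j)) = X j + C (algebraMap ℂ (Kf q) (c j)) := by
  unfold wp W1
  rw [map_add, red_X, red_C, aeval_C]

theorem X_add_C_ne_zero {σ K : Type} [Field K] (s : σ) (x : K) :
    (X s + C x : MvPolynomial σ K) ≠ 0 := by
  classical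
  apply X_add_ne_zero
  simp

theorem wp_W1_ne_zero (hq : TP q) (i : ι ⊕ (κ ⊕ κ)) :
    wp (W1 c) q i ≠ 0 := by
  rcases i with i | j | j
  · rw [wp_W1_x]
    exact (map_ne_zero_iff C (C_injective _ _)).mpr (gen_ne_zero q (hq.coord i))
  · rw [wp_W1_t]
    exact X_ne_zero j
  · rw [wp_W1_z]
    exact X_add_C_ne_zero _ _

theorem TP_lift1 (hq : TP q) : TP (lift (W1 c) q) := by
  rw [lift_eq_kr]
  exact TP.kr fun i => wl_ne_zero _ _ (wp_W1_ne_zero c q hq i)

theorem free_lift1 [Fintype ι] [Fintype κ] (hc : ∀ j, c j ≠ 0) (hq : TP q) (hfree : QP q = ⊥) :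
    QP (lift (W1 c) q) = ⊥ := by
  classical
  have hne := wp_W1_ne_zero c q hq
  refine free_of (W1 c) Sum.inl Sum.inl_injective (fun i => rfl) q hq
    (fun i => wl_ne_zero _ _ (hne i)) hfree ?_
  rintro a ha (i | j | j) hj
  · exact absurd rfl (hj i)
  · -- kill `τ j`
    let θ : MvPolynomial κ (Kf q) →ₐ[Kf q] MvPolynomial κ (Kf q) :=
      aeval (fun j' => if j' = j then 0 else X j')
    refine exponent_eq_zero (W1 c) q hne θ.toRingHom (Sum.inr (Sum.inl j)) ?_ ?_ a ha
    · rw [wp_W1_t]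
      simp [θ]
    · rintro (i' | j' | j') hj'
      · rw [wp_W1_x]
        have : θ (C (gen q i')) = C (gen q i') := by simp [θ]
        change θ (C (gen q i')) ≠ 0
        rw [this]
        exact (map_ne_zero_iff C (C_injective _ _)).mpr (gen_ne_zero q (hq.coord i'))
      · rw [wp_W1_t]
        have h1 : j' ≠ j := fun h => hj' (by rw [h])
        have : θ (X j') = X j' := by simp [θ, h1]
        change θ (X j') ≠ 0
        rw [this]
        exact X_ne_zero j'
      · rw [wp_W1_z]
        change θ (X j' + C _) ≠ 0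
        by_cases h1 : j' = j
        · have : θ (X j' + C (algebraMap ℂ (Kf q) (c j'))) = C (algebraMap ℂ (Kf q) (c j')) := by
            simp [θ, h1]
          rw [this]
          exact (map_ne_zero_iff C (C_injective _ _)).mpr
            ((map_ne_zero_iff _ (algebraMap ℂ (Kf q)).injective).mpr (hc j'))
        · have : θ (X j' + C (algebraMap ℂ (Kf q) (c j'))) =
              X j' + C (algebraMap ℂ (Kf q) (c j')) := by
            simp [θ, h1]
          rw [this]
          exact X_add_C_ne_zero _ _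
  · -- kill `c j + τ j`
    let θ : MvPolynomial κ (Kf q) →ₐ[Kf q] MvPolynomial κ (Kf q) :=
      aeval (fun j' => if j' = j then C (-algebraMap ℂ (Kf q) (c j)) else X j')
    refine exponent_eq_zero (W1 c) q hne θ.toRingHom (Sum.inr (Sum.inr j)) ?_ ?_ a ha
    · rw [wp_W1_z]
      change θ (X j + C _) = 0
      simp [θ]
    · rintro (i' | j' | j') hj'
      · rw [wp_W1_x]
        have : θ (C (gen q i')) = C (gen q i') := by simp [θ]
        change θ (C (gen q i')) ≠ 0
        rw [this]
        exact (map_ne_zero_iff C (C_injective _ _)).mpr (gen_ne_zero q (hq.coord i'))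
      · rw [wp_W1_t]
        change θ (X j') ≠ 0
        by_cases h1 : j' = j
        · have : θ (X j') = C (-algebraMap ℂ (Kf q) (c j)) := by simp [θ, h1]
          rw [this]
          exact (map_ne_zero_iff C (C_injective _ _)).mpr
            (neg_ne_zero.mpr ((map_ne_zero_iff _ (algebraMap ℂ (Kf q)).injective).mpr (hc j)))
        · have : θ (X j') = X j' := by simp [θ, h1]
          rw [this]
          exact X_ne_zero j'
      · rw [wp_W1_z]
        change θ (X j' + C _) ≠ 0
        have h1 : j' ≠ j := fun h => hj' (by rw [h])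
        have : θ (X j' + C (algebraMap ℂ (Kf q) (c j'))) =
            X j' + C (algebraMap ℂ (Kf q) (c j')) := by
          simp [θ, h1]
        rw [this]
        exact X_add_C_ne_zero _ _

theorem wl_W1_x (i : ι) : wl (W1 c) q (Sum.inl i) =
    algebraMap (Kf q) (Kl κ q) (gen q i) := by
  unfold wl
  rw [wp_W1_x, IsScalarTower.algebraMap_apply (Kf q) (MvPolynomial κ (Kf q)) (Kl κ q)]
  rfl

theorem wl_W1_t (j : κ) : wl (W1 c) q (Sum.inr (Sum.inl j)) =
    algebraMap (MvPolynomial κ (Kf q)) (Kl κ q) (X j) := by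
  unfold wl
  rw [wp_W1_t]

theorem wl_W1_z (j : κ) : wl (W1 c) q (Sum.inr (Sum.inr j)) =
    algebraMap (MvPolynomial κ (Kf q)) (Kl κ q) (X j) +
      algebraMap (Kf q) (Kl κ q) (algebraMap ℂ (Kf q) (c j)) := by
  unfold wl
  rw [wp_W1_z, map_add, IsScalarTower.algebraMap_apply (Kf q) (MvPolynomial κ (Kf q)) (Kl κ q)]
  rfl

/-- Sum of the ranks: coefficients and generic point, lower bound. -/
theorem rk_coef_gen_ge {ι κ : Type} (c : κ → ℂ) (q : Ideal (MvPolynomial ι ℂ)) [q.IsPrime]
    [Fintype ι] [Finite κ] :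
    rk ℚ (Set.range c) + dm q ≤
      rk ℚ (algebraMap ℂ (Kf q) '' Set.range c ∪ Set.range (gen q)) := by
  obtain ⟨B, hB⟩ := (AlgebraicIndependent.matroid ℂ (Kf q)).exists_isBasis (Set.range (gen q))
  have hBfin : B.Finite := (Set.finite_range (gen q)).subset hB.subset
  have hft : Fintype B := hBfin.fintype
  have h1 : AlgebraicIndependent ℂ ((↑) : B → Kf q) := hB.indep
  have h2 := rk_union_ge (k := ℚ) (K := ℂ) (L := Kf q) (Set.range c) (Set.finite_range c) _ h1
  have h3 : (dm q : ℕ∞) = Fintype.card B := by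
    rw [dm_eq_rk]
    unfold rk
    rw [← hB.encard_eq_eRk, Set.encard_eq_coe_toFinset_card, Set.toFinset_card]
  rw [h3]
  refine h2.trans (rk_mono (Set.union_subset_union_right _ ?_))
  rintro _ ⟨b, rfl⟩
  exact hB.subset b.2

/-- Dimension over `ℚ` of the first lift, lower bound. -/
theorem lower1 [Fintype ι] [Fintype κ] :
    rk ℚ (Set.range c) + dm q + Fintype.card κ ≤ dm (IQ (lift (W1 c) q)) := by
  have h0 : (dm (IQ (lift (W1 c) q)) : ℕ∞) = rk ℚ (Set.range (wl (W1 c) q)) := by
    rw [← dm_kr, ← IQ_eq_kr, ← lift_eq_kr]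
  rw [h0]
  refine (add_le_add (rk_coef_gen_ge c q) le_rfl).trans ?_
  refine (rk_union_ge (k := ℚ) (K := Kf q) (L := Kl κ q) _
    (((Set.finite_range c).image _).union (Set.finite_range _)) _
    (algebraicIndependent_X_fraction (σ := κ) (K := Kf q))).trans ?_
  refine rk_le_of_algebraic ?_
  have hmem : ∀ i, wl (W1 c) q i ∈ Algebra.adjoin ℚ (Set.range (wl (W1 c) q)) :=
    fun i => Algebra.subset_adjoin ⟨i, rfl⟩
  have key : ∀ a ∈ Algebra.adjoin ℚ (Set.range (wl (W1 c) q)),
      IsAlgebraic (Algebra.adjoin ℚ (Set.range (wl (W1 c) q))) a := fun a ha =>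
    isAlgebraic_algebraMap (⟨a, ha⟩ : Algebra.adjoin ℚ (Set.range (wl (W1 c) q)))
  rintro a (⟨_, ⟨_, ⟨j, rfl⟩, rfl⟩ | ⟨i, rfl⟩, rfl⟩ | ⟨j, rfl⟩)
  · apply key
    have h1 := sub_mem (hmem (Sum.inr (Sum.inr j))) (hmem (Sum.inr (Sum.inl j)))
    rwa [wl_W1_z, wl_W1_t, add_sub_cancel_left] at h1
  · apply key
    rw [← wl_W1_x]
    exact hmem _
  · apply key
    have h1 := hmem (Sum.inr (Sum.inl j))
    rwa [wl_W1_t] at h1

/-- Dimension over `ℚ` of the first lift, upper bound. -/
theorem upper1 [Fintype ι] [Fintype κ] (hdef : DefinedOver q c) :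
    (dm (IQ (lift (W1 c) q)) : ℕ∞) ≤ rk ℚ (Set.range c) + dm q + Fintype.card κ := by
  have h0 : (dm (IQ (lift (W1 c) q)) : ℕ∞) = rk ℚ (Set.range (wl (W1 c) q)) := by
    rw [← dm_kr, ← IQ_eq_kr, ← lift_eq_kr]
  rw [h0]
  set S : Set (Kf q) := algebraMap ℂ (Kf q) '' Set.range c ∪ Set.range (gen q) with hS
  set T : Set (Kl κ q) := Set.range
    (fun s : κ => algebraMap (MvPolynomial κ (Kf q)) (Kl κ q) (X s)) with hT
  have h1 : rk ℚ (Set.range (wl (W1 c) q)) ≤ rk ℚ (algebraMap (Kf q) (Kl κ q) '' S ∪ T) := by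
    refine rk_le_of_algebraic ?_
    have key : ∀ a ∈ Algebra.adjoin ℚ (algebraMap (Kf q) (Kl κ q) '' S ∪ T),
        IsAlgebraic (Algebra.adjoin ℚ (algebraMap (Kf q) (Kl κ q) '' S ∪ T)) a := fun a ha =>
      isAlgebraic_algebraMap (⟨a, ha⟩ : Algebra.adjoin ℚ (algebraMap (Kf q) (Kl κ q) '' S ∪ T))
    rintro _ ⟨i | j | j, rfl⟩
    · apply key
      rw [wl_W1_x]
      exact Algebra.subset_adjoin (Or.inl ⟨_, Or.inr ⟨i, rfl⟩, rfl⟩)
    · apply key
      rw [wl_W1_t]
      exact Algebra.subset_adjoin (Or.inr ⟨j, rfl⟩)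
    · apply key
      rw [wl_W1_z]
      exact add_mem (Algebra.subset_adjoin (Or.inr ⟨j, rfl⟩))
        (Algebra.subset_adjoin (Or.inl ⟨_, Or.inl ⟨_, ⟨j, rfl⟩, rfl⟩, rfl⟩))
  refine h1.trans ((rk_union _ _).trans (add_le_add ?_ ?_))
  · refine (rk_image_le (IsScalarTower.toAlgHom ℚ (Kf q) (Kl κ q)) S).trans ?_
    exact rk_union_gen_le q c hdef
  · refine (rk_le_encard _).trans ?_
    rw [hT, ← Set.image_univ]
    refine (Set.encard_image_le _ _).trans ?_
    rw [Set.encard_univ]
    simp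

end L1

/-- Every ideal is defined over finitely many nonzero complex numbers. -/
theorem exists_definedOver {ι : Type} [Finite ι] (p : Ideal (MvPolynomial ι ℂ)) :
    ∃ S : Finset ℂ, (∀ z ∈ S, z ≠ 0) ∧ DefinedOver p (fun j : S => (j : ℂ)) := by
  classical
  obtain ⟨G, hG⟩ : p.FG := IsNoetherian.noetherian p
  refine ⟨G.biUnion fun f => f.coeffs, ?_, ?_⟩
  · intro z hz
    obtain ⟨f, _, hf⟩ := Finset.mem_biUnion.mp hz
    obtain ⟨m, hm, rfl⟩ := mem_coeffs_iff.mp hf
    exact mem_support_iff.mp hm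
  · refine ⟨MvPolynomial.map (algebraMap (IntermediateField.adjoin ℚ (Set.range
      (fun j : (G.biUnion fun f => f.coeffs : Finset ℂ) => (j : ℂ)))) ℂ) ⁻¹' G, ?_⟩
    rw [Set.image_preimage_eq_inter_range, Set.inter_eq_left.mpr, hG]
    intro f hf
    rw [mem_range_map_iff_coeffs_subset]
    intro z hz
    have hz' : z ∈ (G.biUnion fun f => f.coeffs : Finset ℂ) := Finset.mem_biUnion.mpr ⟨f, hf, hz⟩
    exact ⟨⟨z, IntermediateField.subset_adjoin ℚ _ ⟨⟨z, hz'⟩, rfl⟩⟩, rfl⟩

end Pool.Agent.CITLines
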