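import Pool.Agent.CITLines.Push
import Pool.Agent.CITLines.Lift1

set_option autoImplicit false

/-!
Coordinates on the smallest torsion coset containing a variety.
-/

namespace Pool.Agent.CITLines

open MvPolynomial Module

section Lin

variable {ι : Type} [Fintype ι]

theorem extend_eq_sum [DecidableEq ι] {k : ℕ} (e : Fin k → ι) (he : Function.Injective e)
    (v : Fin k → ℚ) : Function.extend e v 0 = ∑ j, v j • (Pi.single (e j) 1 : ι → ℚ) := by
  funext i
  rw [Finset.sum_apply]
  by_cases h : ∃ j, e j = i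
  · obtain ⟨j, rfl⟩ := h
    rw [he.extend_apply, Finset.sum_eq_single j]
    · simp
    · intro j' _ hj'
      rw [Pi.smul_apply, Pi.single_eq_of_ne (fun h => hj' (he h).symm), smul_zero]
    · intro h
      exact absurd (Finset.mem_univ j) h
  · rw [Function.extend_apply' _ _ _ h, Finset.sum_eq_zero]
    · rfl
    · intro j _
      rw [Pi.smul_apply, Pi.single_eq_of_ne (fun h' => h ⟨j, h'.symm⟩), smul_zero]

theorem exists_coords (U : Submodule ℚ (ι → ℚ)) :
    ∃ (k : ℕ) (e : Fin k → ι), Function.Injective e ∧ k + finrank ℚ U = Fintype.card ι ∧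
      (∀ v : Fin k → ℚ, Function.extend e v 0 ∈ U → v = 0) ∧
      ∀ v : ι → ℚ, ∃ c : Fin k → ℚ, v - Function.extend e c 0 ∈ U := by
  classical
  let b : ι → (ι → ℚ) ⧸ U := fun i => U.mkQ (Pi.single i 1)
  obtain ⟨κ, a, ha, hsp, hli⟩ := exists_linearIndependent' (K := ℚ) b
  have hfin : Finite κ := Finite.of_injective a ha
  have hft : Fintype κ := Fintype.ofFinite κ
  let E : Fin (Fintype.card κ) ≃ κ := (Fintype.equivFin κ).symm
  have hspb : Submodule.span ℚ (Set.range b) = ⊤ := by
    rw [eq_top_iff]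
    rintro x -
    obtain ⟨v, rfl⟩ := U.mkQ_surjective x
    have h1 : v = ∑ i, v i • (Pi.single i 1 : ι → ℚ) := by
      funext i
      simp [Finset.sum_apply, Pi.single_apply]
    rw [h1, map_sum]
    refine Submodule.sum_mem _ fun i _ => ?_
    rw [map_smul]
    exact Submodule.smul_mem _ _ (Submodule.subset_span ⟨i, rfl⟩)
  have hspe : Submodule.span ℚ (Set.range (fun j => b (a (E j)))) = ⊤ := by
    rw [← hspb, ← hsp]
    congr 1
    ext x
    constructor
    · rintro ⟨j, rfl⟩
      exact ⟨E j, rfl⟩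
    · rintro ⟨j, rfl⟩
      exact ⟨E.symm j, by simp⟩
  have hlie : LinearIndependent ℚ (fun j => b (a (E j))) := hli.comp E E.injective
  have hinj : Function.Injective (fun j => a (E j)) := ha.comp E.injective
  refine ⟨Fintype.card κ, fun j => a (E j), hinj, ?_, ?_, ?_⟩
  · have h1 : finrank ℚ ((ι → ℚ) ⧸ U) = Fintype.card κ := by
      have := finrank_eq_card_basis (Basis.mk hlie hspe.ge)
      rwa [Fintype.card_fin] at this
    have h2 := U.finrank_quotient_add_finrank
    rw [h1, Module.finrank_fintype_fun_eq_card] at h2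
    exact h2
  · intro v hv
    rw [extend_eq_sum _ hinj, ← Submodule.ker_mkQ U, LinearMap.mem_ker, map_sum] at hv
    simp only [map_smul] at hv
    have := Fintype.linearIndependent_iff.mp hlie v hv
    funext j
    exact this j
  · intro v
    have h1 : U.mkQ v ∈ Submodule.span ℚ (Set.range (fun j => b (a (E j)))) := by
      rw [hspe]
      exact Submodule.mem_top
    obtain ⟨c, hc⟩ := (Submodule.mem_span_range_iff_exists_fun ℚ).mp h1
    refine ⟨c, ?_⟩
    rw [extend_eq_sum _ hinj, ← Submodule.ker_mkQ U, LinearMap.mem_ker, map_sub, map_sum,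
      sub_eq_zero]
    simp only [map_smul]
    exact hc.symm

end Lin

section Comap

variable {ι : Type} [Fintype ι] {K : Type} [Field K] [Algebra ℂ K] {w : ι → K}

/-- The remaining coordinates are algebraic over the chosen ones. -/
theorem rk_coords_eq (hw : ∀ i, w i ≠ 0) {k : ℕ} (e : Fin k → ι) (he : Function.Injective e)
    (U : Submodule ℚ (ι → ℚ)) (hU : U ≤ QS (relZ w))
    (h : ∀ v : ι → ℚ, ∃ c : Fin k → ℚ, v - Function.extend e c 0 ∈ U) :
    rk ℂ (Set.range w) = rk ℂ (Set.range (fun j => w (e j))) := by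
  classical
  refine le_antisymm ?_ (rk_mono (Set.range_comp_subset_range e w))
  refine rk_le_of_algebraic ?_
  rintro _ ⟨i, rfl⟩
  obtain ⟨c, hc⟩ := h (Pi.single i 1)
  obtain ⟨m, hm, a, ha, hma⟩ := exists_mult_mem (hU hc)
  obtain ⟨m', hm', c', hc'⟩ := exists_clear c
  -- the exponent vector `m' a = m m' e_i - m c'`
  have h1 : m' • a = (m * m') • Pi.single i 1 - m • Function.extend e c' 0 := by
    funext i'
    have h2 := hma i'
    have h3 : ((m' • a) i' : ℚ) =
        (((m * m') • Pi.single i 1 - m • Function.extend e c' 0 : ι → ℤ) i' : ℚ) := by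
      rw [Pi.smul_apply, smul_eq_mul, Int.cast_mul, h2]
      rw [Pi.sub_apply, Pi.sub_apply, Pi.smul_apply, Pi.smul_apply, smul_eq_mul, smul_eq_mul]
      by_cases hi' : ∃ j, e j = i'
      · obtain ⟨j, rfl⟩ := hi'
        rw [he.extend_apply, he.extend_apply]
        push_cast
        rw [hc']
        by_cases hij : e j = i
        · subst hij
          simp
          ring
        · simp [Pi.single_eq_of_ne hij]
          ring
      · rw [Function.extend_apply' _ _ _ hi', Function.extend_apply' _ _ _ hi']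
        push_cast
        by_cases hij : i' = i
        · subst hij
          simp
          ring
        · simp [Pi.single_eq_of_ne hij]
    exact_mod_cast h3
  have h2 : m' • a ∈ relZ w := (relZ w).smul_mem _ ha
  obtain ⟨ζ, hζ, h3⟩ := (mem_relZ.mp h2).exists_complex
  have h4 : (m * m') • (Pi.single i 1 : ι → ℤ) = m' • a + m • Function.extend e c' 0 := by
    rw [h1]
    abel
  have h5 : w i ^ (m * m') = algebraMap ℂ K ζ * mon (fun j => w (e j)) c' ^ m := by
    have h6 := congrArg (mon w) h4
    rw [mon_smul, mon_add' hw, ← h3, mon_smul, mon_extend w e he] at h6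
    rw [← h6]
    congr 1
    symm
    unfold mon
    rw [Finset.prod_eq_single i]
    · rw [Pi.single_eq_same, zpow_one]
    · intro j _ hj
      rw [Pi.single_eq_of_ne hj, zpow_zero]
    · intro h
      exact absurd (Finset.mem_univ i) h
  have h7 : IsAlgebraic (Algebra.adjoin ℂ (Set.range fun j => w (e j))) (w i ^ (m * m')) := by
    rw [h5]
    refine IsAlgebraic.mul ?_ ?_
    · exact isAlgebraic_algebraMap
        (⟨algebraMap ℂ K ζ, Subalgebra.algebraMap_mem _ ζ⟩ :
          Algebra.adjoin ℂ (Set.range fun j => w (e j)))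
    · have h8 := isAlgebraic_mon (k := ℂ) (fun j => w (e j)) c'
      cases m with
      | ofNat n =>
        rw [Int.ofNat_eq_natCast, zpow_natCast]
        exact h8.pow n
      | negSucc n =>
        rw [zpow_negSucc]
        exact (h8.pow _).inv
  have hmm : m * m' ≠ 0 := mul_ne_zero hm hm'
  rcases lt_or_gt_of_ne hmm with h8 | h8
  · have h9 : IsAlgebraic (Algebra.adjoin ℂ (Set.range fun j => w (e j)))
        (w i ^ (-(m * m')).toNat) := by
      rw [← zpow_natCast, Int.toNat_of_nonneg (by omega), zpow_neg]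
      exact h7.inv
    exact h9.of_pow (by omega)
  · have h9 : IsAlgebraic (Algebra.adjoin ℂ (Set.range fun j => w (e j)))
        (w i ^ (m * m').toNat) := by
      rw [← zpow_natCast, Int.toNat_of_nonneg (by omega)]
      exact h7
    exact h9.of_pow (by omega)

end Comap

section Restrict

variable {ι : Type} [Fintype ι]

/-- The restriction of a prime to some of the coordinates. -/
noncomputable def rs {k : ℕ} (e : Fin k → ι) (p : Ideal (MvPolynomial ι ℂ)) :
    Ideal (MvPolynomial (Fin k) ℂ) :=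
  p.comap (rename e : MvPolynomial (Fin k) ℂ →ₐ[ℂ] MvPolynomial ι ℂ)

omit [Fintype ι] in
theorem rs_mono {k : ℕ} (e : Fin k → ι) {p q : Ideal (MvPolynomial ι ℂ)} (h : p ≤ q) :
    rs e p ≤ rs e q := Ideal.comap_mono h

omit [Fintype ι] in
theorem rs_eq_kr {k : ℕ} (e : Fin k → ι) (p : Ideal (MvPolynomial ι ℂ)) [p.IsPrime] :
    rs e p = kr ℂ (fun j => gen p (e j)) := by
  ext f
  unfold rs
  rw [Ideal.mem_comap, mem_kr]
  conv_lhs => rw [← kr_gen p, mem_kr, aeval_rename]
  rfl

omit [Fintype ι] in
theorem TP_rs {k : ℕ} (e : Fin k → ι) {p : Ideal (MvPolynomial ι ℂ)} (hp : TP p) :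
    TP (rs e p) := by
  have := hp.prime
  rw [rs_eq_kr]
  exact TP.kr fun j => gen_ne_zero p (hp.coord _)

theorem cst_mem_QP_rs {k : ℕ} (e : Fin k → ι) (he : Function.Injective e)
    {p : Ideal (MvPolynomial ι ℂ)} (hp : TP p) (a : Fin k → ℤ) :
    cst a ∈ QP (rs e p) ↔ cst (Function.extend e a 0) ∈ QP p := by
  classical
  have := hp.prime
  have h1 : QP (rs e p) = QS (relZ (fun j => gen p (e j))) := by
    rw [rs_eq_kr]
    exact QP_kr fun j => hp.gen_ne_zero _
  rw [h1, hp.QP_eq, cst_mem_QS_relZ, cst_mem_QS_relZ, mem_relZ, mem_relZ,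
    mon_extend (gen p) e he]

theorem binom_mem_rs {k : ℕ} (e : Fin k → ι) (he : Function.Injective e)
    {p : Ideal (MvPolynomial ι ℂ)} (hp : TP p) (a : Fin k → ℤ) (c : ℂ) :
    binom ℂ a c ∈ rs e p ↔ binom ℂ (Function.extend e a 0) c ∈ p := by
  classical
  have := hp.prime
  rw [hp.binom_mem, rs_eq_kr, binom_mem_kr (fun j => hp.gen_ne_zero _), mon_extend (gen p) e he]

/-- Relations of the restriction: the complement to `U`. -/
theorem rhoP_rs {k : ℕ} (e : Fin k → ι) (he : Function.Injective e)
    {p : Ideal (MvPolynomial ι ℂ)} (hp : TP p) (U : Submodule ℚ (ι → ℚ)) (hU : U ≤ QP p)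
    (h0 : ∀ v : Fin k → ℚ, Function.extend e v 0 ∈ U → v = 0)
    (h : ∀ v : ι → ℚ, ∃ c : Fin k → ℚ, v - Function.extend e c 0 ∈ U) :
    rhoP p = rhoP (rs e p) + finrank ℚ U := by
  classical
  -- the embedding of the relations of the restriction
  have hiff : ∀ v : Fin k → ℚ, v ∈ QP (rs e p) ↔ Function.extend e v 0 ∈ QP p := by
    intro v
    obtain ⟨m, hm, a, ha⟩ := exists_clear v
    have hm' : (m : ℚ) ≠ 0 := by exact_mod_cast hm
    have h1 : cst a = (m : ℚ) • v := by
      funext i
      rw [cst_apply, ha, Pi.smul_apply, smul_eq_mul]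
    have h2 : cst (Function.extend e a 0) = (m : ℚ) • Function.extend e v 0 := by
      rw [cst_extend e he, h1, map_smul]
      rfl
    have h3 := cst_mem_QP_rs e he hp a
    rw [h1, h2, Submodule.smul_mem_iff _ hm', Submodule.smul_mem_iff _ hm'] at h3
    exact h3
  let f : (Fin k → ℚ) →ₗ[ℚ] (ι → ℚ) := Function.ExtendByZero.linearMap ℚ e
  have hf : ∀ v, f v = Function.extend e v 0 := fun v => rfl
  have hinj : Function.Injective f := by
    intro v v' hvv
    have h1 : f (v - v') = 0 := by rw [map_sub, hvv, sub_self]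
    have h2 := h0 (v - v') (by rw [← hf, h1]; exact U.zero_mem)
    exact sub_eq_zero.mp h2
  have hmap : QP p = (QP (rs e p)).map f ⊔ U := by
    refine le_antisymm ?_ (sup_le ?_ hU)
    · intro v hv
      obtain ⟨c, hc⟩ := h v
      have h1 : c ∈ QP (rs e p) := by
        rw [hiff]
        have := (QP p).sub_mem hv (hU hc)
        rwa [sub_sub_cancel] at this
      have h2 : v = f c + (v - Function.extend e c 0) := by
        rw [hf]
        abel
      rw [h2]
      exact Submodule.add_mem_sup (Submodule.mem_map_of_mem h1) hc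
    · rintro _ ⟨v, hv, rfl⟩
      rw [hf]
      exact (hiff v).mp hv
  have hdisj : (QP (rs e p)).map f ⊓ U = ⊥ := by
    rw [eq_bot_iff]
    rintro _ ⟨⟨v, _, rfl⟩, hU'⟩
    have := h0 v hU'
    rw [this, map_zero]
    exact Submodule.zero_mem _
  have h1 := Submodule.finrank_sup_add_finrank_inf_eq ((QP (rs e p)).map f) U
  rw [hdisj, finrank_bot, add_zero, ← hmap,
    ← LinearEquiv.finrank_eq (Submodule.equivMapOfInjective f hinj (QP (rs e p)))] at h1
  exact h1

theorem dm_rs {k : ℕ} (e : Fin k → ι) (he : Function.Injective e)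
    {p : Ideal (MvPolynomial ι ℂ)} (hp : TP p) (U : Submodule ℚ (ι → ℚ)) (hU : U ≤ QP p)
    (h : ∀ v : ι → ℚ, ∃ c : Fin k → ℚ, v - Function.extend e c 0 ∈ U) :
    dm (rs e p) = dm p := by
  have := hp.prime
  have h1 := rk_coords_eq hp.gen_ne_zero e he U (by rwa [← hp.QP_eq]) h
  have h2 := dm_eq_rk p
  have h3 : (dm (rs e p) : ℕ∞) = rk ℂ (Set.range (fun j => gen p (e j))) := by
    rw [rs_eq_kr, dm_kr]
  have h4 : (dm (rs e p) : ℕ∞) = dm p := by rw [h2, h3, h1]
  exact_mod_cast h4

/-- A variety has dimension at most that of the smallest torsion coset containing it. -/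
theorem dm_add_rhoP_le {p : Ideal (MvPolynomial ι ℂ)} (hp : TP p) :
    dm p + rhoP p ≤ Fintype.card ι := by
  obtain ⟨k, e, he, hk, _, h⟩ := exists_coords (QP p)
  have h1 := dm_rs e he hp (QP p) le_rfl h
  have := (TP_rs e hp).prime
  have h2 := dm_le_card (rs e p)
  rw [Fintype.card_fin] at h2
  have h3 : rhoP p = finrank ℚ (QP p) := rfl
  omega

end Restrict

end Pool.Agent.CITLines
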