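import Pool.Agent.CITLines.Sys

set_option autoImplicit false

/-!
Finiteness for the powers of the line `x + y = 1` gives, on every variety without relations, an
equation satisfied by all its atypical subvarieties.
-/

namespace Pool.Agent.CITLines

open MvPolynomial Module

/-- The atypical subvarieties of the `r`-th power of the line `x + y = 1` contain finitely many
of them. -/
def FinL (r : ℕ) : Prop :=
  ∃ Y : Finset (Ideal (MvPolynomial (Fin (r + r)) ℂ)),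
    (∀ y ∈ Y, TP y ∧ LI r ≤ y ∧ r < dm y + rhoP y) ∧
    ∀ q, TP q → LI r ≤ q → r < dm q + rhoP q → ∃ y ∈ Y, y ≤ q

theorem eq_bot_of_card_le {ι : Type} [Fintype ι] (p : Ideal (MvPolynomial ι ℂ)) [p.IsPrime]
    (h : Fintype.card ι ≤ dm p) : p = ⊥ := by
  by_contra hne
  have h1 := dm_strictAnti (p := (⊥ : Ideal (MvPolynomial ι ℂ))) (q := p) (bot_lt_iff_ne_bot.mpr hne)
  have h2 := dm_le_card (⊥ : Ideal (MvPolynomial ι ℂ))
  omega

theorem cut (hL : ∀ r, FinL r) {ι : Type} [Fintype ι] (p : Ideal (MvPolynomial ι ℂ)) (hp : TP p)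
    (hfree : QP p = ⊥) (hne : p ≠ ⊥) :
    ∃ G, G ∉ p ∧ ∀ q : Ideal (MvPolynomial ι ℂ), TP q → p ≤ q → dm p < dm q + rhoP q → G ∈ q := by
  classical
  have hpp := hp.prime
  obtain ⟨S, hS0, hdef⟩ := exists_definedOver p
  set c : S → ℂ := fun j => (j : ℂ) with hc
  have hc0 : ∀ j, c j ≠ 0 := fun j => hS0 _ j.2
  set p1 := lift (W1 c) p with hp1
  have hTP1 : TP p1 := TP_lift1 c p hp
  have hfree1 : QP p1 = ⊥ := free_lift1 c p hc0 hp hfree
  obtain ⟨_, s, hsmin, hscard⟩ := exists_spread p1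
  -- the rank of the coefficients
  obtain ⟨ρ, hρ⟩ : ∃ ρ : ℕ, rk ℚ (Set.range c) = ρ := by
    have h1 : rk ℚ (Set.range c) ≠ ⊤ := by
      intro h
      have h2 := rk_le_encard (k := ℚ) (Set.range c)
      rw [h, top_le_iff, Set.encard_eq_top_iff] at h2
      exact h2 (Set.finite_range c)
    exact ⟨_, (ENat.natCast_toNat h1).symm⟩
  have hρcard : ρ ≤ Fintype.card S := by
    have h1 := rk_le_encard (k := ℚ) (Set.range c)
    have h2 : (Set.range c).encard ≤ (Fintype.card S : ℕ∞) := by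
      rw [← Set.image_univ]
      refine (Set.encard_image_le _ _).trans ?_
      rw [Set.encard_univ]
      simp
    rw [hρ] at h1
    exact_mod_cast h1.trans h2
  have hup : dm (IQ p1) ≤ ρ + dm p + Fintype.card S := by
    have := upper1 c p hdef
    rw [hρ] at this
    exact_mod_cast this
  have hcard0 : Fintype.card (ι ⊕ (S ⊕ S)) = Fintype.card ι + (Fintype.card S + Fintype.card S) := by
    rw [Fintype.card_sum, Fintype.card_sum]
  have hsne : s.Nonempty := by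
    rw [Finset.nonempty_iff_ne_empty]
    rintro rfl
    rw [Finset.card_empty] at hscard
    exact hne (eq_bot_of_card_le p (by omega))
  -- chains
  have hch : ∀ f : s, ∃ (n : ℕ) (sgn : Fin (n + 3) → Bool)
      (ex : Fin (n + 3) → (ι ⊕ (S ⊕ S)) → ℕ) (N : ℚ), N ≠ 0 ∧
      ∑ x, sm (sgn x, ex x) = C N * (f : MvPolynomial (ι ⊕ (S ⊕ S)) ℚ) ∧ (∃ x, ex x = 0) ∧
        ∀ i, ∃ x, ∀ i', ex x i' = if i' = i then 1 else 0 := fun f => exists_chain _
  choose len sg0 ex0 N hN0 hsum hzero hunit using hch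
  set sgn : Lk len → Bool := fun l => sg0 l.1 l.2 with hsgn
  set ex : Lk len → (ι ⊕ (S ⊕ S)) → ℕ := fun l => ex0 l.1 l.2 with hex
  have hTot : ∀ j : s, Tot sgn ex (X : (ι ⊕ (S ⊕ S)) → MvPolynomial (ι ⊕ (S ⊕ S)) ℚ) j =
      C (N j) * (j : MvPolynomial (ι ⊕ (S ⊕ S)) ℚ) := by
    intro j
    rw [← hsum j]
    rfl
  set p2 := lift (W2 sgn ex) p1 with hp2
  have hTP2 : TP p2 := TP_lift2 sgn ex p1 hTP1
  have hfree2 : QP p2 = ⊥ := free_lift2 sgn ex p1 hTP1 hfree1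
  let R := Fintype.card (Lk len × Sel)
  let e : (Lk len × Sel) ≃ Fin R := Fintype.equivFin _
  have hR : R = Fintype.card (Lk len) * 3 := by
    change Fintype.card (Lk len × Sel) = _
    rw [Fintype.card_prod]
    rfl
  have hCo : Fintype.card (Co (ι ⊕ (S ⊕ S)) len) =
      Fintype.card (ι ⊕ (S ⊕ S)) + (Fintype.card (Lk len) + R) := by
    have h1 : Fintype.card ((ι ⊕ (S ⊕ S)) ⊕ (Lk len ⊕ (Lk len × Sel))) =
        Fintype.card (ι ⊕ (S ⊕ S)) + Fintype.card (Lk len ⊕ (Lk len × Sel)) := Fintype.card_sum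
    have h2 : Fintype.card (Lk len ⊕ (Lk len × Sel)) = Fintype.card (Lk len) + R :=
      Fintype.card_sum
    rw [← h2, ← h1]
  have hJ : Fintype.card s = s.card := Fintype.card_coe s
  obtain ⟨Y, hY, hY'⟩ := hL R
  have hsurj : Function.Surjective (psiZ (ph sgn ex e)) := by
    refine ph_surjective sgn ex e hzero ?_
    intro i
    obtain ⟨f, hf⟩ := hsne
    obtain ⟨x, hx⟩ := hunit ⟨f, hf⟩ i
    refine ⟨⟨⟨f, hf⟩, x⟩, fun i' => ?_⟩
    change ex0 ⟨f, hf⟩ x i' = _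
    rw [hx]
    congr
  obtain ⟨G2, hG2, hG2'⟩ := push (ph sgn ex e) hsurj (LI R) R Y hY hY' p2 hfree2 hTP2.prime (by
    intro D hDp hDle hLI
    have hDT : TP D := hTP2.mono hDp hDle
    have hsat : Sat sgn ex (gen D) := (LI_le_pm_iff sgn ex e hDT.gen_ne_zero).mp hLI
    have h1 := upper2 sgn ex p1 (fun j : s => (j : MvPolynomial (ι ⊕ (S ⊕ S)) ℚ)) N hN0 hTot
      (by
        have : Set.range (fun j : s => (j : MvPolynomial (ι ⊕ (S ⊕ S)) ℚ)) = (s : Set _) :=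
          Subtype.range_coe
        rw [this]
        exact hsmin) D hDle hsat
    rw [Fintype.card_fin, hCo]
    omega)
  obtain ⟨G1, hG1, hG1'⟩ := exists_extract hG2
  obtain ⟨G0, hG0, hG0'⟩ := exists_extract hG1
  refine ⟨G0, hG0, ?_⟩
  intro q hq hpq hdim
  have hqp := hq.prime
  apply hG0'
  apply hG1'
  set q1 := lift (W1 c) q with hq1
  set q2 := lift (W2 sgn ex) q1 with hq2
  have hTq1 : TP q1 := TP_lift1 c q hq
  have hTq2 : TP q2 := TP_lift2 sgn ex q1 hTq1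
  obtain ⟨⟨Q, hQp, hQle, hQI, hQd⟩, _⟩ := exists_spread q2
  apply hQle
  have hTQ : TP Q := hTq2.mono hQp hQle
  have hle1 : p1 ≤ q1 := lift_mono hpq
  have hgen0 : ∀ j : s, aeval (gen q1) (j : MvPolynomial (ι ⊕ (S ⊕ S)) ℚ) = 0 := by
    intro j
    have h1 : (j : MvPolynomial (ι ⊕ (S ⊕ S)) ℚ) ∈ IQ q1 :=
      IQ_mono hle1 (hsmin.le (Ideal.subset_span j.2))
    rw [mem_IQ, ← kr_gen q1, mem_kr, MvPolynomial.aeval_map_algebraMap] at h1
    exact h1
  have hTot0 : ∀ j : s, Tot sgn ex (gen q1) j = 0 := by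
    intro j
    have h1 := map_Tot sgn ex
      (aeval (gen q1) : MvPolynomial (ι ⊕ (S ⊕ S)) ℚ →ₐ[ℚ] Kf q1).toRingHom X j
    have h2 : (fun i => (aeval (gen q1) : MvPolynomial (ι ⊕ (S ⊕ S)) ℚ →ₐ[ℚ] Kf q1).toRingHom
        (X i)) = gen q1 := by
      funext i
      exact aeval_X _ i
    rw [h2] at h1
    rw [← h1, hTot]
    refine (map_mul _ _ _).trans ?_
    have h3 := hgen0 j
    change _ * aeval (gen q1) (j : MvPolynomial (ι ⊕ (S ⊕ S)) ℚ) = 0
    rw [h3, mul_zero]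
  have hsat2 : Sat sgn ex (wl (W2 sgn ex) q1) := sat_lift2 sgn ex q1 hTot0
  have hsatQ : Sat sgn ex (gen Q) := by
    refine Sat.of_kr sgn ex ?_ hsat2
    rw [← IQ_eq_kr, ← IQ_eq_kr, ← lift_eq_kr, kr_gen]
    exact hQI.ge
  refine hG2' Q hTQ ((LI_le_pm_iff sgn ex e hTQ.gen_ne_zero).mpr hsatQ) ?_
  have hρQ : rhoP Q = rhoP q2 := rhoP_of_IQ hQI
  have h1 : rhoP q1 ≤ rhoP q2 := rhoP_lift2 sgn ex q1 hTq1
  have h2 : rhoP q ≤ rhoP q1 :=
    rhoP_le_rhoP_lift (W1 c) Sum.inl Sum.inl_injective (fun _ => rfl) q hq hTq1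
  have h3 : dm (IQ q1) + Fintype.card (Lk len) + Fintype.card s ≤ dm (IQ q2) :=
    lower2 sgn ex q1
  have h4 : ρ + dm q + Fintype.card S ≤ dm (IQ q1) := by
    have := lower1 c q
    rw [hρ] at this
    exact_mod_cast this
  rw [Fintype.card_fin, hCo]
  omega

end Pool.Agent.CITLines
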