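import Pool.Agent.CITLines.Basic

set_option autoImplicit false

/-!
The dimension formula over the complex numbers, and the affine dimension theorem for cutting by
finitely many equations.
-/

namespace Pool.Agent.CITLines

open MvPolynomial

variable {ι : Type} [Fintype ι]

theorem ringKrullDim_mvPoly (k : Type) [Field k] :
    ringKrullDim (MvPolynomial ι k) = (Fintype.card ι : WithBot ℕ∞) := by
  rw [MvPolynomial.ringKrullDim_of_isNoetherianRing]
  simp

/-- The maximal ideal of a point has height `card ι`. -/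
theorem height_point (x : ι → ℂ) :
    (RingHom.ker (MvPolynomial.eval x : MvPolynomial ι ℂ →+* ℂ)).height = Fintype.card ι := by
  have hdim : ringKrullDim (MvPolynomial ι ℂ) = (Fintype.card ι : WithBot ℕ∞) :=
    ringKrullDim_mvPoly ℂ
  have hfin : FiniteRingKrullDim (MvPolynomial ι ℂ) := by
    rw [finiteRingKrullDim_iff_ne_bot_and_top, hdim]
    constructor
    · exact WithBot.natCast_ne_bot _
    · exact fun h => by
        have : ((Fintype.card ι : ℕ∞) : WithBot ℕ∞) = ((⊤ : ℕ∞) : WithBot ℕ∞) := h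
        exact (ENat.natCast_ne_top _) (WithBot.coe_injective this)
  obtain ⟨p, hp, hph⟩ := Ideal.exists_isMaximal_height (R := MvPolynomial ι ℂ)
  obtain ⟨y, hy⟩ := MvPolynomial.isMaximal_iff_eq_vanishingIdeal_singleton.mp hp
  let φ : MvPolynomial ι ℂ →ₐ[ℂ] MvPolynomial ι ℂ :=
    MvPolynomial.aeval (fun i => MvPolynomial.X i + MvPolynomial.C (x i - y i))
  let ψ : MvPolynomial ι ℂ →ₐ[ℂ] MvPolynomial ι ℂ :=
    MvPolynomial.aeval (fun i => MvPolynomial.X i - MvPolynomial.C (x i - y i))
  let e : MvPolynomial ι ℂ ≃ₐ[ℂ] MvPolynomial ι ℂ := AlgEquiv.ofAlgHom φ ψ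
    (by
      ext i : 1
      simp only [φ, ψ, AlgHom.coe_comp, Function.comp_apply, MvPolynomial.aeval_X, map_sub,
        MvPolynomial.algHom_C, MvPolynomial.algebraMap_eq, AlgHom.coe_id, id_eq]
      ring)
    (by
      ext i : 1
      simp only [φ, ψ, AlgHom.coe_comp, Function.comp_apply, MvPolynomial.aeval_X, map_add,
        map_sub, MvPolynomial.algHom_C, MvPolynomial.algebraMap_eq, AlgHom.coe_id, id_eq]
      ring)
  have hcomap : p.comap e.toRingEquiv =
      RingHom.ker (MvPolynomial.eval x : MvPolynomial ι ℂ →+* ℂ) := by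
    ext G
    rw [Ideal.mem_comap, hy, MvPolynomial.mem_vanishingIdeal_singleton_iff, RingHom.mem_ker]
    have h3 : (MvPolynomial.aeval y : MvPolynomial ι ℂ →ₐ[ℂ] ℂ).comp φ =
        MvPolynomial.aeval x := by
      ext i
      simp [φ]
    have h4 : MvPolynomial.aeval y (e.toRingEquiv G) = MvPolynomial.eval x G :=
      DFunLike.congr_fun h3 G
    rw [h4]
  rw [← hcomap, RingEquiv.height_comap]
  rw [hdim] at hph
  exact WithBot.coe_injective hph

/-- Krull's height theorem at a point: if every prime between the equations and the point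
contains `P`, then the dimension at `P` is at least `card ι - card s`. -/
theorem krull_lower_aux (s : Finset (MvPolynomial ι ℂ)) (P : Ideal (MvPolynomial ι ℂ)) [P.IsPrime]
    (x : ι → ℂ) (hxF : ∀ f ∈ s, MvPolynomial.eval x f = 0)
    (hkey : ∀ q : Ideal (MvPolynomial ι ℂ), q.IsPrime → Ideal.span (s : Set (MvPolynomial ι ℂ)) ≤ q →
      q ≤ RingHom.ker (MvPolynomial.eval x : MvPolynomial ι ℂ →+* ℂ) → P ≤ q) :
    Fintype.card ι ≤ dm P + s.card := by
  set m := RingHom.ker (MvPolynomial.eval x : MvPolynomial ι ℂ →+* ℂ) with hm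
  have hmp : m.IsPrime := RingHom.ker_isPrime _
  have hsm : (s : Set (MvPolynomial ι ℂ)) ⊆ m := fun f hf => hxF f hf
  have h1 := Ideal.height_le_height_add_encard_of_subset (s : Set (MvPolynomial ι ℂ)) hsm
  rw [height_point] at h1
  set Q := m.map (Ideal.Quotient.mk (Ideal.span (s : Set (MvPolynomial ι ℂ)))) with hQ
  have hspm : Ideal.span (s : Set (MvPolynomial ι ℂ)) ≤ m := Ideal.span_le.mpr hsm
  have hQp : Q.IsPrime := Ideal.isPrime_map_quotientMk_of_isPrime hspm
  have hcomapQ : Q.comap (Ideal.Quotient.mk (Ideal.span (s : Set (MvPolynomial ι ℂ)))) = m := by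
    rw [hQ, Ideal.comap_map_of_surjective _ Ideal.Quotient.mk_surjective]
    rw [← RingHom.ker_eq_comap_bot, Ideal.mk_ker]
    exact sup_eq_left.mpr hspm
  have h2 : (Q.height : WithBot ℕ∞) ≤ ringKrullDim (MvPolynomial ι ℂ ⧸ P) := by
    have h3 : Q.height = Order.height (⟨Q, hQp⟩ : PrimeSpectrum _) :=
      PrimeSpectrum.height_eq_orderHeight ⟨Q, hQp⟩
    rw [h3, Order.height_eq_krullDim_Iic]
    let e1 := (Ideal.span (s : Set (MvPolynomial ι ℂ))).primeSpectrumQuotientOrderIsoZeroLocus
    let e2 := P.primeSpectrumQuotientOrderIsoZeroLocus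
    have hmem : ∀ q : Set.Iic (⟨Q, hQp⟩ : PrimeSpectrum (MvPolynomial ι ℂ ⧸
        Ideal.span (s : Set (MvPolynomial ι ℂ)))),
        (e1 q.1).1 ∈ PrimeSpectrum.zeroLocus (P : Set (MvPolynomial ι ℂ)) := by
      intro q
      rw [PrimeSpectrum.mem_zeroLocus]
      refine hkey _ (e1 q.1).1.isPrime ?_ ?_
      · exact (PrimeSpectrum.mem_zeroLocus _ _).mp (e1 q.1).2
      · have h4 : q.1.asIdeal ≤ Q := q.2
        have h5 := Ideal.comap_mono (f := Ideal.Quotient.mk
          (Ideal.span (s : Set (MvPolynomial ι ℂ)))) h4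
        rw [hcomapQ] at h5
        exact h5
    refine Order.krullDim_le_of_strictMono (fun q => e2.symm ⟨(e1 q.1).1, hmem q⟩) ?_
    intro a b hab
    apply e2.symm.strictMono
    have h6 : e1 a.1 < e1 b.1 := e1.strictMono hab
    exact h6
  rw [ringKrullDim_eq_dm] at h2
  have h3 : Q.height ≤ (dm P : ℕ∞) := by exact_mod_cast h2
  have h4 : ((Fintype.card ι : ℕ) : ℕ∞) ≤ ((dm P + s.card : ℕ) : ℕ∞) := by
    refine h1.trans ?_
    rw [Set.encard_coe_eq_coe_finsetCard]
    push_cast
    gcongr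
  exact_mod_cast h4

/-- The height of a minimal prime over `s` is at least the codimension. -/
theorem card_le_dm_add_card {P : Ideal (MvPolynomial ι ℂ)} (s : Finset (MvPolynomial ι ℂ))
    (hP : P ∈ (Ideal.span (s : Set (MvPolynomial ι ℂ))).minimalPrimes) :
    Fintype.card ι ≤ dm P + s.card := by
  classical
  have hPp : P.IsPrime := hP.isPrime
  set J := Ideal.span (s : Set (MvPolynomial ι ℂ)) with hJ
  have hfin : (J.minimalPrimes).Finite := Ideal.finite_minimalPrimes_of_isNoetherianRing _ J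
  let S := hfin.toFinset.erase P
  have hex : ∃ G, G ∉ P ∧ ∀ q ∈ J.minimalPrimes, q ≠ P → G ∈ q := by
    have h1 : ∀ q ∈ S, ∃ G, G ∈ q ∧ G ∉ P := by
      intro q hq
      rw [Finset.mem_erase, Set.Finite.mem_toFinset] at hq
      by_contra hcon
      push Not at hcon
      have h2 : q ≤ P := fun G hG => hcon G hG
      have h3 : P ≤ q := hP.2 ⟨hq.2.isPrime, hq.2.le⟩ h2
      exact hq.1 (le_antisymm h2 h3)
    choose! G hG hG' using h1
    refine ⟨∏ q ∈ S, G q, ?_, ?_⟩
    · intro h
      obtain ⟨q, hq, hqG⟩ := hPp.prod_mem_iff.mp h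
      exact hG' q hq hqG
    · intro q hq hne
      have h2 : q ∈ S := by
        rw [Finset.mem_erase, Set.Finite.mem_toFinset]
        exact ⟨hne, hq⟩
      exact Ideal.mem_of_dvd q (Finset.dvd_prod_of_mem G h2) (hG q h2)
  obtain ⟨G, hGP, hGq⟩ := hex
  have hpt : ∃ x : ι → ℂ, (∀ H ∈ P, MvPolynomial.eval x H = 0) ∧ MvPolynomial.eval x G ≠ 0 := by
    by_contra hcon
    push Not at hcon
    apply hGP
    have h1 : G ∈ P.radical := by
      rw [← MvPolynomial.vanishingIdeal_zeroLocus_eq_radical (K := ℂ),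
        MvPolynomial.mem_vanishingIdeal_iff]
      intro y hy
      exact hcon y (fun H hH => hy H hH)
    rwa [hPp.radical] at h1
  obtain ⟨x, hxP, hxG⟩ := hpt
  refine krull_lower_aux s P x (fun f hf => hxP f (hP.le (Ideal.subset_span hf))) ?_
  intro q hq hJq hqm
  obtain ⟨p, hp, hpq⟩ := Ideal.exists_minimalPrimes_le hJq
  by_cases h : p = P
  · rw [← h]
    exact hpq
  · exfalso
    have h1 := hqm (hpq (hGq p hp h))
    exact hxG (by rwa [RingHom.mem_ker] at h1)

/-- Dimension formula in polynomial rings, lower bound. -/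
theorem card_le_height_add_dm (P : Ideal (MvPolynomial ι ℂ)) [P.IsPrime] :
    (Fintype.card ι : ℕ∞) ≤ P.height + dm P := by
  obtain ⟨s, hs, hcard⟩ := P.exists_finset_card_eq_height_of_isNoetherianRing
  have := card_le_dm_add_card s hs
  rw [← hcard]
  have h2 : Fintype.card ι ≤ s.card + dm P := by omega
  exact_mod_cast h2

/-- Dimension formula, upper bound, over any field. -/
theorem dm_add_height_le {k : Type} [Field k] (P : Ideal (MvPolynomial ι k)) [P.IsPrime] (h : ℕ)
    (hh : (h : ℕ∞) = P.height) : dm P + h ≤ Fintype.card ι := by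
  obtain ⟨l, hl, hlen⟩ := P.exists_ltSeries_length_eq_height
  have key : ∀ (j : ℕ) (hj : j < l.length + 1), dm (l ⟨j, hj⟩).asIdeal + j ≤ Fintype.card ι := by
    intro j
    induction j with
    | zero =>
      intro hj
      have := dm_le_card (l ⟨0, hj⟩).asIdeal
      omega
    | succ j ih =>
      intro hj
      have h1 := ih (by omega)
      have h2 : l ⟨j, by omega⟩ < l ⟨j + 1, hj⟩ := l.strictMono (by simp [Fin.lt_def])
      have h3 := dm_strictAnti (p := (l ⟨j, by omega⟩).asIdeal) (q := (l ⟨j + 1, hj⟩).asIdeal) h2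
      omega
  have h1 := key l.length (by omega)
  have h2 : l ⟨l.length, by omega⟩ = l.last := rfl
  rw [h2, hl] at h1
  change dm P + l.length ≤ _ at h1
  have h3 : h = l.length := by
    rw [← hlen] at hh
    exact_mod_cast hh
  omega

/-- **Affine dimension theorem**: cutting an irreducible variety by `card s` equations lowers the
dimension of each component by at most `card s`. -/
theorem dm_le_dm_add_card (p : Ideal (MvPolynomial ι ℂ)) [p.IsPrime]
    (s : Finset (MvPolynomial ι ℂ)) (q : Ideal (MvPolynomial ι ℂ))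
    (hq : q ∈ (p ⊔ Ideal.span (s : Set (MvPolynomial ι ℂ))).minimalPrimes) :
    dm p ≤ dm q + s.card := by
  classical
  have hqp : q.IsPrime := hq.isPrime
  have hpq : p ≤ q := le_sup_left.trans hq.le
  obtain ⟨d, g, hinj, hint, hdim⟩ := Pool.Agent.CITTrans.exists_noether ℂ (MvPolynomial ι ℂ ⧸ p)
  have hd : dm p = d := dm_eq_of hdim
  algebraize [g.toRingHom]
  have hfaith : FaithfulSMul (MvPolynomial (Fin d) ℂ) (MvPolynomial ι ℂ ⧸ p) :=
    (faithfulSMul_iff_algebraMap_injective _ _).mpr hinj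
  set Q := q.map (Ideal.Quotient.mk p) with hQ
  have hQp : Q.IsPrime := Ideal.isPrime_map_quotientMk_of_isPrime hpq
  have hcomapQ : Q.comap (Ideal.Quotient.mk p) = q := by
    rw [hQ, Ideal.comap_map_of_surjective _ Ideal.Quotient.mk_surjective]
    rw [← RingHom.ker_eq_comap_bot, Ideal.mk_ker]
    exact sup_eq_left.mpr hpq
  have hQmin : Q ∈ (Ideal.span ((s.image (Ideal.Quotient.mk p) :
      Finset (MvPolynomial ι ℂ ⧸ p)) : Set (MvPolynomial ι ℂ ⧸ p))).minimalPrimes := by
    rw [Finset.coe_image, ← Ideal.map_span]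
    refine ⟨⟨hQp, Ideal.map_mono (le_sup_right.trans hq.le)⟩, ?_⟩
    rintro P ⟨hP, hsP⟩ hPQ
    have h1 : (P.comap (Ideal.Quotient.mk p)).IsPrime := hP.comap _
    have h2 : p ⊔ Ideal.span (s : Set (MvPolynomial ι ℂ)) ≤ P.comap (Ideal.Quotient.mk p) := by
      refine sup_le ?_ (Ideal.map_le_iff_le_comap.mp hsP)
      intro a ha
      rw [Ideal.mem_comap, Ideal.Quotient.eq_zero_iff_mem.mpr ha]
      exact P.zero_mem
    have h3 : P.comap (Ideal.Quotient.mk p) ≤ q := by
      rw [← hcomapQ]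
      exact Ideal.comap_mono hPQ
    have h4 := hq.2 ⟨h1, h2⟩ h3
    rw [hQ]
    exact Ideal.map_le_iff_le_comap.mpr h4
  have hQh : Q.height ≤ s.card := by
    refine (Ideal.height_le_card_of_mem_minimalPrimes_span_finset hQmin).trans ?_
    exact_mod_cast Finset.card_image_le
  set P := Q.under (MvPolynomial (Fin d) ℂ) with hP
  have hPp : P.IsPrime := inferInstance
  have hPh : P.height ≤ Q.height := by
    rw [Ideal.height_eq_height_add_of_liesOver_of_hasGoingDown P Q]
    exact le_self_add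
  have hdimQ : dm q = dm P := by
    have h1 := Pool.Agent.CITTrans.ringKrullDim_eq_of_integral (MvPolynomial (Fin d) ℂ ⧸ P)
      ((MvPolynomial ι ℂ ⧸ p) ⧸ Q) Ideal.algebraMap_quotient_injective
    have h2 : ringKrullDim ((MvPolynomial ι ℂ ⧸ p) ⧸ Q) = ringKrullDim (MvPolynomial ι ℂ ⧸ q) :=
      ringKrullDim_eq_of_ringEquiv (DoubleQuot.quotQuotEquivQuotOfLE hpq)
    have h3 : ringKrullDim (MvPolynomial ι ℂ ⧸ q) = ringKrullDim (MvPolynomial (Fin d) ℂ ⧸ P) :=
      h2.symm.trans h1
    rw [ringKrullDim_eq_dm, ringKrullDim_eq_dm] at h3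
    exact_mod_cast h3
  have h5 := card_le_height_add_dm P
  rw [Fintype.card_fin] at h5
  rw [hd, hdimQ]
  have h6 : (d : ℕ∞) ≤ ((s.card + dm P : ℕ) : ℕ∞) := by
    refine h5.trans ?_
    push_cast
    gcongr
    exact hPh.trans hQh
  have h7 : d ≤ s.card + dm P := by exact_mod_cast h6
  omega

end Pool.Agent.CITLines
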