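import Pool.Agent.CITLines.Trans

set_option autoImplicit false

/-!
Maximal atypical subvarieties, powers of the line `x + y = 1`, and the equivalence.
-/

namespace Pool.Agent.CITLines

open MvPolynomial Module Pool.Agent.CITTrans

section Max

variable {n : ℕ} {V : Set (Fin n → ℂ)}

theorem atypical_props (hV : Cl V) (hVp : (vanI V).IsPrime) {X : Set (Fin n → ℂ)}
    (h : IsAtypical V X) : Zt (vanI X) = X ∧ TP (vanI X) ∧ vanI V ≤ vanI X ∧
      dm (vanI V) < dm (vanI X) + rhoP (vanI X) := by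
  obtain ⟨T, ⟨M, η, hM, hη, hT⟩, hX, hdim⟩ := h
  have hT' : T = cos M η := hT
  have hcl : Cl (V ∩ T) := by
    rw [hT']
    exact hV.inter (Cl_cos M η)
  obtain ⟨hZ, hTP⟩ := component_closed hcl hX
  refine ⟨hZ, hTP, vanI_anti (hX.1.trans Set.inter_subset_left), ?_⟩
  obtain ⟨k, hk, hkdim⟩ := dim_cos M η hη
  have hle : QS M ≤ QP (vanI X) := by
    refine QS_le_of_subset_cos hη hTP ?_
    rw [← hT']
    exact vanI_anti (hX.1.trans Set.inter_subset_right)
  have h1 : ringKrullDim (MvPolynomial (Fin n) ℂ ⧸ vanI V) +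
      ringKrullDim (MvPolynomial (Fin n) ℂ ⧸ vanI T) <
      ringKrullDim (MvPolynomial (Fin n) ℂ ⧸ vanI X) + (n : WithBot ℕ∞) := hdim
  have hXp := hTP.prime
  rw [hT', hkdim, ringKrullDim_eq_dm, ringKrullDim_eq_dm] at h1
  have h2 : dm (vanI V) + k < dm (vanI X) + n := by exact_mod_cast h1
  have h3 : finrank ℚ (QS M) ≤ rhoP (vanI X) := Submodule.finrank_mono hle
  omega

theorem exists_atypical (hV : Cl V) (hVp : (vanI V).IsPrime)
    {q : Ideal (MvPolynomial (Fin n) ℂ)} (hq : TP q) (hVq : vanI V ≤ q)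
    (hdim : dm (vanI V) < dm q + rhoP q) : ∃ X, IsAtypical V X ∧ Zt q ⊆ X ∧ vanI X ≤ q := by
  have hqp := hq.prime
  obtain ⟨η, hη, hsub⟩ := exists_coset hq
  have hcl : Cl (V ∩ cos (relZ (gen q)) η) := hV.inter (Cl_cos _ η)
  have hZV : Zt q ⊆ V := (Zt_anti hVq).trans hV.2
  obtain ⟨X, hX, hqX, hXq⟩ := exists_component hcl hq (Set.subset_inter hZV hsub)
  refine ⟨X, ⟨cos (relZ (gen q)) η, ⟨relZ (gen q), η, fun a m hm h => relZ_saturated hm h, hη, rfl⟩,
    hX, ?_⟩, hqX, hXq⟩
  obtain ⟨k, hk, hkdim⟩ := dim_cos (relZ (gen q)) η hη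
  have hrho : rhoP q = finrank ℚ (QS (relZ (gen q))) := by
    unfold rhoP
    rw [hq.QP_eq]
  have hXp : (vanI X).IsPrime := hX.2.1
  have h1 := dm_anti hXq
  change ringKrullDim (MvPolynomial (Fin n) ℂ ⧸ vanI V) +
    ringKrullDim (MvPolynomial (Fin n) ℂ ⧸ vanI (cos (relZ (gen q)) η)) <
    ringKrullDim (MvPolynomial (Fin n) ℂ ⧸ vanI X) + (n : WithBot ℕ∞)
  rw [hkdim, ringKrullDim_eq_dm, ringKrullDim_eq_dm]
  have h2 : dm (vanI V) + k < dm (vanI X) + n := by omega
  exact_mod_cast h2

theorem exists_max (hV : Cl V) (hVp : (vanI V).IsPrime) {X : Set (Fin n → ℂ)}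
    (h : IsAtypical V X) : ∃ Y, IsMaxAtypical V Y ∧ X ⊆ Y := by
  have key : ∀ (d : ℕ) (X : Set (Fin n → ℂ)), IsAtypical V X → n ≤ dm (vanI X) + d →
      ∃ Y, IsMaxAtypical V Y ∧ X ⊆ Y := by
    intro d
    induction d with
    | zero =>
      intro X hX hd
      refine ⟨X, ⟨hX, fun Y hY hXY => ?_⟩, subset_rfl⟩
      obtain ⟨h1, h2, _, _⟩ := atypical_props hV hVp hX
      obtain ⟨h1', h2', _, _⟩ := atypical_props hV hVp hY
      have hp := h2.prime
      have hp' := h2'.prime
      have h3 : vanI Y ≤ vanI X := vanI_anti hXY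
      have h4 : vanI Y = vanI X := by
        by_contra hne
        have h5 := dm_strictAnti (lt_of_le_of_ne h3 hne)
        have h6 := dm_le_card (vanI Y)
        rw [Fintype.card_fin] at h6
        omega
      rw [← h1, ← h1', h4]
    | succ d ih =>
      intro X hX hd
      by_cases hmax : ∀ Y, IsAtypical V Y → X ⊆ Y → Y = X
      · exact ⟨X, ⟨hX, hmax⟩, subset_rfl⟩
      · push Not at hmax
        obtain ⟨Y, hY, hXY, hne⟩ := hmax
        obtain ⟨h1, h2, _, _⟩ := atypical_props hV hVp hX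
        obtain ⟨h1', h2', _, _⟩ := atypical_props hV hVp hY
        have hp := h2.prime
        have hp' := h2'.prime
        have h3 : vanI Y ≤ vanI X := vanI_anti hXY
        have h4 : vanI Y ≠ vanI X := by
          intro h4
          apply hne
          rw [← h1, ← h1', h4]
        have h5 := dm_strictAnti (lt_of_le_of_ne h3 h4)
        obtain ⟨Z, hZ, hYZ⟩ := ih Y hY (by omega)
        exact ⟨Z, hZ, hXY.trans hYZ⟩
  exact key n X h (by omega)

theorem finite_iff (hV : Cl V) (hVp : (vanI V).IsPrime) :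
    {X | IsMaxAtypical V X}.Finite ↔ FinA (vanI V) := by
  classical
  constructor
  · intro hfin
    refine ⟨hfin.toFinset.image vanI, ?_, ?_⟩
    · intro y hy
      obtain ⟨X, hX, rfl⟩ := Finset.mem_image.mp hy
      have hX' : IsMaxAtypical V X := hfin.mem_toFinset.mp hX
      obtain ⟨_, h2, h3, h4⟩ := atypical_props hV hVp hX'.1
      exact ⟨h2, h3, h4⟩
    · intro q hq hVq hdim
      obtain ⟨X, hX, _, hXq⟩ := exists_atypical hV hVp hq hVq hdim
      obtain ⟨Y, hY, hXY⟩ := exists_max hV hVp hX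
      exact ⟨vanI Y, Finset.mem_image_of_mem _ (hfin.mem_toFinset.mpr hY),
        (vanI_anti hXY).trans hXq⟩
  · rintro ⟨Y, hY, hY'⟩
    have hex : ∀ y : Ideal (MvPolynomial (Fin n) ℂ), ∃ X : Set (Fin n → ℂ),
        y ∈ Y → IsAtypical V X ∧ Zt y ⊆ X := by
      intro y
      by_cases hy : y ∈ Y
      · obtain ⟨h1, h2, h3⟩ := hY y hy
        obtain ⟨X, hX, hyX, _⟩ := exists_atypical hV hVp h1 h2 h3
        exact ⟨X, fun _ => ⟨hX, hyX⟩⟩
      · exact ⟨∅, fun h => absurd h hy⟩
    choose F hF using hex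
    refine (Finset.finite_toSet (Y.image F)).subset ?_
    intro X hX
    have hX' : IsMaxAtypical V X := hX
    obtain ⟨h1, h2, h3, h4⟩ := atypical_props hV hVp hX'.1
    obtain ⟨y, hy, hyX⟩ := hY' (vanI X) h2 h3 h4
    have h5 : X ⊆ F y := by
      rw [← h1]
      exact (Zt_anti hyX).trans (hF y hy).2
    have h6 := hX'.2 (F y) (hF y hy).1 h5
    rw [← h6]
    exact Finset.mem_coe.mpr (Finset.mem_image_of_mem _ hy)

end Max

section Variety

variable {n : ℕ} {V : Set (Fin n → ℂ)}

theorem IsVariety.cl (h : IsVariety V) : Cl V := by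
  obtain ⟨⟨S, hS⟩, _⟩ := h
  refine ⟨fun x hx => ?_, ?_⟩
  · rw [hS] at hx
    exact hx.1
  · intro x hx
    rw [hS]
    refine ⟨hx.1, fun p hp => hx.2 p ?_⟩
    rw [mem_vanI]
    intro y hy
    rw [hS] at hy
    exact hy.2 p hp

theorem IsVariety.tp (h : IsVariety V) : TP (vanI V) := TP_vanI h.cl.1 h.2

end Variety

section Lines

/-- The generic point of the power of the line. -/
noncomputable def lw (r : ℕ) : Fin (r + r) → FractionRing (MvPolynomial (Fin r) ℂ) :=
  Fin.append (fun j => algebraMap (MvPolynomial (Fin r) ℂ) _ (X j))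
    (fun j => algebraMap (MvPolynomial (Fin r) ℂ) _ (1 - X j))

theorem vanI_linePower (r : ℕ) : vanI (linePower r) = kr ℂ (lw r) := by
  classical
  let g : Fin (r + r) → MvPolynomial (Fin r) ℂ := Fin.append (fun j => X j) (fun j => 1 - X j)
  have hg : ∀ i, algebraMap (MvPolynomial (Fin r) ℂ) (FractionRing (MvPolynomial (Fin r) ℂ)) (g i) =
      lw r i := by
    intro i
    refine Fin.addCases (fun j => ?_) (fun j => ?_) i
    · simp only [g, lw, Fin.append_left]
    · simp only [g, lw, Fin.append_right]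
  have h1 : ∀ f : MvPolynomial (Fin (r + r)) ℂ, aeval (lw r) f =
      algebraMap (MvPolynomial (Fin r) ℂ) _ (aeval g f) := by
    intro f
    have h : (aeval (lw r) : MvPolynomial (Fin (r + r)) ℂ →ₐ[ℂ] _) =
        (IsScalarTower.toAlgHom ℂ (MvPolynomial (Fin r) ℂ)
          (FractionRing (MvPolynomial (Fin r) ℂ))).comp (aeval g) := by
      ext i
      simp [hg]
    rw [h]
    rfl
  have h2 : ∀ (f : MvPolynomial (Fin (r + r)) ℂ) (u : Fin r → ℂ),
      MvPolynomial.eval u (aeval g f) =
        MvPolynomial.eval (Fin.append u (fun j => 1 - u j)) f := by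
    intro f u
    have h : ((MvPolynomial.aeval u : MvPolynomial (Fin r) ℂ →ₐ[ℂ] ℂ).comp (aeval g)) =
        (MvPolynomial.aeval (Fin.append u (fun j => 1 - u j)) :
          MvPolynomial (Fin (r + r)) ℂ →ₐ[ℂ] ℂ) := by
      ext i
      rw [AlgHom.comp_apply, aeval_X, aeval_X]
      refine Fin.addCases (fun j => ?_) (fun j => ?_) i
      · simp only [g, Fin.append_left, aeval_X]
      · simp only [g, Fin.append_right, map_sub, map_one, aeval_X]
    exact DFunLike.congr_fun h f
  ext f
  rw [mem_vanI, mem_kr, h1, FaithfulSMul.algebraMap_eq_zero_iff]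
  constructor
  · intro hf
    have h3 : aeval g f * ∏ j : Fin r, (X j * (1 - X j)) = 0 := by
      refine MvPolynomial.funext fun u => ?_
      rw [map_mul, map_prod, map_zero]
      by_cases hu : ∀ j, u j ≠ 0 ∧ 1 - u j ≠ 0
      · rw [h2, hf, zero_mul]
        refine ⟨fun i => ?_, fun j => ?_⟩
        · refine Fin.addCases (fun j => ?_) (fun j => ?_) i
          · rw [Fin.append_left]
            exact (hu j).1
          · rw [Fin.append_right]
            exact (hu j).2
        · rw [Fin.append_left, Fin.append_right]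
          ring
      · have : ∃ j, u j * (1 - u j) = 0 := by
          by_contra hcon
          push Not at hcon
          exact hu fun j => ⟨left_ne_zero_of_mul (hcon j), right_ne_zero_of_mul (hcon j)⟩
        obtain ⟨j, hj⟩ := this
        rw [Finset.prod_eq_zero (Finset.mem_univ j), mul_zero]
        rw [map_mul, map_sub, map_one, eval_X, hj]
    refine (mul_eq_zero.mp h3).resolve_right (Finset.prod_ne_zero_iff.mpr fun j _ => ?_)
    refine mul_ne_zero (X_ne_zero j) ?_
    intro h
    have h4 := congrArg (MvPolynomial.eval (0 : Fin r → ℂ)) h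
    rw [map_sub, map_one, eval_X, map_zero] at h4
    simp at h4
  · intro hf y hy
    have h3 : y = Fin.append (fun j => y (Fin.castAdd r j))
        (fun j => 1 - y (Fin.castAdd r j)) := by
      funext i
      refine Fin.addCases (fun j => ?_) (fun j => ?_) i
      · rw [Fin.append_left]
      · rw [Fin.append_right, ← hy.2 j]
        ring
    rw [h3, ← h2, hf, map_zero]

theorem dm_linePower (r : ℕ) : dm (kr ℂ (lw r)) = r := by
  have h1 := dm_kr (k := ℂ) (lw r)
  set T : Set (FractionRing (MvPolynomial (Fin r) ℂ)) := Set.range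
    (fun j : Fin r => algebraMap (MvPolynomial (Fin r) ℂ) _ (X j)) with hT
  have h2 : rk ℂ T = r := by
    have := rk_range_of_indep (k := ℂ) _ (algebraicIndependent_X_fraction (σ := Fin r) (K := ℂ))
    rwa [Fintype.card_fin] at this
  have h3 : rk ℂ (Set.range (lw r)) = rk ℂ T := by
    refine le_antisymm ?_ ?_
    · refine rk_le_of_algebraic ?_
      have key : ∀ a ∈ Algebra.adjoin ℂ T, IsAlgebraic (Algebra.adjoin ℂ T) a := fun a ha =>
        isAlgebraic_algebraMap (⟨a, ha⟩ : Algebra.adjoin ℂ T)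
      rintro _ ⟨i, rfl⟩
      apply key
      refine Fin.addCases (fun j => ?_) (fun j => ?_) i
      · unfold lw
        rw [Fin.append_left]
        exact Algebra.subset_adjoin ⟨j, rfl⟩
      · unfold lw
        rw [Fin.append_right, map_sub, map_one]
        exact sub_mem (one_mem _) (Algebra.subset_adjoin ⟨j, rfl⟩)
    · refine rk_mono ?_
      rintro _ ⟨j, rfl⟩
      refine ⟨Fin.castAdd r j, ?_⟩
      unfold lw
      rw [Fin.append_left]
  rw [h3, h2] at h1
  exact_mod_cast h1

theorem isVariety_linePower (r : ℕ) : IsVariety (linePower r) := by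
  refine ⟨⟨Set.range fun j : Fin r => X (Fin.castAdd r j) + X (Fin.natAdd r j) - 1, ?_⟩, ?_⟩
  · ext y
    constructor
    · rintro ⟨h1, h2⟩
      refine ⟨h1, ?_⟩
      rintro _ ⟨j, rfl⟩
      simp only [map_sub, map_add, eval_X, map_one]
      rw [h2 j, sub_self]
    · rintro ⟨h1, h2⟩
      refine ⟨h1, fun j => ?_⟩
      have := h2 _ ⟨j, rfl⟩
      simp only [map_sub, map_add, eval_X, map_one] at this
      exact sub_eq_zero.mp this
  · change (vanI (linePower r)).IsPrime
    rw [vanI_linePower]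
    infer_instance

theorem finL_of_finite (r : ℕ) (h : {X | IsMaxAtypical (linePower r) X}.Finite) : FinL r := by
  have hV := isVariety_linePower r
  have hdm : dm (vanI (linePower r)) = r := by
    rw [vanI_linePower, dm_linePower]
  obtain ⟨Y, hY, hY'⟩ := (finite_iff hV.cl hV.2).mp h
  rw [hdm] at hY hY'
  refine ⟨Y, ?_, ?_⟩
  · intro y hy
    obtain ⟨h1, h2, h3⟩ := hY y hy
    refine ⟨h1, ?_, h3⟩
    refine le_trans ?_ h2
    unfold LI
    rw [Ideal.span_le]
    rintro _ ⟨j, rfl⟩
    rw [SetLike.mem_coe, mem_vanI]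
    intro y hy
    simp only [map_sub, map_add, eval_X, map_one]
    rw [hy.2 j, sub_self]
  · intro q hq hLq hdim
    refine hY' q hq ?_ hdim
    rw [← vanI_Zt hq]
    refine vanI_anti ?_
    intro y hy
    refine ⟨hy.1, fun j => ?_⟩
    have := hy.2 _ (hLq (Ideal.subset_span ⟨j, rfl⟩))
    simp only [map_sub, map_add, eval_X, map_one] at this
    exact sub_eq_zero.mp this

end Lines

/-- The equivalence. -/
theorem main : List.TFAE [
    ZilberCIT,
    ∀ (n : ℕ) (V : Set (Fin n → ℂ)), IsVariety V → {X | IsMaxAtypical V X}.Finite,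
    ∀ r : ℕ, {X | IsMaxAtypical (linePower r) X}.Finite] := by
  tfae_have 1 → 2 := by
    intro hZ n V hV
    rw [finite_iff hV.cl hV.2]
    exact finA_of_cit (fun n p hp => cit_of_zilber hZ p hp) (vanI V) hV.tp
  tfae_have 2 → 3 := fun h r => h _ _ (isVariety_linePower r)
  tfae_have 3 → 1 := by
    intro h
    exact zilber_of_cit fun n p hp => cit_of_lines (fun r => finL_of_finite r (h r)) p hp
  tfae_finish

end Pool.Agent.CITLines
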