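import Pool.Agent.CITLines.Cut
import Pool.Agent.CITLines.Coord

set_option autoImplicit false

/-!
The two inductions on the dimension.
-/

namespace Pool.Agent.CITLines

open MvPolynomial Module

/-- The conjecture for a variety, for ideals. -/
def CITi {ι : Type} [Fintype ι] (p : Ideal (MvPolynomial ι ℂ)) : Prop :=
  ∃ L : Finset ((ι → ℤ) × ℂ), (∀ x ∈ L, x.1 ≠ 0 ∧ RU x.2) ∧
    ∀ q : Ideal (MvPolynomial ι ℂ), TP q → p ≤ q → dm p < dm q + rhoP q →
      ∃ x ∈ L, binom ℂ x.1 x.2 ∈ q

/-- Finitely many maximal atypical subvarieties, for ideals. -/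
def FinA {ι : Type} [Fintype ι] (p : Ideal (MvPolynomial ι ℂ)) : Prop :=
  ∃ Y : Finset (Ideal (MvPolynomial ι ℂ)), (∀ y ∈ Y, TP y ∧ p ≤ y ∧ dm p < dm y + rhoP y) ∧
    ∀ q : Ideal (MvPolynomial ι ℂ), TP q → p ≤ q → dm p < dm q + rhoP q → ∃ y ∈ Y, y ≤ q

/-- A nonzero relation of a variety with relations. -/
theorem exists_rel {ι : Type} [Fintype ι] {p : Ideal (MvPolynomial ι ℂ)} (hp : TP p)
    (h : QP p ≠ ⊥) : ∃ (a : ι → ℤ) (ζ : ℂ), a ≠ 0 ∧ RU ζ ∧ binom ℂ a ζ ∈ p := by
  have h1 : ∃ a ∈ relSet p, a ≠ 0 := by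
    by_contra hcon
    push Not at hcon
    apply h
    unfold QP
    rw [Submodule.span_eq_bot]
    rintro _ ⟨a, ha, rfl⟩
    rw [cst_eq_zero]
    exact hcon a ha
  obtain ⟨a, ha, ha0⟩ := h1
  obtain ⟨ζ, hζ, hb⟩ := (hp.cst_mem_QP a).mp (Submodule.subset_span ⟨a, ha, rfl⟩)
  exact ⟨a, ζ, ha0, hζ, hb⟩

/-- The first induction. -/
theorem cit_of_lines (hL : ∀ r, FinL r) {ι : Type} [Fintype ι] (p : Ideal (MvPolynomial ι ℂ))
    (hp : TP p) : CITi p := by
  classical
  have key : ∀ (d : ℕ) (p : Ideal (MvPolynomial ι ℂ)), TP p → dm p ≤ d → CITi p := by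
    intro d
    induction d using Nat.strong_induction_on with
    | _ d ih =>
      intro p hp hd
      have hpp := hp.prime
      by_cases hfree : QP p = ⊥
      · by_cases hbot : p = ⊥
        · refine ⟨∅, by simp, ?_⟩
          intro q hq _ hdim
          exfalso
          have h1 := dm_add_rhoP_le hq
          have h2 : Fintype.card ι ≤ dm p := by
            rw [hbot]
            have h3 : ringKrullDim (MvPolynomial ι ℂ ⧸ (⊥ : Ideal (MvPolynomial ι ℂ))) =
                (Fintype.card ι : WithBot ℕ∞) := by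
              rw [ringKrullDim_eq_of_ringEquiv (RingEquiv.quotientBot (MvPolynomial ι ℂ))]
              exact ringKrullDim_mvPoly ℂ
            exact (dm_eq_of h3).ge
          omega
        · obtain ⟨G, hG, hG'⟩ := cut hL p hp hfree hbot
          have hfin : ((p ⊔ Ideal.span {G}).minimalPrimes).Finite :=
            Ideal.finite_minimalPrimes_of_isNoetherianRing _ _
          have hstep : ∀ w : Ideal (MvPolynomial ι ℂ), ∃ L : Finset ((ι → ℤ) × ℂ),
              w ∈ (p ⊔ Ideal.span {G}).minimalPrimes →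
              (∀ x ∈ L, x.1 ≠ 0 ∧ RU x.2) ∧
              ∀ q : Ideal (MvPolynomial ι ℂ), TP q → w ≤ q → dm p < dm q + rhoP q →
                ∃ x ∈ L, binom ℂ x.1 x.2 ∈ q := by
            intro w
            by_cases hw : w ∈ (p ⊔ Ideal.span {G}).minimalPrimes ∧ TP w
            · obtain ⟨hw, hwT⟩ := hw
              have hwp := hwT.prime
              have hpw : p ≤ w := le_sup_left.trans hw.le
              have hlt : p < w := by
                refine lt_of_le_of_ne hpw fun h => hG ?_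
                rw [h]
                exact hw.le (Ideal.mem_sup_right (Ideal.mem_span_singleton_self G))
              have h1 := dm_strictAnti hlt
              obtain ⟨L, hL1, hL2⟩ := ih (dm w) (by omega) w hwT le_rfl
              exact ⟨L, fun _ => ⟨hL1, fun q hq hwq hdim => hL2 q hq hwq (by omega)⟩⟩
            · refine ⟨∅, fun hw' => ⟨by simp, fun q hq hwq _ => ?_⟩⟩
              exact absurd ⟨hw', hq.mono hw'.isPrime hwq⟩ hw
          choose L hL' using hstep
          refine ⟨hfin.toFinset.biUnion L, ?_, ?_⟩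
          · intro x hx
            obtain ⟨w, hw, hxw⟩ := Finset.mem_biUnion.mp hx
            exact (hL' w (hfin.mem_toFinset.mp hw)).1 x hxw
          · intro q hq hpq hdim
            have hGq : G ∈ q := hG' q hq hpq hdim
            have hqp := hq.prime
            have h1 : p ⊔ Ideal.span {G} ≤ q :=
              sup_le hpq ((Ideal.span_singleton_le_iff_mem q).mpr hGq)
            obtain ⟨w, hw, hwq⟩ := Ideal.exists_minimalPrimes_le h1
            obtain ⟨x, hx, hxq⟩ := (hL' w hw).2 q hq hwq hdim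
            exact ⟨x, Finset.mem_biUnion.mpr ⟨w, hfin.mem_toFinset.mpr hw, hx⟩, hxq⟩
      · obtain ⟨a, ζ, ha, hζ, hb⟩ := exists_rel hp hfree
        refine ⟨{(a, ζ)}, ?_, ?_⟩
        · intro x hx
          rw [Finset.mem_singleton] at hx
          subst hx
          exact ⟨ha, hζ⟩
        · intro q _ hpq _
          exact ⟨(a, ζ), Finset.mem_singleton_self _, hpq hb⟩
  exact key (dm p) p hp le_rfl

/-- A relation independent of those of the variety. -/
theorem weak_step (hC : ∀ (n : ℕ) (p : Ideal (MvPolynomial (Fin n) ℂ)), TP p → CITi p)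
    {ι : Type} [Fintype ι] (p : Ideal (MvPolynomial ι ℂ)) (hp : TP p) :
    ∃ L : Finset ((ι → ℤ) × ℂ), (∀ x ∈ L, cst x.1 ∉ QP p) ∧
      ∀ q : Ideal (MvPolynomial ι ℂ), TP q → p ≤ q → dm p + rhoP p < dm q + rhoP q →
        ∃ x ∈ L, RU x.2 ∧ binom ℂ x.1 x.2 ∈ q := by
  classical
  obtain ⟨k, e, he, hk, h0, h⟩ := exists_coords (QP p)
  obtain ⟨L, hL1, hL2⟩ := hC k (rs e p) (TP_rs e hp)
  refine ⟨L.image (fun x => (Function.extend e x.1 0, x.2)), ?_, ?_⟩
  · intro x hx hmem
    obtain ⟨y, hy, rfl⟩ := Finset.mem_image.mp hx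
    simp only at hmem
    have h1 : cst (Function.extend e y.1 0) = Function.extend e (cst y.1) 0 := by
      rw [cst_extend e he]
      rfl
    rw [h1] at hmem
    exact (hL1 y hy).1 (cst_eq_zero.mp (h0 _ hmem))
  · intro q hq hpq hdim
    have hU : QP p ≤ QP q := QP_mono hpq
    have h1 := dm_rs e he hp (QP p) le_rfl h
    have h2 := dm_rs e he hq (QP p) hU h
    have h3 := rhoP_rs e he hq (QP p) hU h0 h
    have h4 : rhoP p = finrank ℚ (QP p) := rfl
    obtain ⟨x, hx, hxq⟩ := hL2 (rs e q) (TP_rs e hq) (rs_mono e hpq) (by omega)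
    exact ⟨_, Finset.mem_image_of_mem _ hx, (hL1 x hx).2, (binom_mem_rs e he hq _ _).mp hxq⟩

/-- The second induction: finitely many minimal primes with excess. -/
theorem fin_of_cit (hC : ∀ (n : ℕ) (p : Ideal (MvPolynomial (Fin n) ℂ)), TP p → CITi p)
    {ι : Type} [Fintype ι] (p : Ideal (MvPolynomial ι ℂ)) (hp : TP p) :
    ∃ Y : Finset (Ideal (MvPolynomial ι ℂ)),
      (∀ y ∈ Y, TP y ∧ p ≤ y ∧ dm p + rhoP p < dm y + rhoP y) ∧
      ∀ q : Ideal (MvPolynomial ι ℂ), TP q → p ≤ q → dm p + rhoP p < dm q + rhoP q →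
        ∃ y ∈ Y, y ≤ q := by
  classical
  have key : ∀ (d : ℕ) (p : Ideal (MvPolynomial ι ℂ)), TP p → dm p ≤ d →
      ∃ Y : Finset (Ideal (MvPolynomial ι ℂ)),
      (∀ y ∈ Y, TP y ∧ p ≤ y ∧ dm p + rhoP p < dm y + rhoP y) ∧
      ∀ q : Ideal (MvPolynomial ι ℂ), TP q → p ≤ q → dm p + rhoP p < dm q + rhoP q →
        ∃ y ∈ Y, y ≤ q := by
    intro d
    induction d using Nat.strong_induction_on with
    | _ d ih =>
      intro p hp hd
      have hpp := hp.prime
      obtain ⟨L, hL1, hL2⟩ := weak_step hC p hp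
      have hfin : ∀ x : (ι → ℤ) × ℂ,
          ((p ⊔ Ideal.span {binom ℂ x.1 x.2}).minimalPrimes).Finite :=
        fun x => Ideal.finite_minimalPrimes_of_isNoetherianRing _ _
      have hstep : ∀ w : Ideal (MvPolynomial ι ℂ), ∃ Y : Finset (Ideal (MvPolynomial ι ℂ)),
          (∀ y ∈ Y, TP y ∧ p ≤ y ∧ dm p + rhoP p < dm y + rhoP y) ∧
          ∀ x ∈ L, w ∈ (p ⊔ Ideal.span {binom ℂ x.1 x.2}).minimalPrimes →
          ∀ q : Ideal (MvPolynomial ι ℂ), TP q → RU x.2 → w ≤ q →
            dm p + rhoP p < dm q + rhoP q → ∃ y ∈ Y, y ≤ q := by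
        intro w
        by_cases hw : ∃ x ∈ L, w ∈ (p ⊔ Ideal.span {binom ℂ x.1 x.2}).minimalPrimes ∧ TP w ∧
            RU x.2
        · obtain ⟨x, hx, hw, hwT, hRU⟩ := hw
          have hwp := hwT.prime
          have hpw : p ≤ w := le_sup_left.trans hw.le
          have hbw : binom ℂ x.1 x.2 ∈ w :=
            hw.le (Ideal.mem_sup_right (Ideal.mem_span_singleton_self _))
          have hcw : cst x.1 ∈ QP w := (hwT.cst_mem_QP _).mpr ⟨_, hRU, hbw⟩
          have hrho : rhoP p < rhoP w := by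
            refine Submodule.finrank_lt_finrank_of_lt ?_
            refine lt_of_le_of_ne (QP_mono hpw) fun h => hL1 x hx ?_
            rw [h]
            exact hcw
          have hlt : p < w := by
            refine lt_of_le_of_ne hpw fun h => hL1 x hx ?_
            rw [h]
            exact hcw
          have h1 := dm_strictAnti hlt
          have h2 : dm p ≤ dm w + 1 := by
            have := dm_le_dm_add_card p {binom ℂ x.1 x.2} w (by
              rw [Finset.coe_singleton]
              exact hw)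
            rwa [Finset.card_singleton] at this
          by_cases h3 : dm p + rhoP p < dm w + rhoP w
          · refine ⟨{w}, ?_, ?_⟩
            · intro y hy
              rw [Finset.mem_singleton] at hy
              subst hy
              exact ⟨hwT, hpw, h3⟩
            · intro _ _ _ q _ _ hwq _
              exact ⟨w, Finset.mem_singleton_self w, hwq⟩
          · obtain ⟨Y, hY1, hY2⟩ := ih (dm w) (by omega) w hwT le_rfl
            refine ⟨Y, ?_, ?_⟩
            · intro y hy
              obtain ⟨hyT, hwy, hdy⟩ := hY1 y hy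
              exact ⟨hyT, hpw.trans hwy, by omega⟩
            · intro _ _ _ q hq _ hwq hdim
              exact hY2 q hq hwq (by omega)
        · refine ⟨∅, by simp, ?_⟩
          intro x hx hw' q hq hRU hwq _
          exact absurd ⟨x, hx, hw', hq.mono hw'.isPrime hwq, hRU⟩ hw
      choose Y hY1 hY2 using hstep
      refine ⟨L.biUnion fun x => (hfin x).toFinset.biUnion Y, ?_, ?_⟩
      · intro y hy
        obtain ⟨x, _, hy⟩ := Finset.mem_biUnion.mp hy
        obtain ⟨w, _, hy⟩ := Finset.mem_biUnion.mp hy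
        exact hY1 w y hy
      · intro q hq hpq hdim
        have hqp := hq.prime
        obtain ⟨x, hx, hRU, hxq⟩ := hL2 q hq hpq hdim
        have h1 : p ⊔ Ideal.span {binom ℂ x.1 x.2} ≤ q :=
          sup_le hpq ((Ideal.span_singleton_le_iff_mem q).mpr hxq)
        obtain ⟨w, hw, hwq⟩ := Ideal.exists_minimalPrimes_le h1
        obtain ⟨y, hy, hyq⟩ := hY2 w x hx hw q hq hRU hwq hdim
        exact ⟨y, Finset.mem_biUnion.mpr ⟨x, hx, Finset.mem_biUnion.mpr
          ⟨w, (hfin x).mem_toFinset.mpr hw, hy⟩⟩, hyq⟩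
  exact key (dm p) p hp le_rfl

/-- The conjecture for all varieties gives finitely many maximal atypical subvarieties. -/
theorem finA_of_cit (hC : ∀ (n : ℕ) (p : Ideal (MvPolynomial (Fin n) ℂ)), TP p → CITi p)
    {ι : Type} [Fintype ι] (p : Ideal (MvPolynomial ι ℂ)) (hp : TP p) : FinA p := by
  by_cases h : rhoP p = 0
  · obtain ⟨Y, hY1, hY2⟩ := fin_of_cit hC p hp
    rw [h, add_zero] at hY1 hY2
    exact ⟨Y, hY1, hY2⟩
  · refine ⟨{p}, ?_, ?_⟩
    · intro y hy
      rw [Finset.mem_singleton] at hy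
      subst hy
      exact ⟨hp, le_rfl, by omega⟩
    · intro q _ hpq _
      exact ⟨p, Finset.mem_singleton_self p, hpq⟩

end Pool.Agent.CITLines
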