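import Pool.Agent.CITLines.Rel

set_option autoImplicit false

/-!
Lifting primes along parametrised families of points.
-/

namespace Pool.Agent.CITLines

open MvPolynomial Module

variable {ι1 ι2 σ : Type}

/-- The lift of a prime. -/
noncomputable def lift (W : ι2 → MvPolynomial σ (MvPolynomial ι1 ℂ))
    (q : Ideal (MvPolynomial ι1 ℂ)) : Ideal (MvPolynomial ι2 ℂ) :=
  (q.map (C : MvPolynomial ι1 ℂ →+* MvPolynomial σ (MvPolynomial ι1 ℂ))).comap
    (aeval W : MvPolynomial ι2 ℂ →ₐ[ℂ] MvPolynomial σ (MvPolynomial ι1 ℂ))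

theorem mem_lift {W : ι2 → MvPolynomial σ (MvPolynomial ι1 ℂ)} {q : Ideal (MvPolynomial ι1 ℂ)}
    {P : MvPolynomial ι2 ℂ} : P ∈ lift W q ↔ ∀ m, coeff m (aeval W P) ∈ q := by
  unfold lift
  rw [Ideal.mem_comap, MvPolynomial.mem_map_C_iff]

theorem lift_mono {W : ι2 → MvPolynomial σ (MvPolynomial ι1 ℂ)}
    {p q : Ideal (MvPolynomial ι1 ℂ)} (h : p ≤ q) : lift W p ≤ lift W q := by
  intro P hP
  rw [mem_lift] at *
  exact fun m => h (hP m)

/-- Coefficient extraction. -/
theorem exists_extract {W : ι2 → MvPolynomial σ (MvPolynomial ι1 ℂ)}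
    {p : Ideal (MvPolynomial ι1 ℂ)} {P : MvPolynomial ι2 ℂ} (hP : P ∉ lift W p) :
    ∃ G, G ∉ p ∧ ∀ q : Ideal (MvPolynomial ι1 ℂ), P ∈ lift W q → G ∈ q := by
  rw [mem_lift] at hP
  push Not at hP
  obtain ⟨m, hm⟩ := hP
  exact ⟨_, hm, fun q hq => mem_lift.mp hq m⟩

section Generic

variable (W : ι2 → MvPolynomial σ (MvPolynomial ι1 ℂ)) (q : Ideal (MvPolynomial ι1 ℂ))
  [hq : q.IsPrime]

/-- The ambient field of the lifted generic point. -/
abbrev Kl (σ : Type) (q : Ideal (MvPolynomial ι1 ℂ)) [q.IsPrime] : Type :=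
  FractionRing (MvPolynomial σ (Kf q))

/-- Reduction of the coefficients to the function field. -/
noncomputable def red (σ : Type) (q : Ideal (MvPolynomial ι1 ℂ)) :
    MvPolynomial σ (MvPolynomial ι1 ℂ) →ₐ[ℂ] MvPolynomial σ (Kf q) :=
  MvPolynomial.mapAlgHom (aeval (gen q))

omit hq in
theorem red_C (f : MvPolynomial ι1 ℂ) : red σ q (C f) = C (aeval (gen q) f) := by
  simp [red]

omit hq in
theorem red_X (i : σ) : red σ q (X i) = X i := by
  simp [red]

theorem red_eq_zero_iff (f : MvPolynomial σ (MvPolynomial ι1 ℂ)) :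
    red σ q f = 0 ↔ ∀ m, coeff m f ∈ q := by
  rw [MvPolynomial.ext_iff]
  refine forall_congr' fun m => ?_
  have h1 : coeff m (red σ q f) = aeval (gen q) (coeff m f) := by
    simp [red, MvPolynomial.coeff_map]
  rw [h1, coeff_zero, ← mem_kr, kr_gen]

/-- The generic point of the lift, in the polynomial ring over the function field. -/
noncomputable def wp (i : ι2) : MvPolynomial σ (Kf q) := red σ q (W i)

/-- The generic point of the lift. -/
noncomputable def wl (i : ι2) : Kl σ q := algebraMap (MvPolynomial σ (Kf q)) (Kl σ q) (wp W q i)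

theorem aeval_wl (P : MvPolynomial ι2 ℂ) :
    aeval (wl W q) P = algebraMap (MvPolynomial σ (Kf q)) (Kl σ q) (red σ q (aeval W P)) := by
  have h : (aeval (wl W q) : MvPolynomial ι2 ℂ →ₐ[ℂ] Kl σ q) =
      (IsScalarTower.toAlgHom ℂ (MvPolynomial σ (Kf q)) (Kl σ q)).comp
        ((red σ q).comp (aeval W)) := by
    ext i
    simp [wl, wp]
  rw [h]
  rfl

theorem lift_eq_kr : lift W q = kr ℂ (wl W q) := by
  ext P
  rw [mem_kr, aeval_wl, FaithfulSMul.algebraMap_eq_zero_iff, red_eq_zero_iff, mem_lift]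

instance : (lift W q).IsPrime := by
  rw [lift_eq_kr]
  infer_instance

theorem wl_ne_zero {i : ι2} (h : wp W q i ≠ 0) : wl W q i ≠ 0 := by
  intro h0
  apply h
  exact (FaithfulSMul.algebraMap_eq_zero_iff _ _).mp h0

/-- A specialisation killing exactly one coordinate shows that it does not occur in relations. -/
theorem exponent_eq_zero [Fintype ι2] (hne : ∀ i, wp W q i ≠ 0) {A : Type} [CommRing A]
    [IsDomain A] (θ : MvPolynomial σ (Kf q) →+* A) (i : ι2) (hi : θ (wp W q i) = 0)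
    (hθ : ∀ j, j ≠ i → θ (wp W q j) ≠ 0) (a : ι2 → ℤ) (ha : a ∈ relZ (wl W q)) : a i = 0 := by
  classical
  obtain ⟨m, hm, h1⟩ := mem_relZ.mp ha
  have hw : ∀ i, wl W q i ≠ 0 := fun i => wl_ne_zero W q (hne i)
  have h2 : mon (wl W q) ((m : ℤ) • a) = 1 := by
    rw [mon_smul, zpow_natCast, h1]
  rw [mon_eq_div hw, div_eq_one_iff_eq (Finset.prod_ne_zero_iff.mpr fun i _ =>
    pow_ne_zero _ (hw i))] at h2
  have h3 : ∏ j, wp W q j ^ (((m : ℤ) • a) j).toNat = ∏ j, wp W q j ^ (-((m : ℤ) • a) j).toNat := by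
    apply FaithfulSMul.algebraMap_injective (MvPolynomial σ (Kf q)) (Kl σ q)
    rw [map_prod, map_prod]
    simp only [map_pow]
    exact h2
  have h4 := congrArg θ h3
  rw [map_prod, map_prod] at h4
  simp only [map_pow] at h4
  by_contra hai
  have hmi : ((m : ℤ) • a) i ≠ 0 := by
    rw [Pi.smul_apply, smul_eq_mul]
    exact mul_ne_zero (by exact_mod_cast hm.ne') hai
  rcases lt_or_gt_of_ne hmi with h5 | h5
  · have hz : ∏ j, θ (wp W q j) ^ (-((m : ℤ) • a) j).toNat = 0 := by
      refine Finset.prod_eq_zero (Finset.mem_univ i) ?_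
      rw [hi, zero_pow]
      omega
    rw [hz] at h4
    refine absurd h4 (Finset.prod_ne_zero_iff.mpr fun j _ => ?_)
    by_cases hj : j = i
    · subst hj
      have : (((m : ℤ) • a) j).toNat = 0 := by omega
      rw [this, pow_zero]
      exact one_ne_zero
    · exact pow_ne_zero _ (hθ j hj)
  · have hz : ∏ j, θ (wp W q j) ^ (((m : ℤ) • a) j).toNat = 0 := by
      refine Finset.prod_eq_zero (Finset.mem_univ i) ?_
      rw [hi, zero_pow]
      omega
    rw [hz] at h4
    refine absurd h4.symm (Finset.prod_ne_zero_iff.mpr fun j _ => ?_)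
    by_cases hj : j = i
    · subst hj
      have : (-((m : ℤ) • a) j).toNat = 0 := by omega
      rw [this, pow_zero]
      exact one_ne_zero
    · exact pow_ne_zero _ (hθ j hj)

end Generic

end Pool.Agent.CITLines
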