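import Pool.Agent.CITLines.Chain

set_option autoImplicit false

/-!
The second lift: parametrisation of the linearised system.
-/

namespace Pool.Agent.CITLines

open MvPolynomial Module

section Potential

variable {J : Type} {len : J → ℕ} {K : Type} [CommRing K]

/-- The linear part of an auxiliary coordinate. -/
noncomputable def li (K : Type) [CommRing K] (l : Lk len) : Sel → MvPolynomial (Lk len) K
  | Sel.a => X l
  | Sel.b => X l
  | Sel.c => X l + X (nx l)

theorem li_map {K' : Type} [CommRing K'] (f : K →+* K') (l : Lk len) (s : Sel) :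
    MvPolynomial.map f (li K l s) = li K' l s := by
  cases s <;> simp [li]

theorem aeval_rename_inl {L : Type} [CommRing L]
    (g : Lk len ⊕ J → MvPolynomial (Lk len ⊕ J) L)
    (hg : ∀ l, g (Sum.inl l) = X (Sum.inl l)) (f : MvPolynomial (Lk len) L) :
    aeval g (rename Sum.inl f : MvPolynomial (Lk len ⊕ J) L) = rename Sum.inl f := by
  rw [aeval_rename]
  have : g ∘ Sum.inl = X ∘ Sum.inl := funext hg
  rw [this]
  induction f using MvPolynomial.induction_on with
  | C a => simp
  | add p q hp hq => rw [map_add, map_add, hp, hq]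
  | mul_X p i hp => rw [map_mul, map_mul, hp, aeval_X, rename_X]; rfl

/-- The potentials are pairwise distinct. -/
theorem pot_ne {L : Type} [Field L] (v : Lk len → Sel → L)
    (hv : ∀ l, v l Sel.a ≠ v l Sel.b) (l l' : Lk len) (s s' : Sel) (h : (l, s) ≠ (l', s')) :
    li L l s + C (v l s) ≠ li L l' s' + C (v l' s') := by
  classical
  intro he
  have ev0 : ∀ (l : Lk len) (s : Sel), aeval (0 : Lk len → L) (li L l s + C (v l s)) = v l s := by
    intro l s
    cases s <;> simp [li]
  have hvv : v l s = v l' s' := by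
    rw [← ev0 l s, he, ev0]
  rw [hvv] at he
  have he' := add_right_cancel he
  have ev : ∀ (k : Lk len) (l : Lk len) (s : Sel),
      aeval (fun x : Lk len => if x = k then (1 : L) else 0) (li L l s) =
        (if l = k then 1 else 0) + (if s = Sel.c ∧ nx l = k then 1 else 0) := by
    intro k l s
    cases s <;> simp [li]
  have hc : ∀ k, ((if l = k then (1 : L) else 0) + (if s = Sel.c ∧ nx l = k then 1 else 0)) =
      (if l' = k then 1 else 0) + (if s' = Sel.c ∧ nx l' = k then 1 else 0) := by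
    intro k
    rw [← ev, ← ev, he']
  by_cases hll : l = l'
  · subst hll
    have h1 := hc (nx l)
    rw [if_neg (nx_ne l).symm, zero_add, zero_add] at h1
    simp only [and_true] at h1
    cases s <;> cases s' <;> first | exact h rfl | exact hv l hvv | exact hv l hvv.symm | simp at h1
  · have h1 := hc l
    have h2 := hc l'
    rw [if_pos rfl, if_neg (fun h : s = Sel.c ∧ nx l = l => nx_ne l h.2),
      if_neg (fun h : l' = l => hll h.symm), zero_add, add_zero] at h1
    rw [if_neg hll, zero_add, if_pos rfl, if_neg (fun h : s' = Sel.c ∧ nx l' = l' => nx_ne l' h.2),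
      add_zero] at h2
    have h3 : nx l' = l := by
      by_contra hcon
      rw [if_neg (fun h => hcon h.2)] at h1
      exact one_ne_zero h1
    have h4 : nx l = l' := by
      by_contra hcon
      rw [if_neg (fun h => hcon h.2)] at h2
      exact zero_ne_one h2
    exact nx_nx_ne l (by rw [h4, h3])

end Potential

section L2

variable {ι J : Type} [Fintype ι] {len : J → ℕ} (sgn : Lk len → Bool) (ex : Lk len → ι → ℕ)

/-- The constant part of an auxiliary coordinate. -/
def vl {A : Type} [CommRing A] (w : ι → A) (l : Lk len) : Sel → A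
  | Sel.a => Ps sgn ex w l
  | Sel.b => Ps sgn ex w l + tm sgn ex w l
  | Sel.c => Ps sgn ex w l + tm sgn ex w l

/-- The second lift. -/
noncomputable def W2 : Co ι len → MvPolynomial (Lk len ⊕ J) (MvPolynomial ι ℂ)
  | Sum.inl i => C (X i)
  | Sum.inr (Sum.inl l) => X (Sum.inl l)
  | Sum.inr (Sum.inr (l, s)) =>
    X (Sum.inr l.1) + rename Sum.inl (li (MvPolynomial ι ℂ) l s + C (vl sgn ex X l s))

variable (q : Ideal (MvPolynomial ι ℂ)) [q.IsPrime]

omit [q.IsPrime] in
theorem wp_W2_x (i : ι) : wp (W2 sgn ex) q (Sum.inl i) = C (gen q i) := by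
  unfold wp W2
  rw [red_C, aeval_X]

omit [q.IsPrime] in
theorem wp_W2_T (l : Lk len) : wp (W2 sgn ex) q (cT l) = X (Sum.inl l) := by
  unfold wp W2
  exact red_X q _

omit [q.IsPrime] in
theorem wp_W2_U (l : Lk len) (s : Sel) : wp (W2 sgn ex) q (cU l s) =
    X (Sum.inr l.1) + rename Sum.inl (li (Kf q) l s + C (vl sgn ex (gen q) l s)) := by
  unfold wp W2
  rw [map_add, red_X]
  congr 1
  have h1 : red (Lk len ⊕ J) q
      (rename Sum.inl (li (MvPolynomial ι ℂ) l s + C (vl sgn ex X l s))) =
      rename Sum.inl (MvPolynomial.map (aeval (gen q) : MvPolynomial ι ℂ →ₐ[ℂ] Kf q).toRingHom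
        (li (MvPolynomial ι ℂ) l s + C (vl sgn ex X l s))) := by
    rw [← map_rename]
    rfl
  rw [h1, map_add, li_map, map_C]
  congr 3
  have h2 : ∀ i, (aeval (gen q) : MvPolynomial ι ℂ →ₐ[ℂ] Kf q).toRingHom (X i) = gen q i := by
    intro i
    exact aeval_X _ i
  cases s
  · exact (map_Ps sgn ex _ _ l).trans (by simp only [h2]; rfl)
  · exact (map_add _ _ _).trans (congrArg₂ _ ((map_Ps sgn ex _ _ l).trans (by simp only [h2]))
      ((map_tm sgn ex _ _ l).trans (by simp only [h2])))
  · exact (map_add _ _ _).trans (congrArg₂ _ ((map_Ps sgn ex _ _ l).trans (by simp only [h2]))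
      ((map_tm sgn ex _ _ l).trans (by simp only [h2])))

theorem X_inr_add_ne_zero {L : Type} [Field L] (j : J) (f : MvPolynomial (Lk len) L) :
    (X (Sum.inr j) + rename Sum.inl f : MvPolynomial (Lk len ⊕ J) L) ≠ 0 := by
  classical
  apply X_add_ne_zero
  apply aeval_rename_inl
  intro l
  simp

theorem wp_W2_ne_zero (hq : TP q) (i : Co ι len) : wp (W2 sgn ex) q i ≠ 0 := by
  rcases i with i | l | ⟨l, s⟩
  · rw [wp_W2_x]
    exact (map_ne_zero_iff C (C_injective _ _)).mpr (gen_ne_zero q (hq.coord i))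
  · rw [wp_W2_T]
    exact X_ne_zero _
  · rw [wp_W2_U]
    exact X_inr_add_ne_zero _ _

theorem TP_lift2 (hq : TP q) : TP (lift (W2 sgn ex) q) := by
  rw [lift_eq_kr]
  exact TP.kr fun i => wl_ne_zero _ _ (wp_W2_ne_zero sgn ex q hq i)

theorem free_lift2 [Fintype J] (hq : TP q) (hfree : QP q = ⊥) :
    QP (lift (W2 sgn ex) q) = ⊥ := by
  classical
  have hne := wp_W2_ne_zero sgn ex q hq
  have hvne : ∀ l : Lk len, vl sgn ex (gen q) l Sel.a ≠ vl sgn ex (gen q) l Sel.b := by
    intro l h
    have h1 : Ps sgn ex (gen q) l = Ps sgn ex (gen q) l + tm sgn ex (gen q) l := h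
    exact tm_ne_zero sgn ex hq.gen_ne_zero l (left_eq_add.mp h1)
  refine free_of (W2 sgn ex) Sum.inl Sum.inl_injective (fun i => rfl) q hq
    (fun i => wl_ne_zero _ _ (hne i)) hfree ?_
  rintro a ha (i | l | ⟨l, s⟩) hj
  · exact absurd rfl (hj i)
  · -- kill `T l`
    let θ : MvPolynomial (Lk len ⊕ J) (Kf q) →ₐ[Kf q] MvPolynomial (Lk len ⊕ J) (Kf q) :=
      aeval (fun v => if v = Sum.inl l then 0 else X v)
    refine exponent_eq_zero (W2 sgn ex) q hne θ.toRingHom (cT l) ?_ ?_ a ha
    · rw [wp_W2_T]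
      simp [θ]
    · rintro (i' | l' | ⟨l', s'⟩) hj'
      · rw [wp_W2_x]
        change θ (C (gen q i')) ≠ 0
        have : θ (C (gen q i')) = C (gen q i') := by simp [θ]
        rw [this]
        exact (map_ne_zero_iff C (C_injective _ _)).mpr (gen_ne_zero q (hq.coord i'))
      · rw [wp_W2_T]
        change θ (X (Sum.inl l')) ≠ 0
        have h1 : l' ≠ l := fun h => hj' (by rw [h])
        have : θ (X (Sum.inl l')) = X (Sum.inl l') := by simp [θ, h1]
        rw [this]
        exact X_ne_zero _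
      · rw [wp_W2_U]
        change θ (X (Sum.inr l'.1) + rename Sum.inl _) ≠ 0
        have h1 : ∀ f : MvPolynomial (Lk len) (Kf q), θ (rename Sum.inl f) =
            rename Sum.inl (aeval (fun v => if v = l then 0 else X v) f) := by
          intro f
          induction f using MvPolynomial.induction_on with
          | C a => simp [θ]
          | add p q hp hq => rw [map_add, map_add, map_add, map_add, hp, hq]
          | mul_X p i hp =>
            rw [map_mul, map_mul, map_mul, map_mul, hp]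
            congr 1
            rw [rename_X, aeval_X]
            simp only [aeval_X, Sum.inl.injEq]
            split_ifs
            · rw [map_zero]
            · rw [rename_X]
        rw [map_add, h1]
        have : θ (X (Sum.inr l'.1)) = X (Sum.inr l'.1) := by simp [θ]
        rw [this]
        exact X_inr_add_ne_zero _ _
  · -- kill `U l s`
    set P : MvPolynomial (Lk len) (Kf q) := li _ l s + C (vl sgn ex (gen q) l s) with hP
    let g : Lk len ⊕ J → MvPolynomial (Lk len ⊕ J) (Kf q) :=
      fun v => if v = Sum.inr l.1 then - rename Sum.inl P else X v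
    let θ : MvPolynomial (Lk len ⊕ J) (Kf q) →ₐ[Kf q] MvPolynomial (Lk len ⊕ J) (Kf q) :=
      aeval g
    have hθ : ∀ f : MvPolynomial (Lk len) (Kf q), θ (rename Sum.inl f) = rename Sum.inl f :=
      fun f => aeval_rename_inl g (fun l => by simp [g]) f
    refine exponent_eq_zero (W2 sgn ex) q hne θ.toRingHom (cU l s) ?_ ?_ a ha
    · rw [wp_W2_U]
      change θ (X (Sum.inr l.1) + rename Sum.inl _) = 0
      rw [map_add, hθ]
      simp [θ, g, hP]
    · rintro (i' | l' | ⟨l', s'⟩) hj'
      · rw [wp_W2_x]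
        change θ (C (gen q i')) ≠ 0
        have : θ (C (gen q i')) = C (gen q i') := by simp [θ]
        rw [this]
        exact (map_ne_zero_iff C (C_injective _ _)).mpr (gen_ne_zero q (hq.coord i'))
      · rw [wp_W2_T]
        change θ (X (Sum.inl l')) ≠ 0
        have : θ (X (Sum.inl l')) = X (Sum.inl l') := by simp [θ, g]
        rw [this]
        exact X_ne_zero _
      · rw [wp_W2_U]
        change θ (X (Sum.inr l'.1) + rename Sum.inl _) ≠ 0
        rw [map_add, hθ]
        by_cases h1 : l'.1 = l.1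
        · have h2 : θ (X (Sum.inr l'.1)) = - rename Sum.inl P := by
            simp [θ, g, h1]
          rw [h2]
          intro h3
          have h4 : rename (Sum.inl : Lk len → Lk len ⊕ J)
              (li _ l' s' + C (vl sgn ex (gen q) l' s')) = rename Sum.inl P :=
            (neg_add_eq_zero.mp h3).symm
          have h5 := rename_injective _ Sum.inl_injective h4
          exact pot_ne (vl sgn ex (gen q)) hvne l' l s' s
            (fun h => hj' (by rw [Prod.mk.injEq] at h; rw [h.1, h.2])) h5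
        · have h2 : θ (X (Sum.inr l'.1)) = X (Sum.inr l'.1) := by
            simp [θ, g, h1]
          rw [h2]
          exact X_inr_add_ne_zero _ _

theorem vl_nx {A : Type} [CommRing A] (w : ι → A) (l : Lk len) (h : Tot sgn ex w l.1 = 0) :
    vl sgn ex w (nx l) Sel.a = vl sgn ex w l Sel.c := Ps_nx sgn ex w l h

/-- The generic point of the lift satisfies the linearised system. -/
theorem sat_lift2 (h : ∀ j, Tot sgn ex (gen q) j = 0) : Sat sgn ex (wl (W2 sgn ex) q) := by
  have hx : (fun i => wl (W2 sgn ex) q (Sum.inl i)) =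
      fun i => ((algebraMap (MvPolynomial (Lk len ⊕ J) (Kf q)) (Kl (Lk len ⊕ J) q)).comp C)
        (gen q i) := by
    funext i
    unfold wl
    rw [wp_W2_x]
    rfl
  intro l
  rw [hx, ← map_tm sgn ex]
  unfold wl
  simp only [wp_W2_T, wp_W2_U, RingHom.comp_apply, ← map_add, nx_fst]
  refine ⟨congrArg _ ?_, congrArg _ ?_, congrArg _ ?_⟩
  · simp only [vl, li, map_add, rename_C, add_assoc]
  · simp only [vl, li, map_add, rename_X, rename_C]
    ring
  · rw [vl_nx sgn ex (gen q) l (h _)]
    simp only [vl, li, map_add, rename_X, rename_C]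
    ring

/-- Dimension over `ℚ` of the second lift. -/
theorem lower2 [Fintype J] :
    dm (IQ q) + Fintype.card (Lk len) + Fintype.card J ≤ dm (IQ (lift (W2 sgn ex) q)) := by
  have h0 : (dm (IQ (lift (W2 sgn ex) q)) : ℕ∞) = rk ℚ (Set.range (wl (W2 sgn ex) q)) := by
    rw [← dm_kr, ← IQ_eq_kr, ← lift_eq_kr]
  have h1 : (dm (IQ q) : ℕ∞) = rk ℚ (Set.range (gen q)) := by
    rw [← dm_kr, ← IQ_eq_kr, kr_gen]
  have h2 := rk_union_ge (k := ℚ) (K := Kf q) (L := Kl (Lk len ⊕ J) q) _
    (Set.finite_range (gen q)) _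
    (algebraicIndependent_X_fraction (σ := Lk len ⊕ J) (K := Kf q))
  have h3 : rk ℚ (algebraMap (Kf q) (Kl (Lk len ⊕ J) q) '' Set.range (gen q) ∪
      Set.range fun s => algebraMap (MvPolynomial (Lk len ⊕ J) (Kf q)) (Kl (Lk len ⊕ J) q) (X s)) ≤
      rk ℚ (Set.range (wl (W2 sgn ex) q)) := by
    refine rk_le_of_algebraic ?_
    have hmem : ∀ i, wl (W2 sgn ex) q i ∈ Algebra.adjoin ℚ (Set.range (wl (W2 sgn ex) q)) :=
      fun i => Algebra.subset_adjoin ⟨i, rfl⟩
    have key : ∀ a ∈ Algebra.adjoin ℚ (Set.range (wl (W2 sgn ex) q)),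
        IsAlgebraic (Algebra.adjoin ℚ (Set.range (wl (W2 sgn ex) q))) a := fun a ha =>
      isAlgebraic_algebraMap (⟨a, ha⟩ : Algebra.adjoin ℚ (Set.range (wl (W2 sgn ex) q)))
    rintro a (⟨_, ⟨i, rfl⟩, rfl⟩ | ⟨l | j, rfl⟩)
    · apply key
      have h4 := hmem (Sum.inl i)
      unfold wl at h4
      rw [wp_W2_x] at h4
      rw [IsScalarTower.algebraMap_apply (Kf q) (MvPolynomial (Lk len ⊕ J) (Kf q))
        (Kl (Lk len ⊕ J) q)]
      exact h4
    · apply key
      have h4 := hmem (cT l)
      unfold wl at h4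
      rw [wp_W2_T] at h4
      exact h4
    · apply key
      have h4 := sub_mem (hmem (cU ⟨j, 0⟩ Sel.a)) (hmem (cT ⟨j, 0⟩))
      unfold wl at h4
      rw [wp_W2_T, wp_W2_U, ← map_sub] at h4
      have h5 : (X (Sum.inr (⟨j, 0⟩ : Lk len).1) + rename Sum.inl
          (li (Kf q) ⟨j, 0⟩ Sel.a + C (vl sgn ex (gen q) ⟨j, 0⟩ Sel.a)) -
          X (Sum.inl ⟨j, 0⟩) : MvPolynomial (Lk len ⊕ J) (Kf q)) = X (Sum.inr j) := by
        simp only [vl, li, Ps_zero, map_zero, add_zero, rename_X, add_sub_cancel_right]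
      rw [h5] at h4
      exact h4
  have h4 := h2.trans h3
  rw [← h0, ← h1, Fintype.card_sum] at h4
  have h5 : dm (IQ q) + (Fintype.card (Lk len) + Fintype.card J) ≤
      dm (IQ (lift (W2 sgn ex) q)) := by exact_mod_cast h4
  omega

/-- Relations of the second lift. -/
theorem rhoP_lift2 [Fintype J] (hq : TP q) : rhoP q ≤ rhoP (lift (W2 sgn ex) q) :=
  rhoP_le_rhoP_lift (W2 sgn ex) Sum.inl Sum.inl_injective (fun _ => rfl) q hq
    (TP_lift2 sgn ex q hq)

/-- Upper bound for the dimension of solution varieties through the lift. -/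
theorem upper2 [Fintype J] (F : J → MvPolynomial ι ℚ) (N : J → ℚ) (hN : ∀ j, N j ≠ 0)
    (hF : ∀ j, Tot sgn ex (X : ι → MvPolynomial ι ℚ) j = C (N j) * F j)
    (hmin : IQ q ∈ (Ideal.span (Set.range F)).minimalPrimes)
    (D : Ideal (MvPolynomial (Co ι len) ℂ)) [D.IsPrime] (hD : D ≤ lift (W2 sgn ex) q)
    (hsat : Sat sgn ex (gen D)) :
    dm D ≤ dm (IQ q) + Fintype.card (Lk len) + Fintype.card J := by
  set x : ι → Kf D := fun i => gen D (Sum.inl i) with hx
  have h1 : ∀ j, aeval x (F j) = 0 := by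
    intro j
    have h2 := congrArg (aeval x : MvPolynomial ι ℚ →ₐ[ℚ] Kf D) (hF j)
    have h3 : aeval x (Tot sgn ex (X : ι → MvPolynomial ι ℚ) j) = Tot sgn ex x j := by
      have := map_Tot sgn ex (aeval x : MvPolynomial ι ℚ →ₐ[ℚ] Kf D).toRingHom X j
      refine this.trans ?_
      congr 1
      funext i
      exact aeval_X x i
    rw [h3, hsat.tot, map_mul, aeval_C] at h2
    exact (mul_eq_zero.mp h2.symm).resolve_left
      ((map_ne_zero_iff _ (algebraMap ℚ (Kf D)).injective).mpr (hN j))
  have h2 : kr ℚ x ≤ IQ q := by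
    intro f hf
    have h3 : MvPolynomial.map (algebraMap ℚ ℂ) (rename Sum.inl f) ∈ D := by
      rw [← kr_gen D, mem_kr, MvPolynomial.aeval_map_algebraMap, aeval_rename]
      exact hf
    have h4 := hD h3
    rw [lift_eq_kr, mem_kr, MvPolynomial.aeval_map_algebraMap, aeval_rename] at h4
    have h5 : (wl (W2 sgn ex) q ∘ Sum.inl) =
        fun i => ((algebraMap (MvPolynomial (Lk len ⊕ J) (Kf q)) (Kl (Lk len ⊕ J) q)).comp C)
          (gen q i) := by
      funext i
      change wl (W2 sgn ex) q (Sum.inl i) = _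
      unfold wl
      rw [wp_W2_x]
      rfl
    rw [h5] at h4
    have h6 : aeval (gen q) f = 0 := by
      apply ((algebraMap (MvPolynomial (Lk len ⊕ J) (Kf q)) (Kl (Lk len ⊕ J) q)).comp C).injective
      rw [map_zero, ← h4]
      rw [MvPolynomial.aeval_def, MvPolynomial.aeval_def, ← MvPolynomial.coe_eval₂Hom,
        ← MvPolynomial.coe_eval₂Hom]
      rw [MvPolynomial.map_eval₂Hom]
      congr 2
    rw [mem_IQ, ← kr_gen q, mem_kr, MvPolynomial.aeval_map_algebraMap]
    exact h6
  have h3 : kr ℚ x = IQ q := by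
    refine le_antisymm h2 (hmin.2 ⟨inferInstance, ?_⟩ h2)
    rw [Ideal.span_le]
    rintro _ ⟨j, rfl⟩
    exact h1 j
  have h4 : (dm D : ℕ∞) ≤ rk ℚ (Set.range (gen D)) := by
    rw [dm_eq_rk]
    exact rk_restrict _
  have h5 : (dm (IQ q) : ℕ∞) = rk ℚ (Set.range x) := by
    rw [← h3, dm_kr]
  set T : Set (Kf D) := Set.range (fun l => gen D (cT l)) with hT
  set U : Set (Kf D) := Set.range (fun j => gen D (cU ⟨j, 0⟩ Sel.a)) with hU
  have h6 : rk ℚ (Set.range (gen D)) ≤ rk ℚ ((Set.range x ∪ T) ∪ U) := by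
    refine rk_le_of_algebraic ?_
    rintro _ ⟨i, rfl⟩
    have h7 := hsat.mem sgn ex (Algebra.adjoin ℚ ((Set.range x ∪ T) ∪ U))
      (fun i => Algebra.subset_adjoin (Or.inl (Or.inl ⟨i, rfl⟩)))
      (fun l => Algebra.subset_adjoin (Or.inl (Or.inr ⟨l, rfl⟩)))
      (fun j => Algebra.subset_adjoin (Or.inr ⟨j, rfl⟩)) i
    exact isAlgebraic_algebraMap (⟨_, h7⟩ : Algebra.adjoin ℚ ((Set.range x ∪ T) ∪ U))
  have hcard : ∀ {A : Type} [Fintype A] (g : A → Kf D),
      rk ℚ (Set.range g) ≤ (Fintype.card A : ℕ∞) := by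
    intro A _ g
    refine (rk_le_encard _).trans ?_
    rw [← Set.image_univ]
    refine (Set.encard_image_le _ _).trans ?_
    rw [Set.encard_univ]
    simp
  have h7 := h4.trans (h6.trans ((rk_union _ _).trans
    (add_le_add (rk_union _ _) le_rfl)))
  have h8 := h7.trans (add_le_add (add_le_add le_rfl (hcard _)) (hcard _))
  rw [← h5] at h8
  exact_mod_cast h8

end L2

end Pool.Agent.CITLines
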