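import Pool.Agent.CITLines.Rel

set_option autoImplicit false

/-!
Pushing points forward and pulling them back along monomial maps.
-/

namespace Pool.Agent.CITLines

open MvPolynomial Module

section LinAlg

variable {V W : Type} [AddCommGroup V] [Module ℚ V] [AddCommGroup W] [Module ℚ W]
  [FiniteDimensional ℚ V]

theorem finrank_comap_of_surjective (f : V →ₗ[ℚ] W) (hf : Function.Surjective f)
    (U : Submodule ℚ W) :
    finrank ℚ (U.comap f) = finrank ℚ U + finrank ℚ (LinearMap.ker f) := by
  let g : U.comap f →ₗ[ℚ] U := f.restrict (fun x hx => hx)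
  have h1 := g.finrank_range_add_finrank_ker
  have h2 : LinearMap.range g = ⊤ := by
    rw [LinearMap.range_eq_top]
    rintro ⟨y, hy⟩
    obtain ⟨x, rfl⟩ := hf y
    exact ⟨⟨x, hy⟩, rfl⟩
  have h3 : LinearMap.ker g = (LinearMap.ker f).comap (U.comap f).subtype := by
    ext x
    rw [LinearMap.mem_ker, Submodule.mem_comap, LinearMap.mem_ker]
    constructor
    · intro h
      exact congrArg Subtype.val h
    · intro h
      exact Subtype.ext h
  have h4 : LinearMap.ker f ≤ U.comap f := by
    intro x hx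
    rw [Submodule.mem_comap, LinearMap.mem_ker.mp hx]
    exact U.zero_mem
  rw [h2, finrank_top, h3, LinearEquiv.finrank_eq (Submodule.comapSubtypeEquivOfLe h4)] at h1
  exact h1.symm

theorem exists_span_compl (U V' : Submodule ℚ V) (h : U ≤ V') :
    ∃ s : Finset V, s.card + finrank ℚ U = finrank ℚ V' ∧ (∀ v ∈ s, v ∈ V') ∧
      V' ≤ U ⊔ Submodule.span ℚ (s : Set V) := by
  classical
  obtain ⟨C, hC⟩ := Submodule.exists_isCompl (U.comap V'.subtype)
  let b := Module.finBasis ℚ C
  let f : Fin (finrank ℚ C) → V := fun i => ((b i : V') : V)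
  have hf : Function.Injective f := by
    intro i j hij
    exact b.injective (Subtype.ext (Subtype.ext hij))
  refine ⟨Finset.univ.image f, ?_, ?_, ?_⟩
  · rw [Finset.card_image_of_injective _ hf, Finset.card_univ, Fintype.card_fin]
    have h1 := Submodule.finrank_add_eq_of_isCompl hC
    rw [LinearEquiv.finrank_eq (Submodule.comapSubtypeEquivOfLe h)] at h1
    omega
  · intro v hv
    obtain ⟨i, _, rfl⟩ := Finset.mem_image.mp hv
    exact (b i : V').2
  · intro v hv
    have h1 : (⟨v, hv⟩ : V') ∈ U.comap V'.subtype ⊔ C := by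
      rw [hC.sup_eq_top]
      exact Submodule.mem_top
    obtain ⟨u, hu, c, hc, huc⟩ := Submodule.mem_sup.mp h1
    have h2 : v = (u : V) + (c : V) := by
      have := congrArg Subtype.val huc
      exact this.symm
    rw [h2]
    refine Submodule.add_mem_sup hu ?_
    have h3 := b.sum_repr ⟨c, hc⟩
    have h4 : (c : V) = ∑ i, b.repr ⟨c, hc⟩ i • f i := by
      have h5 := congrArg (V'.subtype ∘ₗ C.subtype) h3
      rw [map_sum] at h5
      exact h5.symm
    rw [h4]
    refine Submodule.sum_mem _ fun i _ => Submodule.smul_mem _ _ (Submodule.subset_span ?_)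
    simp

end LinAlg

section Psi

variable {ι S : Type} [Fintype ι] [Fintype S] (φ : S → ι → ℤ)

/-- The map of exponent lattices. -/
def psiZ : (S → ℤ) →ₗ[ℤ] (ι → ℤ) := Fintype.linearCombination ℤ φ

/-- The map of rational exponents. -/
def psiQ : (S → ℚ) →ₗ[ℚ] (ι → ℚ) := Fintype.linearCombination ℚ (fun s => cst (φ s))

omit [Fintype ι] in
theorem psiZ_apply (b : S → ℤ) : psiZ φ b = ∑ s, b s • φ s := by
  unfold psiZ
  rw [Fintype.linearCombination_apply]

omit [Fintype ι] in
theorem psiQ_apply (b : S → ℚ) : psiQ φ b = ∑ s, b s • cst (φ s) := by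
  unfold psiQ
  rw [Fintype.linearCombination_apply]

omit [Fintype ι] in
theorem psiQ_cst (b : S → ℤ) : psiQ φ (cst b) = cst (psiZ φ b) := by
  rw [psiQ_apply, psiZ_apply]
  funext i
  simp [cst]

theorem psiQ_surjective (h : Function.Surjective (psiZ φ)) : Function.Surjective (psiQ φ) := by
  intro v
  obtain ⟨k, hk, a, ha⟩ := exists_clear v
  obtain ⟨b, rfl⟩ := h a
  refine ⟨(k : ℚ)⁻¹ • cst b, ?_⟩
  rw [map_smul, psiQ_cst]
  funext i
  rw [Pi.smul_apply, cst_apply, ha, smul_eq_mul, ← mul_assoc, inv_mul_cancel₀, one_mul]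
  exact_mod_cast hk

variable {K : Type} [Field K]

theorem mon_sum {w : ι → K} (hw : ∀ i, w i ≠ 0) {A : Type} (s : Finset A) (f : A → ι → ℤ) :
    mon w (∑ a ∈ s, f a) = ∏ a ∈ s, mon w (f a) := by
  classical
  induction s using Finset.induction_on with
  | empty => rw [Finset.sum_empty, Finset.prod_empty, mon_zero]
  | insert a s ha ih => rw [Finset.sum_insert ha, Finset.prod_insert ha, mon_add' hw, ih]

/-- The image of a point under the monomial map. -/
noncomputable def pm (w : ι → K) (s : S) : K := mon w (φ s)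

omit [Fintype S] in
theorem pm_ne_zero {w : ι → K} (hw : ∀ i, w i ≠ 0) (s : S) : pm φ w s ≠ 0 :=
  Finset.prod_ne_zero_iff.mpr fun i _ => zpow_ne_zero _ (hw i)

theorem mon_pm {w : ι → K} (hw : ∀ i, w i ≠ 0) (b : S → ℤ) :
    mon (pm φ w) b = mon w (psiZ φ b) := by
  rw [psiZ_apply, mon_sum hw]
  unfold mon
  refine Finset.prod_congr rfl fun s _ => ?_
  have := mon_smul w (b s) (φ s)
  unfold mon at this
  rw [this]
  rfl

theorem mem_relZ_pm {w : ι → K} (hw : ∀ i, w i ≠ 0) (b : S → ℤ) :
    b ∈ relZ (pm φ w) ↔ psiZ φ b ∈ relZ w := by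
  rw [mem_relZ, mem_relZ, mon_pm φ hw]

theorem rho_pm {w : ι → K} (hw : ∀ i, w i ≠ 0) (hφ : Function.Surjective (psiZ φ)) :
    rho w + Fintype.card S ≤ rho (pm φ w) + Fintype.card ι := by
  have hsur := psiQ_surjective φ hφ
  have h1 := finrank_comap_of_surjective (psiQ φ) hsur (QS (relZ w))
  have h2 := (psiQ φ).finrank_range_add_finrank_ker
  rw [LinearMap.range_eq_top.mpr hsur, finrank_top, Module.finrank_fintype_fun_eq_card,
    Module.finrank_fintype_fun_eq_card] at h2
  have h3 : (QS (relZ w)).comap (psiQ φ) ≤ QS (relZ (pm φ w)) := by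
    intro v hv
    rw [Submodule.mem_comap] at hv
    obtain ⟨k, hk, b, hb⟩ := exists_clear v
    have hcb : cst b = (k : ℚ) • v := by
      funext i
      rw [cst_apply, hb, Pi.smul_apply, smul_eq_mul]
    have h4 : cst (psiZ φ b) ∈ QS (relZ w) := by
      rw [← psiQ_cst, hcb, map_smul]
      exact Submodule.smul_mem _ _ hv
    have h5 : cst b ∈ QS (relZ (pm φ w)) :=
      cst_mem_QS ((mem_relZ_pm φ hw b).mpr (cst_mem_QS_relZ.mp h4))
    have h6 : v = (k : ℚ)⁻¹ • cst b := by
      rw [hcb, smul_smul, inv_mul_cancel₀, one_smul]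
      exact_mod_cast hk
    rw [h6]
    exact Submodule.smul_mem _ _ h5
  have h4 := Submodule.finrank_mono h3
  unfold rho
  omega

end Psi

section Specialise

variable {ι : Type} [Fintype ι] {k K K' : Type} [Field k] [Field K] [Field K'] [Algebra k K]
  [Algebra k K']

/-- Specialisation is compatible with monomials with integer exponents. -/
theorem kr_pm_le {w : ι → K} {w' : ι → K'} (hw' : ∀ i, w' i ≠ 0) (h : kr k w ≤ kr k w')
    {J : Type} (β : J → ι → ℤ) : kr k (pm β w) ≤ kr k (pm β w') := by
  classical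
  have hne : ∀ g : MvPolynomial ι k, aeval w' g ≠ 0 → aeval w g ≠ 0 := by
    intro g hg hg0
    exact hg (mem_kr.mp (h (mem_kr.mpr hg0)))
  let A : Subalgebra k (K × K') :=
    { carrier := {z | ∃ f g : MvPolynomial ι k, aeval w' g ≠ 0 ∧
        z.1 * aeval w g = aeval w f ∧ z.2 * aeval w' g = aeval w' f}
      mul_mem' := by
        rintro z z' ⟨f, g, hg, h1, h2⟩ ⟨f', g', hg', h1', h2'⟩
        refine ⟨f * f', g * g', ?_, ?_, ?_⟩
        · rw [map_mul]
          exact mul_ne_zero hg hg'
        · rw [map_mul, map_mul, ← h1, ← h1', Prod.fst_mul]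
          ring
        · rw [map_mul, map_mul, ← h2, ← h2', Prod.snd_mul]
          ring
      add_mem' := by
        rintro z z' ⟨f, g, hg, h1, h2⟩ ⟨f', g', hg', h1', h2'⟩
        refine ⟨f * g' + f' * g, g * g', ?_, ?_, ?_⟩
        · rw [map_mul]
          exact mul_ne_zero hg hg'
        · rw [map_mul, map_add, map_mul, map_mul, ← h1, ← h1', Prod.fst_add]
          ring
        · rw [map_mul, map_add, map_mul, map_mul, ← h2, ← h2', Prod.snd_add]
          ring
      algebraMap_mem' := by
        intro r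
        refine ⟨C r, 1, ?_, ?_, ?_⟩
        · rw [map_one]
          exact one_ne_zero
        · rw [map_one, mul_one, aeval_C]
          rfl
        · rw [map_one, mul_one, aeval_C]
          rfl }
  have hcoord : ∀ j, (pm β w j, pm β w' j) ∈ A := by
    intro j
    refine ⟨∏ i, X i ^ (β j i).toNat, ∏ i, X i ^ (-β j i).toNat, ?_, ?_, ?_⟩
    · rw [map_prod]
      simp only [map_pow, aeval_X]
      exact Finset.prod_ne_zero_iff.mpr fun i _ => pow_ne_zero _ (hw' i)
    · have hw : ∀ i, w i ≠ 0 := by
        intro i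
        have := hne (X i) (by rw [aeval_X]; exact hw' i)
        rwa [aeval_X] at this
      rw [map_prod, map_prod]
      simp only [map_pow, aeval_X]
      unfold pm
      rw [mon_eq_div hw, div_mul_cancel₀]
      exact Finset.prod_ne_zero_iff.mpr fun i _ => pow_ne_zero _ (hw i)
    · rw [map_prod, map_prod]
      simp only [map_pow, aeval_X]
      unfold pm
      rw [mon_eq_div hw', div_mul_cancel₀]
      exact Finset.prod_ne_zero_iff.mpr fun i _ => pow_ne_zero _ (hw' i)
  intro P hP
  have h1 : aeval (fun j => (pm β w j, pm β w' j)) P ∈ A := by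
    clear hP
    induction P using MvPolynomial.induction_on with
    | C a =>
      rw [aeval_C]
      exact A.algebraMap_mem a
    | add p q hp hq =>
      rw [map_add]
      exact A.add_mem hp hq
    | mul_X p j hp =>
      rw [map_mul, aeval_X]
      exact A.mul_mem hp (hcoord j)
  have h2 : (aeval (fun j => (pm β w j, pm β w' j)) P).1 = aeval (pm β w) P := by
    have := (MvPolynomial.comp_aeval_apply (R := k) (f := fun j => (pm β w j, pm β w' j))
      (AlgHom.fst k K K') P)
    exact this
  have h3 : (aeval (fun j => (pm β w j, pm β w' j)) P).2 = aeval (pm β w') P := by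
    have := (MvPolynomial.comp_aeval_apply (R := k) (f := fun j => (pm β w j, pm β w' j))
      (AlgHom.snd k K K') P)
    exact this
  obtain ⟨f, g, hg, h4, h5⟩ := h1
  rw [h2, mem_kr.mp hP, zero_mul] at h4
  rw [h3] at h5
  have h6 : aeval w' f = 0 := mem_kr.mp (h (mem_kr.mpr h4.symm))
  rw [h6] at h5
  rw [mem_kr]
  exact (mul_eq_zero.mp h5).resolve_right hg

omit [Fintype ι] in
theorem isAlgebraic_of_mem (s : Set K) {x : K} (hx : x ∈ s) :
    IsAlgebraic (Algebra.adjoin k s) x :=
  isAlgebraic_algebraMap (⟨x, Algebra.subset_adjoin hx⟩ : Algebra.adjoin k s)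

theorem isAlgebraic_mon (w : ι → K) (a : ι → ℤ) :
    IsAlgebraic (Algebra.adjoin k (Set.range w)) (mon w a) := by
  classical
  unfold mon
  rw [← Subalgebra.mem_algebraicClosure]
  refine Subalgebra.prod_mem _ fun i _ => ?_
  rw [Subalgebra.mem_algebraicClosure]
  have h1 : IsAlgebraic (Algebra.adjoin k (Set.range w)) (w i) :=
    isAlgebraic_of_mem _ ⟨i, rfl⟩
  cases a i with
  | ofNat n =>
    rw [Int.ofNat_eq_natCast, zpow_natCast]
    exact h1.pow n
  | negSucc n =>
    rw [zpow_negSucc]
    exact (h1.pow _).inv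

theorem rk_pm_le (w : ι → K) {J : Type} (β : J → ι → ℤ) :
    rk k (Set.range (pm β w)) ≤ rk k (Set.range w) := by
  refine rk_le_of_algebraic ?_
  rintro _ ⟨j, rfl⟩
  exact isAlgebraic_mon w (β j)

end Specialise

end Pool.Agent.CITLines
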