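import Pool.Agent.CITLines.Push

set_option autoImplicit false

/-!
From finitely many maximal atypical subvarieties of a variety in the target torus to an equation
satisfied by the relevant points of the source torus.
-/

namespace Pool.Agent.CITLines

open MvPolynomial Module

variable {ι S : Type} [Fintype ι] [Fintype S] (φ : S → ι → ℤ)

theorem mon_single {K : Type} [Field K] [DecidableEq ι] (w : ι → K) (i : ι) :
    mon w (Pi.single i 1) = w i := by
  unfold mon
  rw [Finset.prod_eq_single i]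
  · rw [Pi.single_eq_same, zpow_one]
  · intro j _ hj
    rw [Pi.single_eq_of_ne hj, zpow_zero]
  · intro h
    exact absurd (Finset.mem_univ i) h

/-- Finite products of witnesses. -/
theorem exists_prod_witness {R A : Type} [CommRing R] (p : Ideal R) [hp : p.IsPrime]
    (s : Finset A) (Q : A → Ideal R → Prop)
    (h : ∀ a ∈ s, ∃ G, G ∉ p ∧ ∀ q : Ideal R, Q a q → G ∈ q) :
    ∃ G, G ∉ p ∧ ∀ q : Ideal R, (∃ a ∈ s, Q a q) → G ∈ q := by
  classical
  choose! G hG hG' using h
  refine ⟨∏ a ∈ s, G a, ?_, ?_⟩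
  · intro h
    obtain ⟨a, ha, haG⟩ := hp.prod_mem_iff.mp h
    exact hG a ha haG
  · rintro q ⟨a, ha, hQ⟩
    exact Ideal.mem_of_dvd q (Finset.dvd_prod_of_mem G ha) (hG' a ha q hQ)

theorem push_one (hφ : Function.Surjective (psiZ φ))
    (I : Ideal (MvPolynomial S ℂ)) (d : ℕ) (y : Ideal (MvPolynomial S ℂ))
    (hy : TP y) (hIy : I ≤ y) (hdy : d < dm y + rhoP y)
    (p : Ideal (MvPolynomial ι ℂ)) (hfree : QP p = ⊥) (hp1 : p.IsPrime)
    (hA : ∀ (D : Ideal (MvPolynomial ι ℂ)) [D.IsPrime], D ≤ p →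
      I ≤ kr ℂ (pm φ (gen D)) → dm D + Fintype.card S ≤ d + Fintype.card ι) :
    ∃ G, G ∉ p ∧ ∀ (q : Ideal (MvPolynomial ι ℂ)),
      (∃ hq : TP q, haveI := hq.prime; y ≤ kr ℂ (pm φ (gen q))) → G ∈ q := by
  classical
  have hyp := hy.prime
  by_cases hcase : ∃ b ∈ relSet y, psiZ φ b ≠ 0
  · obtain ⟨b, ⟨m, hm, hb⟩, hb0⟩ := hcase
    refine ⟨binom ℂ (psiZ φ ((m : ℤ) • b)) 1, ?_, ?_⟩
    · intro hG
      have h1 : cst (psiZ φ ((m : ℤ) • b)) ∈ QP p := by
        refine Submodule.subset_span ⟨_, ⟨1, one_pos, ?_⟩, rfl⟩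
        rw [Nat.cast_one, one_smul]
        exact hG
      rw [hfree, Submodule.mem_bot, cst_eq_zero, map_smul, smul_eq_zero] at h1
      rcases h1 with h1 | h1
      · exact absurd h1 (by exact_mod_cast hm.ne')
      · exact hb0 h1
    · rintro q ⟨hq, hyq⟩
      have := hq.prime
      have h1 := hyq hb
      rw [binom_mem_kr (pm_ne_zero φ hq.gen_ne_zero), mon_pm φ hq.gen_ne_zero] at h1
      rw [hq.binom_mem]
      exact h1
  · push Not at hcase
    have hQker : QP y ≤ LinearMap.ker (psiQ φ) := by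
      unfold QP
      rw [Submodule.span_le]
      rintro _ ⟨b, hb, rfl⟩
      rw [SetLike.mem_coe, LinearMap.mem_ker, psiQ_cst, hcase b hb]
      exact cst_eq_zero.mpr rfl
    obtain ⟨s, hscard, hsker, hspan⟩ := exists_span_compl _ _ hQker
    have hker : Fintype.card ι + finrank ℚ (LinearMap.ker (psiQ φ)) = Fintype.card S := by
      have h2 := (psiQ φ).finrank_range_add_finrank_ker
      rwa [LinearMap.range_eq_top.mpr (psiQ_surjective φ hφ), finrank_top,
        Module.finrank_fintype_fun_eq_card, Module.finrank_fintype_fun_eq_card] at h2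
    have hclear : ∀ v : S → ℚ, ∃ bb : S → ℤ, ∃ k : ℚ, k ≠ 0 ∧ cst bb = k • v := by
      intro v
      obtain ⟨k, hk, b, hb⟩ := exists_clear v
      refine ⟨b, k, by exact_mod_cast hk, ?_⟩
      funext i
      rw [cst_apply, hb, Pi.smul_apply, smul_eq_mul]
    choose bb kk hkk hbb using hclear
    set t : Finset (MvPolynomial S ℂ) := s.image (fun v => binom ℂ (bb v) 1) with ht
    have hpsibb : ∀ v ∈ s, psiZ φ (bb v) = 0 := by
      intro v hv
      rw [← cst_eq_zero, ← psiQ_cst, hbb, map_smul, LinearMap.mem_ker.mp (hsker v hv), smul_zero]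
    have hfin : ((y ⊔ Ideal.span (t : Set (MvPolynomial S ℂ))).minimalPrimes).Finite :=
      Ideal.finite_minimalPrimes_of_isNoetherianRing _ _
    have key := exists_prod_witness p hfin.toFinset
      (fun D q => ∃ hq : TP q, haveI := hq.prime; D ≤ kr ℂ (pm φ (gen q))) ?_
    · obtain ⟨G, hG, hG'⟩ := key
      refine ⟨G, hG, ?_⟩
      rintro q ⟨hq, hyq⟩
      have hqp := hq.prime
      apply hG'
      have h1 : y ⊔ Ideal.span (t : Set (MvPolynomial S ℂ)) ≤ kr ℂ (pm φ (gen q)) := by
        refine sup_le hyq ?_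
        rw [Ideal.span_le]
        intro f hf
        obtain ⟨v, hv, rfl⟩ := Finset.mem_image.mp (Finset.mem_coe.mp hf)
        rw [SetLike.mem_coe, binom_mem_kr (pm_ne_zero φ hq.gen_ne_zero), mon_pm φ hq.gen_ne_zero,
          hpsibb v hv, mon_zero, map_one]
      obtain ⟨D, hD, hDq⟩ := Ideal.exists_minimalPrimes_le h1
      exact ⟨D, hfin.mem_toFinset.mpr hD, hq, hDq⟩
    · intro D hD
      rw [Set.Finite.mem_toFinset] at hD
      have hDp : D.IsPrime := hD.isPrime
      have hyD : y ≤ D := le_sup_left.trans hD.le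
      by_cases hex : ∃ q0 : Ideal (MvPolynomial ι ℂ), ∃ hq : TP q0,
          haveI := hq.prime; D ≤ kr ℂ (pm φ (gen q0))
      · obtain ⟨q0, hq0, hDq0⟩ := hex
        have hq0p := hq0.prime
        have hDT : TP D := (TP.kr (pm_ne_zero φ hq0.gen_ne_zero)).mono hDp hDq0
        have hrel : ∀ b : S → ℤ, psiZ φ b = 0 → mon (gen D) b = 1 := by
          intro b hb
          have h1 : cst b ∈ LinearMap.ker (psiQ φ) := by
            rw [LinearMap.mem_ker, psiQ_cst, hb]
            exact cst_eq_zero.mpr rfl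
          have h2 : QP y ⊔ Submodule.span ℚ (s : Set (S → ℚ)) ≤ QP D := by
            refine sup_le (QP_mono hyD) ?_
            rw [Submodule.span_le]
            intro v hv
            have h3 : binom ℂ (bb v) 1 ∈ D := by
              refine hD.le (Ideal.mem_sup_right (Ideal.subset_span ?_))
              exact Finset.mem_coe.mpr (Finset.mem_image_of_mem _ hv)
            have h4 : cst (bb v) ∈ QP D := (hDT.cst_mem_QP _).mpr ⟨1, RU.one, h3⟩
            have h5 : v = (kk v)⁻¹ • cst (bb v) := by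
              rw [hbb, smul_smul, inv_mul_cancel₀ (hkk v), one_smul]
            rw [SetLike.mem_coe, h5]
            exact Submodule.smul_mem _ _ h4
          have h3 := h2 (hspan h1)
          obtain ⟨ζ, _, hζ⟩ := (hDT.cst_mem_QP b).mp h3
          have h4 := hDq0 hζ
          rw [binom_mem_kr (pm_ne_zero φ hq0.gen_ne_zero), mon_pm φ hq0.gen_ne_zero, hb,
            mon_zero] at h4
          rw [hDT.binom_mem] at hζ
          have h5 : ζ = 1 := by
            apply (algebraMap ℂ (Kf q0)).injective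
            rw [map_one, h4]
          rw [hζ, h5, map_one]
        have hβ : ∀ i : ι, ∃ b : S → ℤ, psiZ φ b = Pi.single i 1 := fun i => hφ _
        choose β hβ using hβ
        set v : ι → Kf D := pm β (gen D) with hv
        have hv0 : ∀ i, v i ≠ 0 := pm_ne_zero β hDT.gen_ne_zero
        have hphi : pm φ v = gen D := by
          funext s
          have h1 : pm φ v s = mon (gen D) (psiZ β (φ s)) := mon_pm β hDT.gen_ne_zero (φ s)
          have h2 : psiZ φ (psiZ β (φ s)) = φ s := by
            rw [psiZ_apply β, map_sum]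
            simp only [map_smul, hβ]
            funext i
            simp [Pi.single_apply]
          have h3 : psiZ φ (psiZ β (φ s) - Pi.single s 1) = 0 := by
            rw [map_sub, h2, psiZ_apply, sub_eq_zero]
            simp [Pi.single_apply]
          have h4 := hrel _ h3
          have h5 : psiZ β (φ s) = (psiZ β (φ s) - Pi.single s 1) + Pi.single s 1 := by
            rw [sub_add_cancel]
          rw [h1, h5, mon_add' hDT.gen_ne_zero, h4, one_mul, mon_single]
        have hdm : dm D ≤ dm (kr ℂ v) := by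
          have h1 := rk_pm_le (k := ℂ) v φ
          rw [hphi, ← dm_eq_rk, ← dm_kr] at h1
          exact_mod_cast h1
        have hle : ∀ q : Ideal (MvPolynomial ι ℂ), ∀ hq : TP q, haveI := hq.prime;
            D ≤ kr ℂ (pm φ (gen q)) → kr ℂ v ≤ q := by
          intro q hq
          have hqp := hq.prime
          intro hDq
          have h1 : kr ℂ (gen D) ≤ kr ℂ (pm φ (gen q)) := by
            rw [kr_gen]
            exact hDq
          have h2 := kr_pm_le (pm_ne_zero φ hq.gen_ne_zero) h1 β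
          have h3 : pm β (pm φ (gen q)) = gen q := by
            funext i
            have := mon_pm φ hq.gen_ne_zero (β i)
            rw [hβ, mon_single] at this
            exact this
          rw [h3, kr_gen] at h2
          exact h2
        have hnot : ¬ kr ℂ v ≤ p := by
          intro hvp
          have h1 : I ≤ kr ℂ (pm φ (gen (kr ℂ v))) := by
            have h2 : kr ℂ v ≤ kr ℂ (gen (kr ℂ v)) := by rw [kr_gen]
            have h3 := kr_pm_le (TP.kr hv0).gen_ne_zero h2 φ
            rw [hphi, kr_gen] at h3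
            exact (hIy.trans hyD).trans h3
          have h2 := hA (kr ℂ v) hvp h1
          have h3 := dm_le_dm_add_card y t D hD
          have h4 : t.card ≤ s.card := Finset.card_image_le
          have h5 : rhoP y = finrank ℚ (QP y) := rfl
          omega
        obtain ⟨G, hGv, hGp⟩ := SetLike.not_le_iff_exists.mp hnot
        exact ⟨G, hGp, fun q ⟨hq, hDq⟩ => hle q hq hDq hGv⟩
      · refine ⟨1, fun h => hp1.ne_top ((Ideal.eq_top_iff_one _).mpr h), ?_⟩
        rintro q ⟨hq, hDq⟩
        exact absurd ⟨q, hq, hDq⟩ hex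

/-- The push theorem. -/
theorem push (hφ : Function.Surjective (psiZ φ))
    (I : Ideal (MvPolynomial S ℂ)) (d : ℕ) (Y : Finset (Ideal (MvPolynomial S ℂ)))
    (hY : ∀ y ∈ Y, TP y ∧ I ≤ y ∧ d < dm y + rhoP y)
    (hY' : ∀ r, TP r → I ≤ r → d < dm r + rhoP r → ∃ y ∈ Y, y ≤ r)
    (p : Ideal (MvPolynomial ι ℂ)) (hfree : QP p = ⊥) (hp : p.IsPrime)
    (hA : ∀ (D : Ideal (MvPolynomial ι ℂ)) [D.IsPrime], D ≤ p →
      I ≤ kr ℂ (pm φ (gen D)) → dm D + Fintype.card S ≤ d + Fintype.card ι) :
    ∃ G, G ∉ p ∧ ∀ (q : Ideal (MvPolynomial ι ℂ)) [q.IsPrime], TP q →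
      I ≤ kr ℂ (pm φ (gen q)) →
      d + Fintype.card ι < dm q + rhoP q + Fintype.card S → G ∈ q := by
  classical
  obtain ⟨G, hG, hG'⟩ := exists_prod_witness p Y
    (fun y q => ∃ hq : TP q, haveI := hq.prime; y ≤ kr ℂ (pm φ (gen q)))
    (fun y hy => push_one φ hφ I d y (hY y hy).1 (hY y hy).2.1 (hY y hy).2.2 p hfree hp hA)
  refine ⟨G, hG, ?_⟩
  intro q hqp hq hIq hd
  apply hG'
  have hw := hq.gen_ne_zero
  have h1 := rho_pm φ hw hφ
  have h2 : dm q ≤ dm (kr ℂ (pm φ (gen q))) := by
    have hβ : ∀ i : ι, ∃ b : S → ℤ, psiZ φ b = Pi.single i 1 := fun i => hφ _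
    choose β hβ using hβ
    have h3 : pm β (pm φ (gen q)) = gen q := by
      funext i
      have := mon_pm φ hq.gen_ne_zero (β i)
      rw [hβ, mon_single] at this
      exact this
    have h4 := rk_pm_le (k := ℂ) (pm φ (gen q)) β
    rw [h3, ← dm_eq_rk, ← dm_kr] at h4
    exact_mod_cast h4
  have h3 : rhoP (kr ℂ (pm φ (gen q))) = rho (pm φ (gen q)) := rhoP_kr (pm_ne_zero φ hw)
  have h4 : rhoP q = rho (gen q) := by
    have := rhoP_kr (w := gen q) hw
    rwa [kr_gen] at this
  obtain ⟨y, hy, hyr⟩ := hY' (kr ℂ (pm φ (gen q))) (TP.kr (pm_ne_zero φ hw)) hIq (by omega)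
  exact ⟨y, hy, hq, hyr⟩

end Pool.Agent.CITLines
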