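import Pool.Agent.CITLines.Spread

set_option autoImplicit false

/-!
Multiplicative relations modulo roots of unity.
-/

namespace Pool.Agent.CITLines

open MvPolynomial Module

section Lattice

variable {ι : Type}

/-- An integer vector as a rational vector. -/
def cst (a : ι → ℤ) : ι → ℚ := fun i => (a i : ℚ)

theorem cst_apply (a : ι → ℤ) (i : ι) : cst a i = (a i : ℚ) := rfl

theorem cst_injective : Function.Injective (cst : (ι → ℤ) → (ι → ℚ)) := by
  intro a b h
  funext i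
  have := congrFun h i
  simpa [cst] using this

theorem cst_eq_zero {a : ι → ℤ} : cst a = 0 ↔ a = 0 := by
  constructor
  · intro h
    apply cst_injective
    rw [h]
    funext i
    simp [cst]
  · rintro rfl
    funext i
    simp [cst]

/-- The rational span. -/
def QS (H : Submodule ℤ (ι → ℤ)) : Submodule ℚ (ι → ℚ) :=
  Submodule.span ℚ (cst '' (H : Set (ι → ℤ)))

theorem QS_mono {H H' : Submodule ℤ (ι → ℤ)} (h : H ≤ H') : QS H ≤ QS H' :=
  Submodule.span_mono (Set.image_mono h)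

theorem cst_mem_QS {H : Submodule ℤ (ι → ℤ)} {a : ι → ℤ} (h : a ∈ H) : cst a ∈ QS H :=
  Submodule.subset_span ⟨a, h, rfl⟩

theorem exists_mult_mem {H : Submodule ℤ (ι → ℤ)} {v : ι → ℚ} (hv : v ∈ QS H) :
    ∃ k : ℤ, k ≠ 0 ∧ ∃ a ∈ H, ∀ i, (a i : ℚ) = k * v i := by
  refine Submodule.span_induction (p := fun v _ => ∃ k : ℤ, k ≠ 0 ∧ ∃ a ∈ H,
    ∀ i, (a i : ℚ) = k * v i) ?_ ?_ ?_ ?_ hv
  · rintro _ ⟨a, ha, rfl⟩
    exact ⟨1, one_ne_zero, a, ha, fun i => by simp [cst]⟩
  · exact ⟨1, one_ne_zero, 0, H.zero_mem, fun i => by simp⟩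
  · rintro x y _ _ ⟨k, hk, a, ha, hka⟩ ⟨l, hl, b, hb, hlb⟩
    refine ⟨k * l, mul_ne_zero hk hl, l • a + k • b,
      H.add_mem (H.smul_mem l ha) (H.smul_mem k hb), fun i => ?_⟩
    have h1 := hka i
    have h2 := hlb i
    simp only [Pi.add_apply, Pi.smul_apply, smul_eq_mul, Int.cast_add, Int.cast_mul, h1, h2]
    ring
  · rintro q x _ ⟨k, hk, a, ha, hka⟩
    refine ⟨k * q.den, mul_ne_zero hk (by exact_mod_cast q.den_nz), q.num • a,
      H.smul_mem _ ha, fun i => ?_⟩
    have h1 := hka i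
    simp only [Pi.smul_apply, smul_eq_mul, Int.cast_mul, h1, Int.cast_natCast]
    have h2 : (q.num : ℚ) = q.den * q := by
      rw [mul_comm]
      exact (Rat.mul_den_eq_num q).symm
    rw [h2]
    ring

/-- Every rational vector has an integer multiple with integer entries. -/
theorem exists_clear [Fintype ι] (v : ι → ℚ) :
    ∃ k : ℤ, k ≠ 0 ∧ ∃ a : ι → ℤ, ∀ i, (a i : ℚ) = k * v i := by
  classical
  refine ⟨∏ i, (v i).den, Finset.prod_ne_zero_iff.mpr fun i _ => by exact_mod_cast (v i).den_nz,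
    fun i => (v i).num * ∏ j ∈ Finset.univ.erase i, ((v j).den : ℤ), fun i => ?_⟩
  rw [← Finset.mul_prod_erase Finset.univ _ (Finset.mem_univ i)]
  push_cast
  have h2 : ((v i).num : ℚ) = (v i).den * v i := by
    rw [mul_comm]
    exact (Rat.mul_den_eq_num (v i)).symm
  rw [h2]
  ring

end Lattice

section RootsOfUnity

variable {K : Type} [Field K]

/-- Root of unity. -/
def RU (x : K) : Prop := ∃ m : ℕ, 0 < m ∧ x ^ m = 1

theorem RU.ne_zero {x : K} (h : RU x) : x ≠ 0 := by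
  rintro rfl
  obtain ⟨m, hm, h⟩ := h
  rw [zero_pow hm.ne'] at h
  exact zero_ne_one h

theorem RU.one : RU (1 : K) := ⟨1, one_pos, one_pow _⟩

theorem RU.mul {x y : K} (hx : RU x) (hy : RU y) : RU (x * y) := by
  obtain ⟨m, hm, h⟩ := hx
  obtain ⟨n, hn, h'⟩ := hy
  refine ⟨m * n, Nat.mul_pos hm hn, ?_⟩
  rw [mul_pow, pow_mul, h, one_pow, mul_comm m n, pow_mul, h', one_pow, one_mul]

theorem RU.inv {x : K} (hx : RU x) : RU x⁻¹ := by
  obtain ⟨m, hm, h⟩ := hx
  exact ⟨m, hm, by rw [inv_pow, h, inv_one]⟩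

theorem RU.zpow {x : K} (hx : RU x) (k : ℤ) : RU (x ^ k) := by
  obtain ⟨m, hm, h⟩ := hx
  refine ⟨m, hm, ?_⟩
  rw [← zpow_natCast, ← zpow_mul, mul_comm, zpow_mul, zpow_natCast, h, one_zpow]

theorem RU.of_zpow {x : K} {k : ℤ} (hk : k ≠ 0) (hx : RU (x ^ k)) : RU x := by
  obtain ⟨m, hm, h⟩ := hx
  have h1 : x ^ (k * m) = 1 := by rw [zpow_mul, zpow_natCast, h]
  rcases lt_or_gt_of_ne hk with h2 | h2
  · refine ⟨(-(k * m)).toNat, ?_, ?_⟩
    · have : 0 < -(k * m) := by
        have : k * (m : ℤ) < 0 := mul_neg_of_neg_of_pos h2 (by exact_mod_cast hm)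
        omega
      omega
    · rw [← zpow_natCast, Int.toNat_of_nonneg, zpow_neg, h1, inv_one]
      have : k * (m : ℤ) < 0 := mul_neg_of_neg_of_pos h2 (by exact_mod_cast hm)
      omega
  · refine ⟨(k * m).toNat, ?_, ?_⟩
    · have : 0 < k * (m : ℤ) := mul_pos h2 (by exact_mod_cast hm)
      omega
    · rw [← zpow_natCast, Int.toNat_of_nonneg, h1]
      have : 0 < k * (m : ℤ) := mul_pos h2 (by exact_mod_cast hm)
      omega

/-- Roots of unity of an extension of the complex numbers are complex numbers. -/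
theorem RU.exists_complex [Algebra ℂ K] {x : K} (hx : RU x) :
    ∃ ζ : ℂ, RU ζ ∧ algebraMap ℂ K ζ = x := by
  obtain ⟨m, hm, h⟩ := hx
  have hm0 : m ≠ 0 := hm.ne'
  have hprim := Complex.isPrimitiveRoot_exp m hm0
  have hprim' : IsPrimitiveRoot (algebraMap ℂ K (Complex.exp (2 * Real.pi * Complex.I / m))) m :=
    hprim.map_of_injective (algebraMap ℂ K).injective
  have : NeZero m := ⟨hm0⟩
  obtain ⟨i, _, hi⟩ := hprim'.eq_pow_of_pow_eq_one h
  refine ⟨Complex.exp (2 * Real.pi * Complex.I / m) ^ i, ⟨m, hm, ?_⟩, ?_⟩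
  · rw [← pow_mul, mul_comm i m, pow_mul, hprim.pow_eq_one, one_pow]
  · rw [map_pow, hi]

end RootsOfUnity

section Mon

variable {ι : Type} [Fintype ι] {K : Type} [Field K]

/-- The monomial with integer exponents. -/
noncomputable def mon (w : ι → K) (a : ι → ℤ) : K := ∏ i, w i ^ a i

theorem mon_zero (w : ι → K) : mon w 0 = 1 := by simp [mon]

theorem mon_ne_zero {w : ι → K} {a : ι → ℤ} (h : mon w a ≠ 0) (i : ι) : w i ≠ 0 ∨ a i = 0 := by
  by_contra hcon
  push Not at hcon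
  apply h
  unfold mon
  rw [Finset.prod_eq_zero (Finset.mem_univ i)]
  rw [hcon.1, zero_zpow _ hcon.2]

theorem mon_add {w : ι → K} {a b : ι → ℤ} (h : ∀ i, w i ≠ 0 ∨ (a i = 0 ∧ b i = 0)) :
    mon w (a + b) = mon w a * mon w b := by
  unfold mon
  rw [← Finset.prod_mul_distrib]
  refine Finset.prod_congr rfl fun i _ => ?_
  rw [Pi.add_apply]
  rcases h i with h | ⟨h1, h2⟩
  · exact zpow_add₀ h _ _
  · rw [h1, h2]
    simp

theorem mon_add' {w : ι → K} (hw : ∀ i, w i ≠ 0) (a b : ι → ℤ) :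
    mon w (a + b) = mon w a * mon w b := mon_add fun i => Or.inl (hw i)

theorem mon_smul (w : ι → K) (k : ℤ) (a : ι → ℤ) : mon w (k • a) = mon w a ^ k := by
  unfold mon
  rw [← Finset.prod_zpow]
  refine Finset.prod_congr rfl fun i _ => ?_
  rw [Pi.smul_apply, smul_eq_mul, mul_comm, zpow_mul]

theorem mon_neg (w : ι → K) (a : ι → ℤ) : mon w (-a) = (mon w a)⁻¹ := by
  have := mon_smul w (-1) a
  rw [neg_one_smul, zpow_neg_one] at this
  exact this

/-- Exponents of the relations modulo roots of unity. -/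
noncomputable def relZ (w : ι → K) : Submodule ℤ (ι → ℤ) where
  carrier := {a | RU (mon w a)}
  zero_mem' := by
    change RU (mon w 0)
    rw [mon_zero]
    exact RU.one
  add_mem' := by
    intro a b ha hb
    change RU (mon w (a + b))
    have ha' : RU (mon w a) := ha
    have hb' : RU (mon w b) := hb
    rw [mon_add]
    · exact ha'.mul hb'
    · intro i
      rcases mon_ne_zero ha'.ne_zero i with h | h
      · exact Or.inl h
      · rcases mon_ne_zero hb'.ne_zero i with h' | h'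
        · exact Or.inl h'
        · exact Or.inr ⟨h, h'⟩
  smul_mem' := by
    intro k a ha
    have ha' : RU (mon w a) := ha
    change RU (mon w (k • a))
    rw [mon_smul]
    exact ha'.zpow k

theorem mem_relZ {w : ι → K} {a : ι → ℤ} : a ∈ relZ w ↔ RU (mon w a) := Iff.rfl

theorem relZ_saturated {w : ι → K} {a : ι → ℤ} {k : ℤ} (hk : k ≠ 0) (h : k • a ∈ relZ w) :
    a ∈ relZ w := by
  rw [mem_relZ, mon_smul] at h
  exact h.of_zpow hk

theorem cst_mem_QS_relZ {w : ι → K} {a : ι → ℤ} : cst a ∈ QS (relZ w) ↔ a ∈ relZ w := by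
  constructor
  · intro h
    obtain ⟨k, hk, b, hb, hkb⟩ := exists_mult_mem h
    have : b = k • a := by
      funext i
      have := hkb i
      rw [cst_apply] at this
      rw [Pi.smul_apply, smul_eq_mul]
      exact_mod_cast this
    rw [this] at hb
    exact relZ_saturated hk hb
  · exact cst_mem_QS

/-- The number of independent relations modulo roots of unity. -/
noncomputable def rho (w : ι → K) : ℕ := finrank ℚ (QS (relZ w))

variable {k : Type} [Field k] [Algebra k K]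

/-- The polynomial `X ^ a⁺ - c X ^ a⁻`. -/
noncomputable def binom (k : Type) [Field k] (a : ι → ℤ) (c : k) : MvPolynomial ι k :=
  ∏ i, X i ^ (a i).toNat - C c * ∏ i, X i ^ (-a i).toNat

theorem mon_eq_div {w : ι → K} (hw : ∀ i, w i ≠ 0) (a : ι → ℤ) :
    mon w a = (∏ i, w i ^ (a i).toNat) / ∏ i, w i ^ (-a i).toNat := by
  unfold mon
  rw [← Finset.prod_div_distrib]
  refine Finset.prod_congr rfl fun i _ => ?_
  have h : a i = ((a i).toNat : ℤ) - ((-a i).toNat : ℤ) := (Int.toNat_sub_toNat_neg (a i)).symm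
  conv_lhs => rw [h]
  rw [zpow_sub₀ (hw i), zpow_natCast, zpow_natCast]

theorem binom_mem_kr {w : ι → K} (hw : ∀ i, w i ≠ 0) (a : ι → ℤ) (c : k) :
    binom k a c ∈ kr k w ↔ mon w a = algebraMap k K c := by
  rw [mem_kr, binom, map_sub, map_mul, map_prod, map_prod, aeval_C, mon_eq_div hw, sub_eq_zero]
  simp only [map_pow, aeval_X]
  rw [div_eq_iff]
  exact Finset.prod_ne_zero_iff.mpr fun i _ => pow_ne_zero _ (hw i)

theorem relZ_mono {K' : Type} [Field K'] [Algebra k K'] {w : ι → K} {w' : ι → K'}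
    (hw : ∀ i, w i ≠ 0) (hw' : ∀ i, w' i ≠ 0) (h : kr k w ≤ kr k w') : relZ w ≤ relZ w' := by
  intro a ha
  obtain ⟨m, hm, h1⟩ := mem_relZ.mp ha
  have h2 : mon w ((m : ℤ) • a) = algebraMap k K 1 := by
    rw [mon_smul, zpow_natCast, h1, map_one]
  have h3 := h ((binom_mem_kr hw _ _).mpr h2)
  rw [binom_mem_kr hw', mon_smul, zpow_natCast, map_one] at h3
  exact ⟨m, hm, h3⟩

theorem rho_mono {K' : Type} [Field K'] [Algebra k K'] {w : ι → K} {w' : ι → K'}
    (hw : ∀ i, w i ≠ 0) (hw' : ∀ i, w' i ≠ 0) (h : kr k w ≤ kr k w') : rho w ≤ rho w' :=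
  Submodule.finrank_mono (QS_mono (relZ_mono hw hw' h))

end Mon

section Torus

variable {ι : Type}

/-- Prime ideals of the coordinate ring of the torus, as primes of the polynomial ring. -/
structure TP (p : Ideal (MvPolynomial ι ℂ)) : Prop where
  prime : p.IsPrime
  coord : ∀ i, X i ∉ p

theorem TP.kr {K : Type} [Field K] [Algebra ℂ K] {w : ι → K} (hw : ∀ i, w i ≠ 0) :
    TP (kr ℂ w) := ⟨inferInstance, fun i h => hw i (by rwa [mem_kr, aeval_X] at h)⟩

theorem TP.mono {p q : Ideal (MvPolynomial ι ℂ)} (hq : TP q) (hp : p.IsPrime) (h : p ≤ q) : TP p :=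
  ⟨hp, fun i hi => hq.coord i (h hi)⟩

/-- Exponents of the relations modulo roots of unity on the variety of `p`. -/
def relSet [Fintype ι] (p : Ideal (MvPolynomial ι ℂ)) : Set (ι → ℤ) :=
  {a | ∃ m : ℕ, 0 < m ∧ binom ℂ ((m : ℤ) • a) 1 ∈ p}

/-- The rational span of the relations. -/
noncomputable def QP [Fintype ι] (p : Ideal (MvPolynomial ι ℂ)) : Submodule ℚ (ι → ℚ) :=
  Submodule.span ℚ (cst '' relSet p)

/-- The number of independent relations modulo roots of unity on the variety of `p`. -/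
noncomputable def rhoP [Fintype ι] (p : Ideal (MvPolynomial ι ℂ)) : ℕ := finrank ℚ (QP p)

variable [Fintype ι]

theorem QP_mono {p q : Ideal (MvPolynomial ι ℂ)} (h : p ≤ q) : QP p ≤ QP q := by
  refine Submodule.span_mono (Set.image_mono ?_)
  rintro a ⟨m, hm, ha⟩
  exact ⟨m, hm, h ha⟩

theorem rhoP_mono {p q : Ideal (MvPolynomial ι ℂ)} (h : p ≤ q) : rhoP p ≤ rhoP q :=
  Submodule.finrank_mono (QP_mono h)

theorem relSet_kr {K : Type} [Field K] [Algebra ℂ K] {w : ι → K} (hw : ∀ i, w i ≠ 0) :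
    relSet (Pool.Agent.CITLines.kr ℂ w) = relZ w := by
  ext a
  change (∃ m : ℕ, 0 < m ∧ _) ↔ (∃ m : ℕ, 0 < m ∧ mon w a ^ m = 1)
  refine exists_congr fun m => and_congr_right fun _ => ?_
  rw [binom_mem_kr hw, mon_smul, zpow_natCast, map_one]

theorem QP_kr {K : Type} [Field K] [Algebra ℂ K] {w : ι → K} (hw : ∀ i, w i ≠ 0) :
    QP (Pool.Agent.CITLines.kr ℂ w) = QS (relZ w) := by
  unfold QP QS
  rw [relSet_kr hw]

theorem rhoP_kr {K : Type} [Field K] [Algebra ℂ K] {w : ι → K} (hw : ∀ i, w i ≠ 0) :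
    rhoP (Pool.Agent.CITLines.kr ℂ w) = rho w := by
  unfold rhoP rho
  rw [QP_kr hw]

theorem TP.gen_ne_zero {p : Ideal (MvPolynomial ι ℂ)} [p.IsPrime] (hp : TP p) (i : ι) :
    gen p i ≠ 0 := Pool.Agent.CITLines.gen_ne_zero p (hp.coord i)

theorem TP.QP_eq {p : Ideal (MvPolynomial ι ℂ)} [p.IsPrime] (hp : TP p) :
    QP p = QS (relZ (gen p)) := by
  have := QP_kr (w := gen p) hp.gen_ne_zero
  rwa [kr_gen] at this

theorem TP.binom_mem {p : Ideal (MvPolynomial ι ℂ)} [p.IsPrime] (hp : TP p) (a : ι → ℤ) (c : ℂ) :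
    binom ℂ a c ∈ p ↔ mon (gen p) a = algebraMap ℂ (Kf p) c := by
  rw [← binom_mem_kr hp.gen_ne_zero, kr_gen]

/-- An integer vector is in the relation space iff the monomial is a root of unity. -/
theorem TP.cst_mem_QP {p : Ideal (MvPolynomial ι ℂ)} (hp : TP p) (a : ι → ℤ) :
    cst a ∈ QP p ↔ ∃ ζ : ℂ, RU ζ ∧ binom ℂ a ζ ∈ p := by
  have := hp.prime
  rw [hp.QP_eq, cst_mem_QS_relZ]
  constructor
  · intro h
    obtain ⟨ζ, hζ, h1⟩ := (mem_relZ.mp h).exists_complex
    exact ⟨ζ, hζ, (hp.binom_mem _ _).mpr h1.symm⟩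
  · rintro ⟨ζ, ⟨m, hm, hζ⟩, h1⟩
    rw [hp.binom_mem] at h1
    refine ⟨m, hm, ?_⟩
    rw [h1, ← map_pow, hζ, map_one]

/-- The value of a monomial on the variety of a prime is unique. -/
theorem TP.binom_unique {p : Ideal (MvPolynomial ι ℂ)} (hp : TP p) {a : ι → ℤ} {c d : ℂ}
    (h : binom ℂ a c ∈ p) (h' : binom ℂ a d ∈ p) : c = d := by
  have := hp.prime
  rw [hp.binom_mem] at h h'
  exact (algebraMap ℂ (Kf p)).injective (h.symm.trans h')

end Torus

end Pool.Agent.CITLines
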