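import Pool.Agent.CITLines.Lift2

set_option autoImplicit false

/-!
Every rational polynomial has a multiple which is the sum of a chain.
-/

namespace Pool.Agent.CITLines

open MvPolynomial Module

variable {ι : Type} [Fintype ι]

/-- The polynomial of a signed monomial. -/
noncomputable def sm (t : Bool × (ι → ℕ)) : MvPolynomial ι ℚ :=
  (if t.1 then 1 else -1) * ∏ i, X i ^ t.2 i

/-- Sums of signed monomials. -/
def Rep (g : MvPolynomial ι ℚ) : Prop :=
  ∃ L : List (Bool × (ι → ℕ)), (L.map sm).sum = g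

theorem Rep.zero : Rep (0 : MvPolynomial ι ℚ) := ⟨[], rfl⟩

theorem Rep.add {f g : MvPolynomial ι ℚ} (hf : Rep f) (hg : Rep g) : Rep (f + g) := by
  obtain ⟨L, rfl⟩ := hf
  obtain ⟨L', rfl⟩ := hg
  exact ⟨L ++ L', by rw [List.map_append, List.sum_append]⟩

theorem Rep.nsmul {f : MvPolynomial ι ℚ} (hf : Rep f) (n : ℕ) : Rep (C (n : ℚ) * f) := by
  induction n with
  | zero =>
    rw [Nat.cast_zero, map_zero, zero_mul]
    exact Rep.zero
  | succ n ih =>
    rw [Nat.cast_succ, map_add, map_one, add_mul, one_mul]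
    exact ih.add hf

theorem Rep.one : Rep (1 : MvPolynomial ι ℚ) := ⟨[(true, 0)], by simp [sm]⟩

theorem Rep.neg_one : Rep (-1 : MvPolynomial ι ℚ) := ⟨[(false, 0)], by simp [sm]⟩

theorem Rep.int (n : ℤ) : Rep (C (n : ℚ) : MvPolynomial ι ℚ) := by
  obtain ⟨k, rfl | rfl⟩ := n.eq_nat_or_neg
  · have := (Rep.one (ι := ι)).nsmul k
    rw [mul_one] at this
    simpa using this
  · have := (Rep.neg_one (ι := ι)).nsmul k
    rw [mul_neg_one] at this
    simpa using this

theorem Rep.mul_X [DecidableEq ι] {f : MvPolynomial ι ℚ} (hf : Rep f) (i : ι) :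
    Rep (f * X i) := by
  obtain ⟨L, rfl⟩ := hf
  refine ⟨L.map (fun t => (t.1, t.2 + Pi.single i 1)), ?_⟩
  rw [List.map_map, ← List.sum_map_mul_right]
  congr 1
  refine List.map_congr_left fun t _ => ?_
  simp only [Function.comp_apply, sm, Pi.add_apply, pow_add, Finset.prod_mul_distrib]
  rw [mul_assoc]
  congr 2
  rw [Finset.prod_eq_single i]
  · simp
  · intro j _ hj
    rw [Pi.single_eq_of_ne hj, pow_zero]
  · intro h
    exact absurd (Finset.mem_univ i) h

theorem exists_rep (f : MvPolynomial ι ℚ) : ∃ n : ℕ, n ≠ 0 ∧ Rep (C (n : ℚ) * f) := by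
  classical
  induction f using MvPolynomial.induction_on with
  | C a =>
    refine ⟨a.den, a.den_nz, ?_⟩
    rw [← map_mul, mul_comm, Rat.mul_den_eq_num]
    exact Rep.int _
  | add p q hp hq =>
    obtain ⟨n, hn, h⟩ := hp
    obtain ⟨m, hm, h'⟩ := hq
    refine ⟨n * m, mul_ne_zero hn hm, ?_⟩
    have h1 : (C ((n * m : ℕ) : ℚ) * (p + q) : MvPolynomial ι ℚ) =
        C (m : ℚ) * (C (n : ℚ) * p) + C (n : ℚ) * (C (m : ℚ) * q) := by
      rw [Nat.cast_mul, map_mul]
      ring
    rw [h1]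
    exact (h.nsmul m).add (h'.nsmul n)
  | mul_X p i hp =>
    obtain ⟨n, hn, h⟩ := hp
    refine ⟨n, hn, ?_⟩
    rw [← mul_assoc]
    exact h.mul_X i

/-- Chains for a rational polynomial. -/
theorem exists_chain [DecidableEq ι] (f : MvPolynomial ι ℚ) : ∃ (n : ℕ) (sgn : Fin (n + 3) → Bool)
    (ex : Fin (n + 3) → ι → ℕ) (N : ℚ), N ≠ 0 ∧
      ∑ x, sm (sgn x, ex x) = C N * f ∧ (∃ x, ex x = 0) ∧
        ∀ i, ∃ x, ∀ i', ex x i' = if i' = i then 1 else 0 := by
  obtain ⟨N, hN, L, hL⟩ := exists_rep f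
  let L2 : List (Bool × (ι → ℕ)) := Finset.univ.toList.flatMap
    (fun i : ι => [(true, Pi.single i 1), (false, Pi.single i 1)])
  let L' : List (Bool × (ι → ℕ)) := (true, 0) :: (false, 0) :: (true, 0) :: (false, 0) :: (L ++ L2)
  have hL2 : (L2.map sm).sum = 0 := by
    have h1 : ∀ l : List ι, ((l.flatMap
        (fun i : ι => [(true, (Pi.single i 1 : ι → ℕ)), (false, Pi.single i 1)])).map sm).sum =
          0 := by
      intro l
      induction l with
      | nil => rfl
      | cons i l ih =>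
        rw [List.flatMap_cons, List.map_append, List.sum_append, ih]
        simp [sm]
    exact h1 _
  have hL' : (L'.map sm).sum = C (N : ℚ) * f := by
    simp only [L', List.map_cons, List.sum_cons, List.map_append, List.sum_append, hL, hL2]
    simp [sm]
  obtain ⟨n, hn⟩ : ∃ n, L'.length = n + 3 := ⟨(L ++ L2).length + 1, by simp [L']⟩
  have hget : ∀ t ∈ L', ∃ x : Fin (n + 3), L'.get (Fin.cast hn.symm x) = t := by
    intro t ht
    obtain ⟨x, hx⟩ := List.get_of_mem ht
    exact ⟨Fin.cast hn x, by simpa using hx⟩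
  refine ⟨n, fun x => (L'.get (Fin.cast hn.symm x)).1, fun x => (L'.get (Fin.cast hn.symm x)).2,
    N, by exact_mod_cast hN, ?_, ?_, ?_⟩
  · rw [← hL']
    have h1 : L'.map sm = List.ofFn (fun x : Fin L'.length => sm (L'.get x)) := by
      conv_lhs => rw [← List.ofFn_get L']
      rw [List.map_ofFn]
      rfl
    rw [h1, List.sum_ofFn]
    exact Equiv.sum_comp (finCongr hn.symm) (fun x => sm (L'.get x))
  · obtain ⟨x, hx⟩ := hget (true, 0) (by simp [L'])
    exact ⟨x, by simp only; rw [hx]⟩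
  · intro i
    have hmem : (true, (Pi.single i 1 : ι → ℕ)) ∈ L2 := by
      rw [List.mem_flatMap]
      exact ⟨i, Finset.mem_toList.mpr (Finset.mem_univ i), by simp⟩
    obtain ⟨x, hx⟩ := hget (true, Pi.single i 1) (by simp [L', hmem])
    refine ⟨x, fun i' => ?_⟩
    simp only
    rw [hx]
    simp [Pi.single_apply]

end Pool.Agent.CITLines
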