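import Pool.Agent.CITLines.Rep
import Pool.Agent.CITLines.PushMain

set_option autoImplicit false

/-!
The linearised system as a system of equations `A + B = C` between monomials.
-/

namespace Pool.Agent.CITLines

open MvPolynomial Module

section Sys

variable {ι J : Type} [Fintype ι] [Fintype J] {len : J → ℕ} (sgn : Lk len → Bool)
  (ex : Lk len → ι → ℕ)

/-- Unit vectors. -/
noncomputable def dl (i : Co ι len) : Co ι len → ℤ := by
  classical exact Pi.single i 1

/-- The exponent vector of a link. -/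
noncomputable def mo (l : Lk len) : Co ι len → ℤ :=
  Function.extend Sum.inl (fun i => (ex l i : ℤ)) 0

variable {K : Type} [Field K]

theorem mon_dl (w : Co ι len → K) (i : Co ι len) : mon w (dl i) = w i := by
  classical
  unfold dl
  convert mon_single w i

theorem mon_mo (w : Co ι len → K) (l : Lk len) :
    mon w (mo ex l) = ∏ i, w (Sum.inl i) ^ ex l i := by
  classical
  unfold mo
  rw [mon_extend w Sum.inl Sum.inl_injective]
  unfold mon
  exact Finset.prod_congr rfl fun i _ => zpow_natCast _ _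

/-- First exponent. -/
noncomputable def al (x : Lk len × Sel) : Co ι len → ℤ :=
  match x.2 with
  | Sel.a => if sgn x.1 then dl (cU x.1 Sel.a) else dl (cU x.1 Sel.b)
  | Sel.b => dl (cU x.1 Sel.b)
  | Sel.c => dl (cU (nx x.1) Sel.a)

/-- Second exponent. -/
noncomputable def be (x : Lk len × Sel) : Co ι len → ℤ :=
  match x.2 with
  | Sel.a => mo ex x.1
  | Sel.b => dl (cT (nx x.1))
  | Sel.c => dl (cT x.1)

/-- Third exponent. -/
noncomputable def ga (x : Lk len × Sel) : Co ι len → ℤ :=
  match x.2 with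
  | Sel.a => if sgn x.1 then dl (cU x.1 Sel.b) else dl (cU x.1 Sel.a)
  | Sel.b => dl (cU x.1 Sel.c)
  | Sel.c => dl (cU x.1 Sel.c)

theorem sat_iff (w : Co ι len → K) : Sat sgn ex w ↔
    ∀ x : Lk len × Sel, mon w (al sgn x) + mon w (be ex x) = mon w (ga sgn x) := by
  have ha : ∀ l : Lk len, (w (cU l Sel.b) = w (cU l Sel.a) +
      tm sgn ex (fun i => w (Sum.inl i)) l) ↔
      mon w (al sgn (l, Sel.a)) + mon w (be ex (l, Sel.a)) = mon w (ga sgn (l, Sel.a)) := by
    intro l
    unfold al be ga tm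
    by_cases hs : sgn l
    · simp only [hs, if_true, mon_dl, mon_mo, one_mul]
      exact eq_comm
    · simp only [hs, mon_dl, mon_mo, Bool.false_eq_true, if_false]
      constructor
      · intro h
        rw [h]
        ring
      · intro h
        rw [← h]
        ring
  constructor
  · rintro h ⟨l, _ | _ | _⟩
    · exact (ha l).mp (h l).1
    · simp only [al, be, ga, mon_dl]
      exact (h l).2.1.symm
    · simp only [al, be, ga, mon_dl]
      exact (h l).2.2.symm
  · intro h l
    refine ⟨(ha l).mpr (h (l, Sel.a)), ?_, ?_⟩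
    · have := h (l, Sel.b)
      simp only [al, be, ga, mon_dl] at this
      exact this.symm
    · have := h (l, Sel.c)
      simp only [al, be, ga, mon_dl] at this
      exact this.symm

/-- The equations of the powers of the line `x + y = 1`. -/
noncomputable def LI (r : ℕ) : Ideal (MvPolynomial (Fin (r + r)) ℂ) :=
  Ideal.span (Set.range fun j : Fin r => X (Fin.castAdd r j) + X (Fin.natAdd r j) - 1)

theorem LI_le_kr {r : ℕ} (w : Fin (r + r) → K) [Algebra ℂ K] : LI r ≤ kr ℂ w ↔
    ∀ j : Fin r, w (Fin.castAdd r j) + w (Fin.natAdd r j) = 1 := by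
  unfold LI
  rw [Ideal.span_le]
  constructor
  · intro h j
    have h1 := h ⟨j, rfl⟩
    rw [SetLike.mem_coe, mem_kr] at h1
    simp only [map_sub, map_add, aeval_X, map_one] at h1
    exact sub_eq_zero.mp h1
  · rintro h _ ⟨j, rfl⟩
    rw [SetLike.mem_coe, mem_kr]
    simp only [map_sub, map_add, aeval_X, map_one]
    rw [h j, sub_self]

/-- The exponents of the monomial map. -/
noncomputable def ph {R : ℕ} (e : (Lk len × Sel) ≃ Fin R) : Fin (R + R) → Co ι len → ℤ :=
  Fin.append (fun r => al sgn (e.symm r) - ga sgn (e.symm r))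
    (fun r => be ex (e.symm r) - ga sgn (e.symm r))

theorem LI_le_pm_iff {R : ℕ} (e : (Lk len × Sel) ≃ Fin R) [Algebra ℂ K] {w : Co ι len → K}
    (hw : ∀ i, w i ≠ 0) : LI R ≤ kr ℂ (pm (ph sgn ex e) w) ↔ Sat sgn ex w := by
  rw [LI_le_kr, sat_iff]
  have hg : ∀ x : Lk len × Sel, mon w (ga sgn x) ≠ 0 := fun x =>
    Finset.prod_ne_zero_iff.mpr fun i _ => zpow_ne_zero _ (hw i)
  have h1 : ∀ a g : Co ι len → ℤ, mon w (a - g) = mon w a / mon w g := by
    intro a g
    rw [sub_eq_add_neg, mon_add' hw, mon_neg, div_eq_mul_inv]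
  have key : ∀ x : Lk len × Sel,
      (mon w (al sgn x - ga sgn x) + mon w (be ex x - ga sgn x) = 1 ↔
        mon w (al sgn x) + mon w (be ex x) = mon w (ga sgn x)) := by
    intro x
    rw [h1, h1, ← add_div, div_eq_one_iff_eq (hg x)]
  constructor
  · intro h x
    have h2 := h (e x)
    unfold pm ph at h2
    rw [Fin.append_left, Fin.append_right, e.symm_apply_apply] at h2
    exact (key x).mp h2
  · intro h j
    unfold pm ph
    rw [Fin.append_left, Fin.append_right]
    exact (key _).mpr (h _)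

theorem ph_surjective {R : ℕ} (e : (Lk len × Sel) ≃ Fin R)
    (h0 : ∀ j : J, ∃ x, ex ⟨j, x⟩ = 0)
    (h1 : ∀ i, ∃ l, ∀ i', ex l i' = by classical exact if i' = i then 1 else 0) :
    Function.Surjective (psiZ (ph sgn ex e)) := by
  classical
  rw [← LinearMap.range_eq_top]
  set Λ := LinearMap.range (psiZ (ph sgn ex e)) with hΛ
  have hmem : ∀ s, ph sgn ex e s ∈ Λ := by
    intro s
    refine ⟨Pi.single s 1, ?_⟩
    rw [psiZ_apply]
    simp [Pi.single_apply]
  have hA : ∀ x : Lk len × Sel, al sgn x - ga sgn x ∈ Λ := by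
    intro x
    have := hmem (Fin.castAdd R (e x))
    unfold ph at this
    rwa [Fin.append_left, e.symm_apply_apply] at this
  have hB : ∀ x : Lk len × Sel, be ex x - ga sgn x ∈ Λ := by
    intro x
    have := hmem (Fin.natAdd R (e x))
    unfold ph at this
    rwa [Fin.append_right, e.symm_apply_apply] at this
  have hab : ∀ l : Lk len, (dl (cU l Sel.a) : Co ι len → ℤ) - dl (cU l Sel.b) ∈ Λ := by
    intro l
    have := hA (l, Sel.a)
    simp only [al, ga] at this
    by_cases hs : sgn l
    · simpa only [hs, if_true] using this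
    · simp only [hs, Bool.false_eq_true, if_false] at this
      rw [← neg_sub]
      exact Λ.neg_mem this
  have hmb : ∀ l : Lk len, mo ex l - dl (cU l Sel.b) ∈ Λ := by
    intro l
    have := hB (l, Sel.a)
    simp only [be, ga] at this
    by_cases hs : sgn l
    · simpa only [hs, if_true] using this
    · simp only [hs, Bool.false_eq_true, if_false] at this
      have h2 := Λ.add_mem this (hab l)
      rwa [sub_add_sub_cancel] at h2
  have hbc : ∀ l : Lk len, (dl (cU l Sel.b) : Co ι len → ℤ) - dl (cU l Sel.c) ∈ Λ :=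
    fun l => hA (l, Sel.b)
  have hTc : ∀ l : Lk len, (dl (cT (nx l)) : Co ι len → ℤ) - dl (cU l Sel.c) ∈ Λ :=
    fun l => hB (l, Sel.b)
  have hac : ∀ l : Lk len, (dl (cU (nx l) Sel.a) : Co ι len → ℤ) - dl (cU l Sel.c) ∈ Λ :=
    fun l => hA (l, Sel.c)
  have hTc' : ∀ l : Lk len, (dl (cT l) : Co ι len → ℤ) - dl (cU l Sel.c) ∈ Λ :=
    fun l => hB (l, Sel.c)
  have step1 : ∀ {u v : Co ι len → ℤ}, u - v ∈ Λ → u ∈ Λ → v ∈ Λ := by
    intro u v huv hu
    have := Λ.sub_mem hu huv
    rwa [sub_sub_cancel] at this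
  have step2 : ∀ {u v : Co ι len → ℤ}, u - v ∈ Λ → v ∈ Λ → u ∈ Λ := by
    intro u v huv hv
    have := Λ.add_mem huv hv
    rwa [sub_add_cancel] at this
  have ha : ∀ l : Lk len, (dl (cU l Sel.a) : Co ι len → ℤ) ∈ Λ := by
    rintro ⟨j, x⟩
    obtain ⟨x0, hx0⟩ := h0 j
    refine chain_induction (fun l => (dl (cU l Sel.a) : Co ι len → ℤ) ∈ Λ) j x0 ?_ ?_ x
    · have h2 : mo ex (⟨j, x0⟩ : Lk len) = 0 := by
        unfold mo
        rw [hx0]
        funext i
        by_cases hi : ∃ i', Sum.inl i' = i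
        · obtain ⟨i', rfl⟩ := hi
          rw [Sum.inl_injective.extend_apply]
          simp
        · rw [Function.extend_apply' _ _ _ hi]
      have h3 := hmb ⟨j, x0⟩
      rw [h2] at h3
      exact step2 (hab _) (step1 h3 Λ.zero_mem)
    · intro l hl
      exact step2 (hac l) (step1 (hbc l) (step1 (hab l) hl))
  have hb : ∀ l : Lk len, (dl (cU l Sel.b) : Co ι len → ℤ) ∈ Λ := fun l => step1 (hab l) (ha l)
  have hc : ∀ l : Lk len, (dl (cU l Sel.c) : Co ι len → ℤ) ∈ Λ := fun l => step1 (hbc l) (hb l)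
  have hT : ∀ l : Lk len, (dl (cT l) : Co ι len → ℤ) ∈ Λ := fun l => step2 (hTc' l) (hc l)
  have hx : ∀ i : ι, (dl (Sum.inl i) : Co ι len → ℤ) ∈ Λ := by
    intro i
    obtain ⟨l, hl⟩ := h1 i
    have h2 : mo ex l = dl (Sum.inl i) := by
      unfold mo dl
      funext i'
      by_cases hi : ∃ i'', Sum.inl i'' = i'
      · obtain ⟨i'', rfl⟩ := hi
        rw [Sum.inl_injective.extend_apply, hl]
        simp only [Pi.single_apply, Sum.inl.injEq]
        split_ifs <;> simp
      · rw [Function.extend_apply' _ _ _ hi, Pi.single_eq_of_ne]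
        · rfl
        · exact fun h => hi ⟨i, h.symm⟩
    rw [← h2]
    exact step2 (hmb l) (hb l)
  have hall : ∀ i : Co ι len, (dl i : Co ι len → ℤ) ∈ Λ := by
    rintro (i | l | ⟨l, _ | _ | _⟩)
    · exact hx i
    · exact hT l
    · exact ha l
    · exact hb l
    · exact hc l
  rw [eq_top_iff]
  intro a _
  have h2 : a = ∑ i, a i • dl i := by
    funext i
    unfold dl
    simp [Finset.sum_apply, Pi.single_apply]
  rw [h2]
  exact Λ.sum_mem fun i _ => Λ.smul_mem _ (hall i)

/-- The system is defined over the rational numbers. -/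
theorem Sat.of_kr {K' : Type} [Field K'] [Algebra ℚ K] [Algebra ℚ K'] {w : Co ι len → K}
    {w' : Co ι len → K'} (h : kr ℚ w ≤ kr ℚ w') (hw : Sat sgn ex w) : Sat sgn ex w' := by
  have htm : ∀ {L : Type} [Field L] [Algebra ℚ L] (v : Co ι len → L) (l : Lk len),
      aeval v (tm sgn ex (fun i => (X (Sum.inl i) : MvPolynomial (Co ι len) ℚ)) l) =
        tm sgn ex (fun i => v (Sum.inl i)) l := by
    intro L _ _ v l
    have := map_tm sgn ex (aeval v : MvPolynomial (Co ι len) ℚ →ₐ[ℚ] L).toRingHom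
      (fun i => X (Sum.inl i)) l
    refine this.trans ?_
    congr 1
    funext i
    exact aeval_X v _
  intro l
  obtain ⟨h1, h2, h3⟩ := hw l
  refine ⟨?_, ?_, ?_⟩
  · have h4 : (X (cU l Sel.b) - (X (cU l Sel.a) + tm sgn ex (fun i => X (Sum.inl i)) l) :
        MvPolynomial (Co ι len) ℚ) ∈ kr ℚ w := by
      rw [mem_kr, map_sub, map_add, htm, aeval_X, aeval_X, h1, sub_self]
    have h5 := h h4
    rw [mem_kr, map_sub, map_add, htm, aeval_X, aeval_X, sub_eq_zero] at h5
    exact h5
  · have h4 : (X (cU l Sel.c) - (X (cU l Sel.b) + X (cT (nx l))) :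
        MvPolynomial (Co ι len) ℚ) ∈ kr ℚ w := by
      rw [mem_kr, map_sub, map_add, aeval_X, aeval_X, aeval_X, h2, sub_self]
    have h5 := h h4
    rw [mem_kr, map_sub, map_add, aeval_X, aeval_X, aeval_X, sub_eq_zero] at h5
    exact h5
  · have h4 : (X (cU l Sel.c) - (X (cU (nx l) Sel.a) + X (cT l)) :
        MvPolynomial (Co ι len) ℚ) ∈ kr ℚ w := by
      rw [mem_kr, map_sub, map_add, aeval_X, aeval_X, aeval_X, h3, sub_self]
    have h5 := h h4
    rw [mem_kr, map_sub, map_add, aeval_X, aeval_X, aeval_X, sub_eq_zero] at h5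
    exact h5

end Sys

/-- The relation space depends only on the rational polynomials. -/
theorem QP_of_IQ {ι : Type} [Fintype ι] {p q : Ideal (MvPolynomial ι ℂ)} (h : IQ p = IQ q) :
    QP p = QP q := by
  have h1 : ∀ (p : Ideal (MvPolynomial ι ℂ)) (a : ι → ℤ),
      binom ℂ a 1 ∈ p ↔ binom ℚ a 1 ∈ IQ p := by
    intro p a
    rw [mem_IQ]
    unfold binom
    simp only [map_sub, map_mul, map_prod, map_pow, map_X, map_one]
  have h2 : relSet p = relSet q := by
    ext a
    unfold relSet
    simp only [Set.mem_ofPred_eq, h1, h]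
  unfold QP
  rw [h2]

theorem rhoP_of_IQ {ι : Type} [Fintype ι] {p q : Ideal (MvPolynomial ι ℂ)} (h : IQ p = IQ q) :
    rhoP p = rhoP q := by
  unfold rhoP
  rw [QP_of_IQ h]

end Pool.Agent.CITLines
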