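import Pool.Agent.CITLines.Sets

set_option autoImplicit false

/-!
Translation between the statements on sets and on ideals.
-/

namespace Pool.Agent.CITLines

open MvPolynomial Module Pool.Agent.CITTrans

variable {n : ℕ}

/-- Saturated subgroups are direct summands. -/
theorem exists_retraction (M : Submodule ℤ (Fin n → ℤ))
    (hM : ∀ a : Fin n → ℤ, ∀ m : ℤ, m ≠ 0 → m • a ∈ M → a ∈ M) :
    ∃ π : (Fin n → ℤ) →ₗ[ℤ] (Fin n → ℤ), (∀ b, π b ∈ M) ∧ ∀ b ∈ M, π b = b := by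
  have htf : Module.IsTorsionFree ℤ ((Fin n → ℤ) ⧸ M) := by
    rw [Module.isTorsionFree_iff_smul_eq_zero]
    intro m x h
    obtain ⟨a, rfl⟩ := M.mkQ_surjective x
    by_cases hm : m = 0
    · exact Or.inl hm
    · right
      rw [← map_smul, ← LinearMap.mem_ker, Submodule.ker_mkQ] at h
      rw [← LinearMap.mem_ker, Submodule.ker_mkQ]
      exact hM a m hm h
  obtain ⟨s, hs⟩ := Module.projective_lifting_property M.mkQ LinearMap.id M.mkQ_surjective
  have key : ∀ b, M.mkQ b = 0 → b ∈ M := by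
    intro b h
    rwa [← LinearMap.mem_ker, Submodule.ker_mkQ] at h
  refine ⟨LinearMap.id - s ∘ₗ M.mkQ, ?_, ?_⟩
  · intro b
    apply key
    have := LinearMap.congr_fun hs (M.mkQ b)
    simp only [LinearMap.comp_apply, LinearMap.id_apply] at this
    simp only [LinearMap.sub_apply, LinearMap.comp_apply, LinearMap.id_apply, map_sub, this,
      sub_self]
  · intro b hb
    have h1 : M.mkQ b = 0 := by
      rw [← LinearMap.mem_ker, Submodule.ker_mkQ]
      exact hb
    simp only [LinearMap.sub_apply, LinearMap.comp_apply, LinearMap.id_apply, h1, map_zero,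
      sub_zero]

/-- A torsion point with the same values as the generic point on a subgroup. -/
theorem exists_eta {q : Ideal (MvPolynomial (Fin n) ℂ)} [q.IsPrime] (hq : TP q)
    (M : Submodule ℤ (Fin n → ℤ)) (hMq : M ≤ relZ (gen q))
    (π : (Fin n → ℤ) →ₗ[ℤ] (Fin n → ℤ)) (hπM : ∀ b, π b ∈ M) (hπ : ∀ b ∈ M, π b = b) :
    ∃ η : Fin n → ℂ, (∀ i, algebraMap ℂ (Kf q) (η i) = mon (gen q) (π (Pi.single i 1))) ∧
      (∀ i, RU (η i)) ∧ ∀ a ∈ M, binom ℂ a (mon η a) ∈ q := by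
  have h1 : ∀ i : Fin n, ∃ z : ℂ, RU z ∧ algebraMap ℂ (Kf q) z =
      mon (gen q) (π (Pi.single i 1)) :=
    fun i => (mem_relZ.mp (hMq (hπM (Pi.single i 1)))).exists_complex
  choose η hη hη' using h1
  refine ⟨η, hη', hη, ?_⟩
  intro a ha
  rw [hq.binom_mem, ← mon_map (algebraMap ℂ (Kf q)) η a]
  have h2 : (fun i => algebraMap ℂ (Kf q) (η i)) = pm (fun i => π (Pi.single i 1)) (gen q) :=
    funext hη'
  rw [h2, mon_pm _ hq.gen_ne_zero]
  congr 1
  rw [psiZ_apply]
  have h3 : a = ∑ i, a i • (Pi.single i (1 : ℤ) : Fin n → ℤ) := by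
    funext j
    rw [Finset.sum_apply]
    simp [Pi.single_apply]
  have h4 := hπ a ha
  conv_lhs => rw [← h4, h3, map_sum]
  exact Finset.sum_congr rfl fun i _ => map_smul _ _ _

theorem exists_common {η : Fin n → ℂ} (h : ∀ i, RU (η i)) :
    ∃ m : ℕ, 0 < m ∧ ∀ i, η i ^ m = 1 := by
  classical
  choose m hm hm' using h
  refine ⟨∏ i, m i, Finset.prod_pos fun i _ => hm i, fun i => ?_⟩
  rw [← Finset.mul_prod_erase Finset.univ _ (Finset.mem_univ i), pow_mul, hm', one_pow]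

/-- The subgroup generated by `a`, saturated. -/
def satur (a : Fin n → ℤ) : Submodule ℤ (Fin n → ℤ) where
  carrier := {b | ∃ m : ℤ, m ≠ 0 ∧ ∃ k : ℤ, m • b = k • a}
  zero_mem' := ⟨1, one_ne_zero, 0, by simp⟩
  add_mem' := by
    rintro b b' ⟨m, hm, k, h⟩ ⟨m', hm', k', h'⟩
    refine ⟨m * m', mul_ne_zero hm hm', m' * k + m * k', ?_⟩
    rw [smul_add, add_smul, mul_smul m' k, mul_smul m k', ← h, ← h', smul_smul, smul_smul,
      mul_comm m' m]
  smul_mem' := by
    rintro c b ⟨m, hm, k, h⟩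
    refine ⟨m, hm, c * k, ?_⟩
    rw [smul_comm, h, mul_smul]

theorem satur_saturated (a : Fin n → ℤ) : ∀ b : Fin n → ℤ, ∀ m : ℤ, m ≠ 0 →
    m • b ∈ satur a → b ∈ satur a := by
  rintro b m hm ⟨m', hm', k, h⟩
  exact ⟨m' * m, mul_ne_zero hm' hm, k, by rw [mul_smul, h]⟩

theorem mem_satur (a : Fin n → ℤ) : a ∈ satur a := ⟨1, one_ne_zero, 1, rfl⟩

/-- The conjecture for ideals gives the conjecture as stated. -/
theorem zilber_of_cit (hC : ∀ (n : ℕ) (p : Ideal (MvPolynomial (Fin n) ℂ)), TP p → CITi p) :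
    ZilberCIT := by
  classical
  intro n S V hV hVp
  have hV0 : ∀ x ∈ V, ∀ i, x i ≠ 0 := by
    intro x hx
    rw [hV] at hx
    exact hx.1
  have hVT : TP (vanI V) := TP_vanI hV0 hVp
  obtain ⟨L, hL1, hL2⟩ := hC n (vanI V) hVT
  -- for every relation, a common order of the torsion points
  have hstep : ∀ x : (Fin n → ℤ) × ℂ, ∃ K : ℕ, 0 < K ∧ (x.1 ≠ 0 → RU x.2 →
      ∀ (q : Ideal (MvPolynomial (Fin n) ℂ)), TP q → binom ℂ x.1 x.2 ∈ q →
        ∃ η : Fin n → ℂ, (∀ i, η i ^ K = 1) ∧ ∀ b ∈ satur x.1, binom ℂ b (mon η b) ∈ q) := by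
    rintro ⟨a, ζ⟩
    by_cases hζ : RU ζ
    · obtain ⟨N, hN, hζN⟩ := hζ
      obtain ⟨π, hπM, hπ⟩ := exists_retraction (satur a) (satur_saturated a)
      have h1 : ∀ i : Fin n, ∃ m : ℤ, m ≠ 0 ∧ ∃ k : ℤ, m • π (Pi.single i 1) = k • a :=
        fun i => hπM _
      choose m hm k hk using h1
      refine ⟨N * ∏ i, (m i).natAbs, Nat.mul_pos hN
        (Finset.prod_pos fun i _ => Int.natAbs_pos.mpr (hm i)), ?_⟩
      intro ha _ q hq hb
      have hqp := hq.prime
      simp only at ha hb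
      rw [hq.binom_mem] at hb
      have hMq : satur a ≤ relZ (gen q) := by
        rintro b ⟨m', hm', k', h'⟩
        refine relZ_saturated hm' ?_
        rw [h']
        refine (relZ (gen q)).smul_mem _ ?_
        refine ⟨N, hN, ?_⟩
        rw [hb, ← map_pow, hζN, map_one]
      obtain ⟨η, hη1, hη2, hη3⟩ := exists_eta hq (satur a) hMq π hπM hπ
      refine ⟨η, ?_, hη3⟩
      intro i
      have h2 : η i ^ (m i) = ζ ^ (k i) := by
        apply (algebraMap ℂ (Kf q)).injective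
        rw [map_zpow₀, map_zpow₀, hη1, ← hb, ← mon_smul, ← mon_smul, hk]
      have h3 : η i ^ (m i * N) = 1 := by
        rw [zpow_mul, h2, ← zpow_mul, mul_comm, zpow_mul, zpow_natCast, hζN, one_zpow]
      have h4 : η i ^ (N * (m i).natAbs) = 1 := by
        rcases le_or_gt 0 (m i) with h5 | h5
        · rw [← zpow_natCast, Nat.cast_mul, Int.natAbs_of_nonneg h5, mul_comm]
          exact h3
        · have h6 : (((m i).natAbs : ℕ) : ℤ) = - m i := by omega
          rw [← zpow_natCast, Nat.cast_mul, h6, mul_comm, neg_mul, zpow_neg, h3, inv_one]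
      rw [← Finset.mul_prod_erase Finset.univ _ (Finset.mem_univ i), ← mul_assoc, pow_mul, h4,
        one_pow]
    · exact ⟨1, one_pos, fun _ h => absurd h hζ⟩
  choose K hK hK' using hstep
  let E : Finset ((Fin n → ℤ) × (Fin n → ℂ)) := L.biUnion fun x =>
    (Fintype.piFinset fun _ : Fin n => Polynomial.nthRootsFinset (K x) (1 : ℂ)).image
      fun η => (x.1, η)
  have hE : ∀ z ∈ E, z.1 ≠ 0 ∧ ∃ m : ℕ, 0 < m ∧ ∀ i, z.2 i ^ m = 1 := by
    intro z hz
    obtain ⟨x, hx, hz⟩ := Finset.mem_biUnion.mp hz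
    obtain ⟨η, hη, rfl⟩ := Finset.mem_image.mp hz
    refine ⟨(hL1 x hx).1, K x, hK x, fun i => ?_⟩
    exact (Polynomial.mem_nthRootsFinset (hK x) (1 : ℂ)).mp (Fintype.mem_piFinset.mp hη i)
  let e := E.equivFin
  refine ⟨E.card, fun j => satur (e.symm j).1.1, fun j => (e.symm j).1.2, ?_, ?_⟩
  · intro j
    obtain ⟨h1, h2⟩ := hE _ (e.symm j).2
    refine ⟨?_, satur_saturated _, h2⟩
    intro h
    have h3 := mem_satur (e.symm j).1.1
    beta_reduce at h
    rw [h, Submodule.mem_bot] at h3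
    exact h1 h3
  · intro M η T hM hη hT X hXV hXT hXp hdim
    have hX0 : ∀ x ∈ X, ∀ i, x i ≠ 0 := fun x hx => hV0 x (hXV hx)
    have hXTP : TP (vanI X) := TP_vanI hX0 hXp
    obtain ⟨k, hk, hkdim⟩ := dim_cos M η hη
    have hT' : T = cos M η := hT
    have hMle : QS M ≤ QP (vanI X) := by
      refine QS_le_of_subset_cos hη hXTP ?_
      rw [← hT']
      exact vanI_anti hXT
    have hd : dm (vanI V) + k < dm (vanI X) + n := by
      have h1 : ringKrullDim (MvPolynomial (Fin n) ℂ ⧸ vanI V) +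
          ringKrullDim (MvPolynomial (Fin n) ℂ ⧸ vanI T) <
          ringKrullDim (MvPolynomial (Fin n) ℂ ⧸ vanI X) + (n : WithBot ℕ∞) := hdim
      have hVp' : (vanI V).IsPrime := hVp
      have hXp' : (vanI X).IsPrime := hXp
      rw [hT', hkdim, ringKrullDim_eq_dm, ringKrullDim_eq_dm] at h1
      exact_mod_cast h1
    have hrho : finrank ℚ (QS M) ≤ rhoP (vanI X) := Submodule.finrank_mono hMle
    obtain ⟨x, hx, hxq⟩ := hL2 (vanI X) hXTP (vanI_anti hXV) (by omega)
    obtain ⟨η', hη', hb⟩ := hK' x (hL1 x hx).1 (hL1 x hx).2 (vanI X) hXTP hxq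
    have hmem : (x.1, η') ∈ E := by
      refine Finset.mem_biUnion.mpr ⟨x, hx, Finset.mem_image.mpr ⟨η', ?_, rfl⟩⟩
      rw [Fintype.mem_piFinset]
      intro i
      rw [Polynomial.mem_nthRootsFinset (hK x)]
      exact hη' i
    refine ⟨e ⟨_, hmem⟩, ?_⟩
    beta_reduce
    rw [e.symm_apply_apply]
    intro y hy
    refine ⟨hX0 y hy, fun b hb' => ?_⟩
    exact (binom_mem_vanI hX0 b _).mp (hb b hb') y hy

/-- Zero sets of primes are contained in torsion cosets. -/
theorem exists_coset {q : Ideal (MvPolynomial (Fin n) ℂ)} [q.IsPrime] (hq : TP q) :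
    ∃ η : Fin n → ℂ, (∃ m : ℕ, 0 < m ∧ ∀ i, η i ^ m = 1) ∧ Zt q ⊆ cos (relZ (gen q)) η := by
  have hsat : ∀ a : Fin n → ℤ, ∀ m : ℤ, m ≠ 0 → m • a ∈ relZ (gen q) → a ∈ relZ (gen q) :=
    fun a m hm h => relZ_saturated hm h
  obtain ⟨π, hπM, hπ⟩ := exists_retraction (relZ (gen q)) hsat
  obtain ⟨η, _, hη2, hη3⟩ := exists_eta hq (relZ (gen q)) le_rfl π hπM hπ
  refine ⟨η, exists_common hη2, ?_⟩
  intro y hy
  refine ⟨hy.1, fun a ha => ?_⟩
  exact (eval_binom hy.1 a _).mp (hy.2 _ (hη3 a ha))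

/-- The conjecture as stated gives the conjecture for ideals. -/
theorem cit_of_zilber (hZ : ZilberCIT) (p : Ideal (MvPolynomial (Fin n) ℂ)) (hp : TP p) :
    CITi p := by
  classical
  have hvp : vanI (Zt p) = p := vanI_Zt hp
  have hpp := hp.prime
  obtain ⟨k, L, ζ, hL, hcov⟩ := hZ n (p : Set (MvPolynomial (Fin n) ℂ)) (Zt p) rfl (by
    change (vanI (Zt p)).IsPrime
    rw [hvp]
    exact hpp)
  have hne : ∀ j, ∃ a ∈ L j, a ≠ 0 := fun j => Submodule.exists_mem_ne_zero_of_ne_bot (hL j).1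
  choose a ha ha0 using hne
  refine ⟨Finset.univ.image fun j => (a j, mon (ζ j) (a j)), ?_, ?_⟩
  · intro x hx
    obtain ⟨j, _, rfl⟩ := Finset.mem_image.mp hx
    exact ⟨ha0 j, RU_mon (hL j).2.2 _⟩
  · intro q hq hpq hdim
    have hqp := hq.prime
    have hvq : vanI (Zt q) = q := vanI_Zt hq
    obtain ⟨η, hη, hsub⟩ := exists_coset hq
    obtain ⟨d, hd, hddim⟩ := dim_cos (relZ (gen q)) η hη
    have hrho : rhoP q = finrank ℚ (QS (relZ (gen q))) := by
      unfold rhoP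
      rw [hq.QP_eq]
    obtain ⟨j, hj⟩ := hcov (relZ (gen q)) η (cos (relZ (gen q)) η)
      (fun a m hm h => relZ_saturated hm h) hη rfl (Zt q) (Zt_anti hpq) hsub (by
        change (vanI (Zt q)).IsPrime
        rw [hvq]
        exact hqp) (by
        change ringKrullDim (MvPolynomial (Fin n) ℂ ⧸ vanI (Zt p)) +
          ringKrullDim (MvPolynomial (Fin n) ℂ ⧸ vanI (cos (relZ (gen q)) η)) <
          ringKrullDim (MvPolynomial (Fin n) ℂ ⧸ vanI (Zt q)) + (n : WithBot ℕ∞)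
        rw [hvp, hvq, hddim, ringKrullDim_eq_dm, ringKrullDim_eq_dm]
        have h1 : dm p + d < dm q + n := by omega
        exact_mod_cast h1)
    refine ⟨_, Finset.mem_image_of_mem _ (Finset.mem_univ j), ?_⟩
    rw [← hvq, binom_mem_vanI (fun x hx => hx.1)]
    intro x hx
    exact (hj hx).2 (a j) (ha j)

end Pool.Agent.CITLines
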